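import Pool.Agent.Lib_MP_02aa3f_lb.Integrate

/-!
# Averages of plane waves over large circles tend to zero
-/

set_option autoImplicit false
open MeasureTheory Set Filter
open scoped ENNReal Real Topology

namespace Pool.Agent.LatLB

lemma cos_null {N : Set ℝ} (hN : volume N = 0) : volume (Real.cos ⁻¹' N ∩ Ico 0 (2 * π)) = 0 := by
  have hπ := Real.pi_pos
  have h1 : volume (Real.cos ⁻¹' N ∩ Ioo 0 π) = 0 := by
    have hsub : Real.cos ⁻¹' N ∩ Ioo 0 π ⊆ Real.arccos '' (N ∩ Ioo (-1) 1) := by
      rintro θ ⟨h1, h2, h3⟩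
      refine ⟨Real.cos θ, ⟨h1, ?_, ?_⟩, Real.arccos_cos h2.le h3.le⟩
      · rw [← Real.cos_pi]
        exact Real.cos_lt_cos_of_nonneg_of_le_pi h2.le le_rfl h3
      · rw [← Real.cos_zero]
        exact Real.cos_lt_cos_of_nonneg_of_le_pi le_rfl h3.le h2
    refine measure_mono_null hsub ?_
    apply addHaar_image_eq_zero_of_differentiableOn_of_addHaar_eq_zero
    · intro x hx
      exact (Real.differentiableAt_arccos.mpr ⟨hx.2.1.ne', hx.2.2.ne⟩).differentiableWithinAt
    · exact measure_mono_null inter_subset_left hN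
  have h2 : volume (Real.cos ⁻¹' N ∩ Ioo π (2 * π)) = 0 := by
    have hsub : Real.cos ⁻¹' N ∩ Ioo π (2 * π) ⊆
        (fun θ => 2 * π - θ) ⁻¹' (Real.cos ⁻¹' N ∩ Ioo 0 π) := by
      rintro θ ⟨h1, h2, h3⟩
      refine ⟨?_, ?_, ?_⟩
      · rw [mem_preimage, Real.cos_two_pi_sub]; exact h1
      · linarith
      · linarith
    refine measure_mono_null hsub ?_
    have hmp : MeasurePreserving (fun θ : ℝ => 2 * π - θ) volume volume :=
      Measure.measurePreserving_sub_left volume (2 * π)
    exact hmp.quasiMeasurePreserving.preimage_null h1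
  have hsub : Real.cos ⁻¹' N ∩ Ico 0 (2 * π) ⊆
      (Real.cos ⁻¹' N ∩ Ioo 0 π) ∪ ((Real.cos ⁻¹' N ∩ Ioo π (2 * π)) ∪ {0, π}) := by
    rintro θ ⟨h1, h2, h3⟩
    rcases eq_or_lt_of_le h2 with h | h
    · right; right; left; exact h.symm
    · rcases lt_trichotomy θ π with h4 | h4 | h4
      · left; exact ⟨h1, h, h4⟩
      · right; right; right; exact h4
      · right; left; exact ⟨h1, h4, h3⟩
  refine measure_mono_null hsub ?_
  rw [measure_union_null_iff, measure_union_null_iff]
  refine ⟨h1, h2, ?_⟩
  exact (Set.toFinite _).measure_zero _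

lemma bessel_tendsto : Tendsto (fun w : ℝ => ∫ θ in Ii, Complex.exp (-(2 * π * (w * Real.cos θ)) * Complex.I))
    (cocompact ℝ) (𝓝 0) := by
  set ν : Measure ℝ := (volume.restrict Ii).map Real.cos with hν
  have hfin : IsFiniteMeasure (volume.restrict Ii) := by
    constructor
    rw [Measure.restrict_apply MeasurableSet.univ, univ_inter, volume_Ii]
    exact ENNReal.ofReal_lt_top
  have hac : ν ≪ volume := by
    refine Measure.AbsolutelyContinuous.mk fun N hN h0 => ?_
    rw [hν, Measure.map_apply Real.measurable_cos hN,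
      Measure.restrict_apply (hN.preimage Real.measurable_cos)]
    exact cos_null h0
  have hνfin : IsFiniteMeasure ν := by
    rw [hν]
    infer_instance
  have h1 := Real.tendsto_integral_exp_smul_cocompact (E := ℂ)
    (fun v => ((ν.rnDeriv volume v).toReal : ℂ))
  refine h1.congr fun w => ?_
  have h2 : ∫ v : ℝ, Real.fourierChar (-(v * w)) • (((ν.rnDeriv volume v).toReal : ℝ) : ℂ) =
      ∫ v : ℝ, (ν.rnDeriv volume v).toReal • ((Real.fourierChar (-(v * w)) : Circle) : ℂ) := by
    apply integral_congr_ae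
    filter_upwards with v
    rw [Circle.smul_def, smul_eq_mul, Complex.real_smul, mul_comm]
  rw [h2, integral_rnDeriv_smul hac, hν, integral_map Real.measurable_cos.aemeasurable]
  · apply integral_congr_ae
    filter_upwards with θ
    rw [Real.fourierChar_apply]
    congr 1
    push_cast
    ring
  · apply Continuous.aestronglyMeasurable
    exact continuous_subtype_val.comp (Real.continuous_fourierChar.comp (by fun_prop))

end Pool.Agent.LatLB
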