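import Pool.Agent.Lib_MP_02aa3f_lb.Torus

/-!
# Lower bounds for lattice-catching sets: circles
-/

set_option autoImplicit false
open MeasureTheory Set
open scoped ENNReal Real ComplexConjugate

namespace Pool.Agent.LatLB

/-- the unit `e ^ (iθ)` -/
noncomputable def ex (θ : ℝ) : ℂ := ⟨Real.cos θ, Real.sin θ⟩

lemma norm_sq_ex (θ : ℝ) : (ex θ).re ^ 2 + (ex θ).im ^ 2 = 1 := by
  simp [ex]

@[simp] lemma ex_re (θ : ℝ) : (ex θ).re = Real.cos θ := rfl
@[simp] lemma ex_im (θ : ℝ) : (ex θ).im = Real.sin θ := rfl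

lemma norm_ex (θ : ℝ) : ‖ex θ‖ = 1 := by
  have h : ex θ = Complex.exp (θ * Complex.I) := by
    rw [Complex.exp_mul_I]
    apply Complex.ext
    · simp [Complex.cos_ofReal_re, Complex.sin_ofReal_im]
    · simp [Complex.cos_ofReal_im, Complex.sin_ofReal_re]
  rw [h, Complex.norm_exp_ofReal_mul_I]

lemma continuous_ex : Continuous ex := by
  have h : ex = fun θ => (Real.cos θ : ℂ) + (Real.sin θ : ℂ) * Complex.I := by
    funext θ
    apply Complex.ext
    · simp [Complex.cos_ofReal_re, Complex.sin_ofReal_im]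
    · simp [Complex.cos_ofReal_im, Complex.sin_ofReal_re]
  rw [h]
  fun_prop

@[fun_prop] lemma measurable_ex : Measurable ex := continuous_ex.measurable

/-- the cross product of the vectors `ex θ * a` and `ex θ' * b` -/
noncomputable def cr (p q : ℂ) : ℝ := q.re * p.im - p.re * q.im

lemma cr_sq (p q : ℂ) : cr p q ^ 2 + (p.re * q.re + p.im * q.im) ^ 2 = ‖p‖ ^ 2 * ‖q‖ ^ 2 := by
  rw [Complex.sq_norm, Complex.sq_norm, Complex.normSq_apply, Complex.normSq_apply, cr]
  ring

/-- the difference of two rotated vectors, as a map between planes -/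
noncomputable def df (a b : ℂ) (t : ℝ × ℝ) : ℝ × ℝ :=
  ((ex t.1 * a - ex t.2 * b).re, (ex t.1 * a - ex t.2 * b).im)

noncomputable def df' (a b : ℂ) (t : ℝ × ℝ) : ℝ × ℝ →L[ℝ] ℝ × ℝ :=
  (Matrix.toLin (.finTwoProd ℝ) (.finTwoProd ℝ)
    !![-(ex t.1 * a).im, (ex t.2 * b).im; (ex t.1 * a).re, -(ex t.2 * b).re]).toContinuousLinearMap

lemma hasFDerivAt_df (a b : ℂ) (t : ℝ × ℝ) : HasFDerivAt (df a b) (df' a b t) t := by
  unfold df'
  rw [Matrix.toLin_finTwoProd_toContinuousLinearMap]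
  have hc1 : HasFDerivAt (fun t : ℝ × ℝ => Real.cos t.1) ((-Real.sin t.1) • ContinuousLinearMap.fst ℝ ℝ ℝ) t :=
    (Real.hasDerivAt_cos t.1).comp_hasFDerivAt t hasFDerivAt_fst
  have hs1 : HasFDerivAt (fun t : ℝ × ℝ => Real.sin t.1) ((Real.cos t.1) • ContinuousLinearMap.fst ℝ ℝ ℝ) t :=
    (Real.hasDerivAt_sin t.1).comp_hasFDerivAt t hasFDerivAt_fst
  have hc2 : HasFDerivAt (fun t : ℝ × ℝ => Real.cos t.2) ((-Real.sin t.2) • ContinuousLinearMap.snd ℝ ℝ ℝ) t :=
    (Real.hasDerivAt_cos t.2).comp_hasFDerivAt t hasFDerivAt_snd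
  have hs2 : HasFDerivAt (fun t : ℝ × ℝ => Real.sin t.2) ((Real.cos t.2) • ContinuousLinearMap.snd ℝ ℝ ℝ) t :=
    (Real.hasDerivAt_sin t.2).comp_hasFDerivAt t hasFDerivAt_snd
  have e1 : (fun t : ℝ × ℝ => (ex t.1 * a - ex t.2 * b).re) = fun t : ℝ × ℝ =>
      Real.cos t.1 * a.re - Real.sin t.1 * a.im - (Real.cos t.2 * b.re - Real.sin t.2 * b.im) := by
    funext t; simp
  have e2 : (fun t : ℝ × ℝ => (ex t.1 * a - ex t.2 * b).im) = fun t : ℝ × ℝ =>
      Real.cos t.1 * a.im + Real.sin t.1 * a.re - (Real.cos t.2 * b.im + Real.sin t.2 * b.re) := by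
    funext t; simp
  have h1 : HasFDerivAt (fun t : ℝ × ℝ => (ex t.1 * a - ex t.2 * b).re)
      ((-(ex t.1 * a).im) • ContinuousLinearMap.fst ℝ ℝ ℝ + (ex t.2 * b).im • ContinuousLinearMap.snd ℝ ℝ ℝ) t := by
    rw [e1]
    have := ((hc1.mul_const a.re).sub (hs1.mul_const a.im)).sub
      ((hc2.mul_const b.re).sub (hs2.mul_const b.im))
    refine this.congr_fderiv ?_
    ext <;> simp <;> ring
  have h2 : HasFDerivAt (fun t : ℝ × ℝ => (ex t.1 * a - ex t.2 * b).im)
      ((ex t.1 * a).re • ContinuousLinearMap.fst ℝ ℝ ℝ + (-(ex t.2 * b).re) • ContinuousLinearMap.snd ℝ ℝ ℝ) t := by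
    rw [e2]
    have := ((hc1.mul_const a.im).add (hs1.mul_const a.re)).sub
      ((hc2.mul_const b.im).add (hs2.mul_const b.re))
    refine this.congr_fderiv ?_
    ext <;> simp <;> ring
  exact h1.prodMk h2

lemma det_df' (a b : ℂ) (t : ℝ × ℝ) : (df' a b t).det = cr (ex t.1 * a) (ex t.2 * b) := by
  unfold df' cr
  simp only [LinearMap.det_toContinuousLinearMap, LinearMap.det_toLin, Matrix.det_fin_two_of]
  ring

lemma ex_inj {θ φ : ℝ} (hθ : θ ∈ Ico 0 (2 * π)) (hφ : φ ∈ Ico 0 (2 * π)) (h : ex θ = ex φ) :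
    θ = φ := by
  have h1 : Real.cos θ = Real.cos φ := by
    have := congrArg Complex.re h
    simpa only [ex_re] using this
  have h2 : Real.sin θ = Real.sin φ := by
    have := congrArg Complex.im h
    simpa only [ex_im] using this
  have h3 : Real.cos (θ - φ) = 1 := by
    rw [Real.cos_sub, h1, h2]; nlinarith [Real.sin_sq_add_cos_sq φ]
  obtain ⟨k, hk⟩ := (Real.cos_eq_one_iff _).mp h3
  obtain ⟨a1, a2⟩ := hθ
  obtain ⟨b1, b2⟩ := hφ
  have hk1 : (k : ℝ) < 1 := by nlinarith [Real.pi_pos]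
  have hk2 : (-1 : ℝ) < k := by nlinarith [Real.pi_pos]
  have hk3 : k < 1 := by exact_mod_cast hk1
  have hk4 : -1 < k := by exact_mod_cast hk2
  have hk5 : k = 0 := by omega
  rw [hk5] at hk
  simp at hk
  linarith

/-- two vectors of given lengths with nonzero cross product of given sign are determined by their
difference -/
lemma pq_inj {p q p' q' : ℂ} (hp : ‖p‖ = ‖p'‖) (hq : ‖q‖ = ‖q'‖) (hs : 0 < cr p q * cr p' q')
    (h : p - q = p' - q') : p = p' ∧ q = q' := by
  have h1 := congrArg Complex.re h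
  have h2 := congrArg Complex.im h
  simp only [Complex.sub_re, Complex.sub_im] at h1 h2
  have n1 : p.re * p.re + p.im * p.im = p'.re * p'.re + p'.im * p'.im := by
    have := congrArg (fun x => x ^ 2) hp
    simpa [Complex.sq_norm, Complex.normSq_apply] using this
  have n2 : q.re * q.re + q.im * q.im = q'.re * q'.re + q'.im * q'.im := by
    have := congrArg (fun x => x ^ 2) hq
    simpa [Complex.sq_norm, Complex.normSq_apply] using this
  -- the inner products agree
  have hin : p.re * q.re + p.im * q.im = p'.re * q'.re + p'.im * q'.im := by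
    have e1 : (p.re - q.re) ^ 2 + (p.im - q.im) ^ 2 = (p'.re - q'.re) ^ 2 + (p'.im - q'.im) ^ 2 := by
      rw [h1, h2]
    nlinarith
  have hcs : cr p q ^ 2 = cr p' q' ^ 2 := by
    have a1 := cr_sq p q
    have a2 := cr_sq p' q'
    rw [hin, hp, hq] at a1
    linarith
  have hc : cr p q = cr p' q' := by
    rcases sq_eq_sq_iff_eq_or_eq_neg.mp hcs with h | h
    · exact h
    · exfalso
      rw [h] at hs
      nlinarith [sq_nonneg (cr p' q')]
  have hne : cr p q ≠ 0 := by
    intro h0; rw [h0] at hs; simp at hs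
  -- `q` is determined: `z = p - q`, `cr p q = cr z q`, `⟨p,q⟩ = ⟨z,q⟩ + |q|²`
  obtain ⟨zr, hzr⟩ : ∃ zr, zr = p.re - q.re := ⟨_, rfl⟩
  obtain ⟨zm, hzm⟩ : ∃ zm, zm = p.im - q.im := ⟨_, rfl⟩
  have c1 : q.re * zm - zr * q.im = q'.re * zm - zr * q'.im := by
    have h3 : cr p q = q.re * zm - zr * q.im := by rw [cr, hzr, hzm]; ring
    have h4 : cr p' q' = q'.re * zm - zr * q'.im := by rw [cr, hzr, hzm, h1, h2]; ring
    rw [← h3, ← h4, hc]
  have c2 : q.re * zr + q.im * zm = q'.re * zr + q'.im * zm := by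
    have e1 : q.re * zr + q.im * zm = (p.re * q.re + p.im * q.im) - (q.re * q.re + q.im * q.im) := by
      rw [hzr, hzm]; ring
    have e2 : q'.re * zr + q'.im * zm = (p'.re * q'.re + p'.im * q'.im) - (q'.re * q'.re + q'.im * q'.im) := by
      rw [hzr, hzm, h1, h2]; ring
    rw [e1, e2, hin, n2]
  have hz : zr ^ 2 + zm ^ 2 ≠ 0 := by
    intro h0
    have z1 : zr = 0 := by nlinarith [sq_nonneg zr, sq_nonneg zm]
    have z2 : zm = 0 := by nlinarith [sq_nonneg zr, sq_nonneg zm]
    apply hne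
    have : cr p q = q.re * zm - zr * q.im := by rw [cr, hzr, hzm]; ring
    rw [this, z1, z2]; ring
  have d1 : (q.re - q'.re) * (zr ^ 2 + zm ^ 2) = 0 := by
    have : (q.re - q'.re) * (zr ^ 2 + zm ^ 2) =
        zm * ((q.re * zm - zr * q.im) - (q'.re * zm - zr * q'.im)) +
        zr * ((q.re * zr + q.im * zm) - (q'.re * zr + q'.im * zm)) := by ring
    rw [this, c1, c2]; ring
  have d2 : (q.im - q'.im) * (zr ^ 2 + zm ^ 2) = 0 := by
    have : (q.im - q'.im) * (zr ^ 2 + zm ^ 2) =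
        -zr * ((q.re * zm - zr * q.im) - (q'.re * zm - zr * q'.im)) +
        zm * ((q.re * zr + q.im * zm) - (q'.re * zr + q'.im * zm)) := by ring
    rw [this, c1, c2]; ring
  have f1 : q.re = q'.re := by
    rcases mul_eq_zero.mp d1 with h | h
    · linarith
    · exact absurd h hz
  have f2 : q.im = q'.im := by
    rcases mul_eq_zero.mp d2 with h | h
    · linarith
    · exact absurd h hz
  refine ⟨Complex.ext ?_ ?_, Complex.ext f1 f2⟩
  · linarith
  · linarith

/-- the square of angles -/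
def Sq : Set (ℝ × ℝ) := Ico 0 (2 * π) ×ˢ Ico 0 (2 * π)

lemma measurableSet_Sq : MeasurableSet Sq := measurableSet_Ico.prod measurableSet_Ico

/-- Weak type estimate for the difference of two rotated vectors, away from parallel vectors. -/
lemma circle_le {a b : ℂ} (ha : a ≠ 0) (hb : b ≠ 0) {κ : ℝ} (hκ : 0 < κ) {S : Set ℂ}
    (hS : MeasurableSet S) :
    ENNReal.ofReal κ * volume {t : ℝ × ℝ | t ∈ Sq ∧ κ ≤ |cr (ex t.1 * a) (ex t.2 * b)| ∧
      ex t.1 * a - ex t.2 * b ∈ S} ≤ 2 * volume S := by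
  have hcont1 : Continuous fun t : ℝ × ℝ => ex t.1 * a :=
    (continuous_ex.comp continuous_fst).mul continuous_const
  have hcont2 : Continuous fun t : ℝ × ℝ => ex t.2 * b :=
    (continuous_ex.comp continuous_snd).mul continuous_const
  have hcr : Continuous fun t : ℝ × ℝ => cr (ex t.1 * a) (ex t.2 * b) := by
    unfold cr
    exact ((Complex.continuous_re.comp hcont2).mul (Complex.continuous_im.comp hcont1)).sub
      ((Complex.continuous_re.comp hcont1).mul (Complex.continuous_im.comp hcont2))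
  have hdif : Measurable fun t : ℝ × ℝ => ex t.1 * a - ex t.2 * b := (hcont1.sub hcont2).measurable
  set Sr : Set (ℝ × ℝ) := Complex.measurableEquivRealProd.symm ⁻¹' S with hSr
  have hSrm : MeasurableSet Sr := hS.preimage Complex.measurableEquivRealProd.symm.measurable
  have hSrv : volume Sr = volume S :=
    Complex.volume_preserving_equiv_real_prod.symm.measure_preimage_equiv S
  have main : ∀ σ : ℝ, σ ^ 2 = 1 →
      ENNReal.ofReal κ * volume {t : ℝ × ℝ | t ∈ Sq ∧ κ ≤ σ * cr (ex t.1 * a) (ex t.2 * b) ∧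
        ex t.1 * a - ex t.2 * b ∈ S} ≤ volume S := by
    intro σ hσ
    set Ω : Set (ℝ × ℝ) := {t : ℝ × ℝ | t ∈ Sq ∧ κ ≤ σ * cr (ex t.1 * a) (ex t.2 * b) ∧
        ex t.1 * a - ex t.2 * b ∈ S} with hΩ
    have hΩm : MeasurableSet Ω := by
      have : Ω = Sq ∩ ({t | κ ≤ σ * cr (ex t.1 * a) (ex t.2 * b)} ∩
          (fun t : ℝ × ℝ => ex t.1 * a - ex t.2 * b) ⁻¹' S) := by
        ext t
        simp only [hΩ, mem_ofPred_eq, mem_inter_iff, mem_preimage]
      rw [this]
      refine measurableSet_Sq.inter ((measurableSet_le measurable_const ?_).inter (hS.preimage hdif))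
      exact (continuous_const.mul hcr).measurable
    have hinj : InjOn (df a b) Ω := by
      rintro ⟨t1, t2⟩ ht ⟨s1, s2⟩ hs hts
      obtain ⟨ht1, ht2, -⟩ := ht
      obtain ⟨hs1, hs2, -⟩ := hs
      simp only at ht2 hs2
      have hz : ex t1 * a - ex t2 * b = ex s1 * a - ex s2 * b :=
        Complex.ext (congrArg Prod.fst hts) (congrArg Prod.snd hts)
      have hpos : 0 < cr (ex t1 * a) (ex t2 * b) * cr (ex s1 * a) (ex s2 * b) := by
        have h1 : 0 < σ * cr (ex t1 * a) (ex t2 * b) := lt_of_lt_of_le hκ ht2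
        have h2 : 0 < σ * cr (ex s1 * a) (ex s2 * b) := lt_of_lt_of_le hκ hs2
        have h3 := mul_pos h1 h2
        have h4 : σ * cr (ex t1 * a) (ex t2 * b) * (σ * cr (ex s1 * a) (ex s2 * b)) =
          σ ^ 2 * (cr (ex t1 * a) (ex t2 * b) * cr (ex s1 * a) (ex s2 * b)) := by ring
        rw [h4, hσ, one_mul] at h3
        exact h3
      obtain ⟨h1, h2⟩ := pq_inj (by simp [norm_ex]) (by simp [norm_ex]) hpos hz
      have h3 := ex_inj ht1.1 hs1.1 (mul_right_cancel₀ ha h1)
      have h4 := ex_inj ht1.2 hs1.2 (mul_right_cancel₀ hb h2)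
      exact Prod.ext h3 h4
    have h1 := lintegral_abs_det_fderiv_eq_addHaar_image volume hΩm
      (fun t _ => (hasFDerivAt_df a b t).hasFDerivWithinAt) hinj
    have h2 : ENNReal.ofReal κ * volume Ω ≤ ∫⁻ t in Ω, ENNReal.ofReal |(df' a b t).det| := by
      rw [← setLIntegral_const]
      apply setLIntegral_mono' hΩm
      intro t ht
      apply ENNReal.ofReal_le_ofReal
      rw [det_df']
      have hσ1 : |σ| = 1 := by
        rw [← sq_eq_sq₀ (abs_nonneg _) zero_le_one, sq_abs, hσ]; norm_num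
      calc κ ≤ σ * cr (ex t.1 * a) (ex t.2 * b) := ht.2.1
        _ ≤ |σ * cr (ex t.1 * a) (ex t.2 * b)| := le_abs_self _
        _ = |cr (ex t.1 * a) (ex t.2 * b)| := by rw [abs_mul, hσ1, one_mul]
    refine h2.trans ?_
    rw [h1, ← hSrv]
    apply measure_mono
    rintro _ ⟨t, ht, rfl⟩
    have : Complex.measurableEquivRealProd.symm (df a b t) = ex t.1 * a - ex t.2 * b := by
      apply Complex.measurableEquivRealProd.injective
      rw [MeasurableEquiv.apply_symm_apply]
      rfl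
    rw [hSr, mem_preimage, this]
    exact ht.2.2
  have hsplit : {t : ℝ × ℝ | t ∈ Sq ∧ κ ≤ |cr (ex t.1 * a) (ex t.2 * b)| ∧
      ex t.1 * a - ex t.2 * b ∈ S} ⊆
      {t : ℝ × ℝ | t ∈ Sq ∧ κ ≤ 1 * cr (ex t.1 * a) (ex t.2 * b) ∧ ex t.1 * a - ex t.2 * b ∈ S} ∪
      {t : ℝ × ℝ | t ∈ Sq ∧ κ ≤ (-1) * cr (ex t.1 * a) (ex t.2 * b) ∧ ex t.1 * a - ex t.2 * b ∈ S} := by
    rintro t ⟨h1, h2, h3⟩
    rcases le_abs.mp h2 with h | h
    · left; exact ⟨h1, by linarith, h3⟩
    · right; exact ⟨h1, by linarith, h3⟩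
  calc _ ≤ ENNReal.ofReal κ * (volume _ + volume _) := by
        gcongr
        exact (measure_mono hsplit).trans (measure_union_le _ _)
    _ ≤ volume S + volume S := by
        rw [mul_add]
        exact add_le_add (main 1 (by norm_num)) (main (-1) (by norm_num))
    _ = 2 * volume S := (two_mul _).symm

/-- the set of angles for which a rotated vector is nearly parallel to a given vector is small -/
lemma par_le {w b : ℂ} {s : ℝ} (hs : 0 < s) :
    volume {φ : ℝ | φ ∈ Ico 0 (2 * π) ∧ |cr w (ex φ * b)| < s * (‖w‖ * ‖b‖)} ≤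
      ENNReal.ofReal (5 * π * s) := by
  have hπ := Real.pi_pos
  set c : ℂ := w * conj b with hc
  have hcn : ‖c‖ = ‖w‖ * ‖b‖ := by rw [hc, norm_mul, RCLike.norm_conj]
  have hcr : ∀ φ, cr w (ex φ * b) = ‖c‖ * Real.sin (c.arg - φ) := by
    intro φ
    have h1 : ‖c‖ * Real.cos c.arg = c.re := Complex.norm_mul_cos_arg c
    have h2 : ‖c‖ * Real.sin c.arg = c.im := Complex.norm_mul_sin_arg c
    rw [Real.sin_sub]
    have h3 : ‖c‖ * (Real.sin c.arg * Real.cos φ - Real.cos c.arg * Real.sin φ) =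
      (‖c‖ * Real.sin c.arg) * Real.cos φ - (‖c‖ * Real.cos c.arg) * Real.sin φ := by ring
    rw [h3, h1, h2, hc, cr]
    simp only [Complex.mul_re, Complex.mul_im, ex_re, ex_im, Complex.conj_re, Complex.conj_im]
    ring
  have hsub : {φ : ℝ | φ ∈ Ico 0 (2 * π) ∧ |cr w (ex φ * b)| < s * (‖w‖ * ‖b‖)} ⊆
      ⋃ k ∈ Finset.Icc (-3 : ℤ) 1, Metric.ball (c.arg - k * π) (π / 2 * s) := by
    rintro φ ⟨⟨h1, h2⟩, h3⟩
    rw [hcr, ← hcn, abs_mul, abs_of_nonneg (norm_nonneg c)] at h3
    have hc0 : 0 < ‖c‖ := by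
      by_contra h
      have : ‖c‖ = 0 := le_antisymm (not_lt.mp h) (norm_nonneg _)
      rw [this] at h3; simp at h3
    have h4 : |Real.sin (c.arg - φ)| < s := by
      rw [mul_comm s] at h3
      exact lt_of_mul_lt_mul_left h3 hc0.le
    have ha1 := Complex.neg_pi_lt_arg c
    have ha2 := Complex.arg_le_pi c
    set y := c.arg - φ with hy
    set k := round (y / π) with hk
    have hk1 : |y / π - k| ≤ 1 / 2 := abs_sub_round _
    have hk2 : |y - k * π| ≤ π / 2 := by
      have : y - k * π = (y / π - k) * π := by field_simp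
      rw [this, abs_mul, abs_of_pos hπ]
      nlinarith
    have hsin : |Real.sin y| = |Real.sin (y - k * π)| := by
      rw [Real.sin_sub_int_mul_pi, abs_mul, abs_zpow, abs_neg, abs_one, one_zpow, one_mul]
    have hle : 2 / π * |y - k * π| ≤ |Real.sin (y - k * π)| := Real.mul_abs_le_abs_sin hk2
    have hlt : |y - k * π| < π / 2 * s := by
      have h5 : 2 / π * |y - k * π| < s := lt_of_le_of_lt hle (hsin ▸ h4)
      have h6 : |y - k * π| = π / 2 * (2 / π * |y - k * π|) := by field_simp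
      rw [h6]
      exact mul_lt_mul_of_pos_left h5 (by positivity)
    have hkI : k ∈ Finset.Icc (-3 : ℤ) 1 := by
      rw [abs_le] at hk2
      rw [Finset.mem_Icc]
      constructor
      · by_contra hlt'
        have : k ≤ -4 := by omega
        have h7 : (k : ℝ) ≤ -4 := by exact_mod_cast this
        nlinarith
      · by_contra hlt'
        have : 2 ≤ k := by omega
        have h7 : (2 : ℝ) ≤ k := by exact_mod_cast this
        nlinarith
    rw [mem_iUnion₂]
    refine ⟨k, hkI, ?_⟩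
    rw [Metric.mem_ball, Real.dist_eq]
    have : φ - (c.arg - k * π) = -(y - k * π) := by rw [hy]; ring
    rw [this, abs_neg]
    exact hlt
  refine (measure_mono hsub).trans ((measure_biUnion_finset_le _ _).trans ?_)
  simp only [Real.volume_ball]
  rw [Finset.sum_const]
  have h5 : (Finset.Icc (-3 : ℤ) 1).card = 5 := by decide
  rw [h5, nsmul_eq_mul]
  rw [show ((5 : ℕ) : ℝ≥0∞) = ENNReal.ofReal 5 by simp, ← ENNReal.ofReal_mul (by norm_num)]
  apply ENNReal.ofReal_le_ofReal
  apply le_of_eq; ring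

end Pool.Agent.LatLB
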