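import Pool.Agent.Lib_MP_02aa3f_lb.Tight

/-!
# Sets of bounded perimeter have a definite part in some unit disc
-/

set_option autoImplicit false
open MeasureTheory Set Filter
open scoped ENNReal Real Topology

namespace Pool.Agent.LatLB

/-- Concentration. -/
lemma conc {B : Set ℂ} (hB : MeasurableSet B) {P ρ : ℝ} (hP0 : 0 ≤ P) (hρ : 0 < ρ) (hρ1 : ρ ≤ 1)
    (hPρ : P * ρ ≤ 1 / 8) (hP : ∀ h : ℂ, volume (Ot B h) ≤ ENNReal.ofReal (P * ‖h‖))
    (hB1 : ENNReal.ofReal (1 / 2) ≤ volume B) (hB2 : volume B ≤ ENNReal.ofReal 2) :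
    ∃ x₀ : ℂ, ENNReal.ofReal (ρ ^ 2 / 4) ≤ volume (B ∩ Metric.closedBall x₀ 1) := by
  have hπ := Real.pi_pos
  by_contra hcon
  push Not at hcon
  set D := Metric.closedBall (0 : ℂ) ρ with hD
  have hDm : MeasurableSet D := Metric.isClosed_closedBall.measurableSet
  have hDv : volume D = ENNReal.ofReal (π * ρ ^ 2) := vol_cb _ hρ.le
  -- the double integral
  have hT : MeasurableSet {p : ℂ × ℂ | p.1 ∈ B ∧ p.2 ∈ D ∧ p.1 + p.2 ∉ B} := by
    have : {p : ℂ × ℂ | p.1 ∈ B ∧ p.2 ∈ D ∧ p.1 + p.2 ∉ B} =
        Prod.fst ⁻¹' B ∩ (Prod.snd ⁻¹' D ∩ ((fun p : ℂ × ℂ => p.1 + p.2) ⁻¹' B)ᶜ) := by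
      ext p
      simp only [mem_ofPred_eq, mem_inter_iff, mem_compl_iff, mem_preimage]
    rw [this]
    exact (hB.preimage measurable_fst).inter ((hDm.preimage measurable_snd).inter
      (hB.preimage (by fun_prop)).compl)
  set T := {p : ℂ × ℂ | p.1 ∈ B ∧ p.2 ∈ D ∧ p.1 + p.2 ∉ B} with hTdef
  have hup : (volume.prod volume) T ≤ ENNReal.ofReal (1 / 8) * volume D := by
    rw [Measure.prod_apply_symm hT, ← setLIntegral_const, ← lintegral_indicator hDm]
    apply lintegral_mono
    intro s
    by_cases hs : s ∈ D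
    · rw [Set.indicator_of_mem hs]
      have hsub : (fun x => (x, s)) ⁻¹' T ⊆ Ot B s := by
        rintro x ⟨h1, _, h3⟩
        exact ⟨h1, h3⟩
      refine (measure_mono hsub).trans ((hP s).trans ?_)
      apply ENNReal.ofReal_le_ofReal
      have : ‖s‖ ≤ ρ := by simpa [hD] using hs
      nlinarith
    · have : (fun x => (x, s)) ⁻¹' T = ∅ := by
        ext x
        simp only [mem_preimage, hTdef, mem_ofPred_eq, mem_empty_iff_false, iff_false]
        exact fun h => hs h.2.1
      simp only
      rw [this, measure_empty]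
      exact zero_le
  have hlow : volume B * volume D ≤ (volume.prod volume) T + volume B * ENNReal.ofReal (ρ ^ 2 / 4) := by
    rw [Measure.prod_apply hT]
    have e1 : volume B * volume D = ∫⁻ x, B.indicator (fun _ => volume D) x := by
      rw [lintegral_indicator_const hB, mul_comm]
    have e2 : volume B * ENNReal.ofReal (ρ ^ 2 / 4) =
        ∫⁻ x, B.indicator (fun _ => ENNReal.ofReal (ρ ^ 2 / 4)) x := by
      rw [lintegral_indicator_const hB, mul_comm]
    rw [e1, e2, ← lintegral_add_right _ (measurable_const.indicator hB)]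
    apply lintegral_mono
    intro x
    simp only
    by_cases hx : x ∈ B
    · rw [Set.indicator_of_mem hx, Set.indicator_of_mem hx]
      have hsub : D ⊆ (Prod.mk x ⁻¹' T) ∪ (fun s => x + s) ⁻¹' (B ∩ Metric.closedBall x 1) := by
        intro s hs
        by_cases h : x + s ∈ B
        · right
          refine ⟨h, ?_⟩
          rw [mem_closedBall_iff_norm]
          have h1 : ‖s‖ ≤ ρ := by simpa [hD] using hs
          have h2 : x + s - x = s := by ring
          rw [h2]
          linarith
        · left; exact ⟨hx, hs, h⟩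
      refine (measure_mono hsub).trans ((measure_union_le _ _).trans (add_le_add le_rfl ?_))
      rw [(measurePreserving_add_left volume x).measure_preimage
        (hB.inter Metric.isClosed_closedBall.measurableSet).nullMeasurableSet]
      exact (hcon x).le
    · rw [Set.indicator_of_notMem hx]
      exact zero_le
  -- conclude
  have hfin : volume B ≠ ∞ := ne_top_of_le_ne_top ENNReal.ofReal_ne_top hB2
  set b := (volume B).toReal with hb
  have e3 : volume B = ENNReal.ofReal b := (ENNReal.ofReal_toReal hfin).symm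
  have hb0 : 0 ≤ b := ENNReal.toReal_nonneg
  have h := hlow.trans (add_le_add hup le_rfl)
  rw [e3, hDv, ← ENNReal.ofReal_mul (by positivity), ← ENNReal.ofReal_mul (by positivity),
    ← ENNReal.ofReal_mul (by positivity), ← ENNReal.ofReal_add (by positivity) (by positivity),
    ENNReal.ofReal_le_ofReal_iff (by positivity)] at h
  rw [e3, ENNReal.ofReal_le_ofReal_iff (by positivity)] at hB1
  rw [e3, ENNReal.ofReal_le_ofReal_iff (by positivity)] at hB2
  have hρ2 : 0 < ρ ^ 2 := by positivity
  have hπ3 : 3 < π := Real.pi_gt_three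
  have h2 : ρ ^ 2 * (b * π) ≤ ρ ^ 2 * (1 / 8 * π + b / 4) := by nlinarith
  have h3 : b * π ≤ 1 / 8 * π + b / 4 := le_of_mul_le_mul_left h2 hρ2
  nlinarith

end Pool.Agent.LatLB
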