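import Pool.Agent.Lib_MP_02aa3f_lb.Perim

/-!
# Bounded perimeter and finite unions of convex sets: conclusions in the complex plane
-/

set_option autoImplicit false
open MeasureTheory Set Filter
open scoped ENNReal Real Topology

namespace Pool.Agent.LatLB

/-- Subsets of perimeter at most `P` of a nearly optimal lattice-catching set leave out a definite
area. -/
theorem perim (P : ℝ) (hP0 : 0 ≤ P) : ∃ c : ℝ, 0 < c ∧ ∀ E B : Set ℂ, MeasurableSet E →
    MeasurableSet B → B ⊆ E → Catch E → (∀ h : ℂ, volume (Ot B h) ≤ ENNReal.ofReal (P * ‖h‖)) →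
    ENNReal.ofReal (1 + c) ≤ volume E ∨ ENNReal.ofReal c ≤ volume (E \ B) := by
  set ρ : ℝ := min 1 (1 / (8 * (P + 1))) with hρ
  have hρ0 : 0 < ρ := by rw [hρ]; positivity
  have hρ1 : ρ ≤ 1 := min_le_left _ _
  have hPρ : P * ρ ≤ 1 / 8 := by
    have h1 : ρ ≤ 1 / (8 * (P + 1)) := min_le_right _ _
    calc P * ρ ≤ P * (1 / (8 * (P + 1))) := by gcongr
      _ ≤ (P + 1) * (1 / (8 * (P + 1))) := by gcongr; linarith
      _ = 1 / 8 := by field_simp
  obtain ⟨c₁, hc₁, hno⟩ := no_dat P (ρ ^ 2 / 4) hP0 (by positivity)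
  refine ⟨min c₁ (1 / 4), by positivity, fun E B hE hB hBE hc hP => ?_⟩
  by_contra hcon
  push Not at hcon
  obtain ⟨h1, h2⟩ := hcon
  have hm1 : min c₁ (1 / 4) ≤ c₁ := min_le_left _ _
  have hm2 : min c₁ (1 / 4) ≤ 1 / 4 := min_le_right _ _
  have hEB : volume E ≤ volume B + volume (E \ B) := by
    refine (measure_mono ?_).trans (measure_union_le _ _)
    intro x hx
    by_cases h : x ∈ B
    · exact Or.inl h
    · exact Or.inr ⟨hx, h⟩
  have hB1 : ENNReal.ofReal (1 / 2) ≤ volume B := by
    have h3 : 1 ≤ volume B + ENNReal.ofReal (1 / 4) :=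
      (one_le_vol hE hc).trans (hEB.trans (add_le_add le_rfl (h2.le.trans (ENNReal.ofReal_le_ofReal hm2))))
    have h4 : (1 : ℝ≥0∞) = ENNReal.ofReal (3 / 4) + ENNReal.ofReal (1 / 4) := by
      rw [← ENNReal.ofReal_add (by norm_num) (by norm_num)]
      norm_num
    rw [h4] at h3
    have h5 := (ENNReal.add_le_add_iff_right ENNReal.ofReal_ne_top).mp h3
    exact (ENNReal.ofReal_le_ofReal (by norm_num)).trans h5
  have hB2 : volume B ≤ ENNReal.ofReal 2 :=
    (measure_mono hBE).trans (h1.le.trans (ENNReal.ofReal_le_ofReal (by linarith)))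
  obtain ⟨x₀, hx₀⟩ := conc hB hP0 hρ0 hρ1 hPρ hP hB1 hB2
  have hmp : MeasurePreserving (fun x : ℂ => x + x₀) volume volume := measurePreserving_add_right _ _
  have hcb : MeasurableSet (Metric.closedBall x₀ 1) := Metric.isClosed_closedBall.measurableSet
  refine hno ((fun x => x + x₀) ⁻¹' E) ((fun x => x + x₀) ⁻¹' B) ⟨hE.preimage hmp.measurable,
    hB.preimage hmp.measurable, preimage_mono hBE, ?_, ?_, ?_, ?_, ?_⟩
  · intro u hu v
    obtain ⟨m, hm⟩ := hc u hu (v + x₀)
    refine ⟨m, ?_⟩
    rw [mem_preimage]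
    convert hm using 1
    ring
  · intro h
    have e1 : Ot ((fun x => x + x₀) ⁻¹' B) h = (fun x => x + x₀) ⁻¹' (Ot B h) := by
      ext x
      simp only [Ot, mem_ofPred_eq, mem_preimage]
      have : x + h + x₀ = x + x₀ + h := by ring
      rw [this]
    rw [e1, hmp.measure_preimage (measurableSet_Ot hB h).nullMeasurableSet]
    exact hP h
  · rw [hmp.measure_preimage hE.nullMeasurableSet]
    exact h1.trans_le (ENNReal.ofReal_le_ofReal (by linarith))
  · rw [← preimage_sdiff, hmp.measure_preimage (hE.diff hB).nullMeasurableSet]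
    exact h2.trans_le (ENNReal.ofReal_le_ofReal hm1)
  · have e1 : (fun x => x + x₀) ⁻¹' B ∩ Metric.closedBall 0 1 =
        (fun x => x + x₀) ⁻¹' (B ∩ Metric.closedBall x₀ 1) := by
      ext x
      simp only [mem_inter_iff, mem_preimage, mem_closedBall_iff_norm, add_sub_cancel_right,
        sub_zero]
    rw [e1, hmp.measure_preimage (hB.inter hcb).nullMeasurableSet]
    exact hx₀

/-- convex subsets of the line -/
lemma line_out {S : Set ℝ} (hS : Convex ℝ S) {t : ℝ} (ht : 0 ≤ t) :
    volume {a | a ∈ S ∧ a + t ∉ S} ≤ ENNReal.ofReal t := by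
  refine (Real.volume_le_diam _).trans ?_
  apply Metric.ediam_le
  intro a ha b hb
  rw [edist_dist]
  apply ENNReal.ofReal_le_ofReal
  rw [Real.dist_eq]
  have key : ∀ a b : ℝ, (a ∈ S ∧ a + t ∉ S) → (b ∈ S ∧ b + t ∉ S) → b - a ≤ t := by
    intro a b ha hb
    by_contra hcon
    push Not at hcon
    apply ha.2
    exact hS.ordConnected.out ha.1 hb.1 ⟨by linarith, by linarith⟩
  rw [abs_le]
  exact ⟨by linarith [key a b ha hb], key b a hb ha⟩

/-- small convex sets have bounded perimeter, horizontal translations -/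
lemma conv_out {C : Set ℂ} (hC : Convex ℝ C) (hCm : MeasurableSet C)
    (hd : ∀ p ∈ C, ∀ q ∈ C, ‖q - p‖ ≤ 2) {t : ℝ} (ht : 0 ≤ t) :
    volume (Ot C (t : ℂ)) ≤ ENNReal.ofReal (4 * t) := by
  have hm := measurableSet_Ot hCm (t : ℂ)
  rcases C.eq_empty_or_nonempty with h0 | ⟨p, hp⟩
  · have : Ot C (t : ℂ) = ∅ := by
      ext x
      simp [Ot, h0]
    rw [this, measure_empty]
    exact zero_le
  have h1 := (Complex.volume_preserving_equiv_real_prod.symm).measure_preimage_equiv (Ot C (t : ℂ))
  rw [← h1, Measure.volume_eq_prod, Measure.prod_apply_symm (hm.preimage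
    Complex.measurableEquivRealProd.symm.measurable)]
  have h2 : ∀ y : ℝ, volume ((fun x => (x, y)) ⁻¹' (Complex.measurableEquivRealProd.symm ⁻¹' Ot C (t : ℂ))) ≤
      (Icc (p.im - 2) (p.im + 2)).indicator (fun _ => ENNReal.ofReal t) y := by
    intro y
    by_cases hy : y ∈ Icc (p.im - 2) (p.im + 2)
    · rw [Set.indicator_of_mem hy]
      have hS : Convex ℝ {x : ℝ | (⟨x, y⟩ : ℂ) ∈ C} := by
        intro a ha b hb α β hα hβ hαβ
        have h3 := hC ha hb hα hβ hαβ
        have h4 : α • (⟨a, y⟩ : ℂ) + β • (⟨b, y⟩ : ℂ) = ⟨α • a + β • b, y⟩ := by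
          apply Complex.ext
          · simp
          · simp
            rw [← add_mul, hαβ, one_mul]
        rw [h4] at h3
        exact h3
      refine le_trans (measure_mono ?_) (line_out hS ht)
      intro x hx
      have h5 : (⟨x, y⟩ : ℂ) + (t : ℂ) = ⟨x + t, y⟩ := by apply Complex.ext <;> simp
      refine ⟨hx.1, fun h6 => hx.2 ?_⟩
      have h7 : (⟨x + t, y⟩ : ℂ) ∈ C := h6
      rw [← h5] at h7
      exact h7
    · rw [Set.indicator_of_notMem hy]
      have : (fun x => (x, y)) ⁻¹' (Complex.measurableEquivRealProd.symm ⁻¹' Ot C (t : ℂ)) = ∅ := by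
        ext x
        simp only [mem_preimage, mem_empty_iff_false, iff_false]
        intro hx
        apply hy
        have h3 := hd p hp _ hx.1
        have h4 := (Complex.abs_im_le_norm _).trans h3
        rw [Complex.sub_im, abs_le] at h4
        have h5 : (Complex.measurableEquivRealProd.symm (x, y)).im = y := rfl
        rw [h5] at h4
        exact ⟨by linarith, by linarith⟩
      rw [this, measure_empty]
  refine (lintegral_mono h2).trans ?_
  rw [lintegral_indicator_const measurableSet_Icc, Real.volume_Icc, ← ENNReal.ofReal_mul ht]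
  apply ENNReal.ofReal_le_ofReal
  linarith

/-- small convex sets have bounded perimeter -/
lemma conv_out' {C : Set ℂ} (hC : Convex ℝ C) (hCm : MeasurableSet C)
    (hd : ∀ p ∈ C, ∀ q ∈ C, ‖q - p‖ ≤ 2) (h : ℂ) :
    volume (Ot C h) ≤ ENNReal.ofReal (4 * ‖h‖) := by
  by_cases h0 : h = 0
  · rw [h0]
    have : Ot C 0 = ∅ := by
      ext x
      simp only [Ot, mem_ofPred_eq, add_zero, mem_empty_iff_false, iff_false]
      tauto
    rw [this, measure_empty]
    exact zero_le
  have hn : 0 < ‖h‖ := norm_pos_iff.mpr h0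
  set u : ℂ := h / ‖h‖ with hu
  have hu1 : ‖u‖ = 1 := by
    rw [hu, norm_div, Complex.norm_real, norm_norm, div_self hn.ne']
  have huh : u * (‖h‖ : ℂ) = h := by
    rw [hu]
    exact div_mul_cancel₀ _ (by exact_mod_cast hn.ne')
  have e1 : (fun x => u * x) ⁻¹' (Ot C h) = Ot ((fun x => u * x) ⁻¹' C) (‖h‖ : ℂ) := by
    ext x
    simp only [Ot, mem_preimage, mem_ofPred_eq]
    rw [mul_add, huh]
  rw [← (mp_mul hu1).measure_preimage (measurableSet_Ot hCm h).nullMeasurableSet, e1]
  apply conv_out _ (hCm.preimage (mp_mul hu1).measurable) _ hn.le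
  · exact hC.linear_preimage (LinearMap.mulLeft ℝ u)
  · intro p hp q hq
    have h3 := hd _ hp _ hq
    rw [← mul_sub, norm_mul, hu1, one_mul] at h3
    exact h3

/-- large convex pieces have small area -/
lemma conv_big {E C : Set ℂ} (hC : Convex ℝ C) (hCE : C ⊆ E) {p q : ℂ} (hp : p ∈ C) (hq : q ∈ C)
    (hpq : 2 ≤ ‖q - p‖) : ∃ u : ℂ, ‖u‖ = 1 ∧ volume C ≤ 4 * volume (Dd E u) := by
  have hn : 0 < ‖q - p‖ := by linarith
  set t : ℝ := 1 / ‖q - p‖ with ht
  have ht0 : 0 < t := by rw [ht]; positivity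
  have ht2 : t ≤ 1 / 2 := by
    rw [ht]
    exact one_div_le_one_div_of_le (by norm_num) hpq
  refine ⟨(t : ℂ) * (q - p), ?_, ?_⟩
  · rw [norm_mul, Complex.norm_real, Real.norm_eq_abs, abs_of_pos ht0, ht]
    field_simp
  have hsub : AffineMap.homothety p (1 - t) '' C ⊆ Dd E ((t : ℂ) * (q - p)) := by
    rintro _ ⟨x, hx, rfl⟩
    have e1 : AffineMap.homothety p (1 - t) x = (1 - t) • x + t • p := by
      rw [AffineMap.homothety_apply]
      simp only [vsub_eq_sub, vadd_eq_add, smul_sub, sub_smul, one_smul]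
      ring
    have h1 : (1 - t) • x + t • p ∈ C := hC hx hp (by linarith) ht0.le (by ring)
    have h2 : (1 - t) • x + t • q ∈ C := hC hx hq (by linarith) ht0.le (by ring)
    rw [e1]
    refine ⟨hCE h1, (1, 0), by simp, ?_⟩
    have e2 : zi (1, 0) = 1 := by apply Complex.ext <;> simp
    have e3 : (1 - t) • x + t • p + (t : ℂ) * (q - p) * zi (1, 0) = (1 - t) • x + t • q := by
      rw [e2]
      simp only [Complex.real_smul]
      ring
    rw [e3]
    exact hCE h2
  have h3 := measure_mono (μ := (volume : Measure ℂ)) hsub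
  rw [Measure.addHaar_image_homothety] at h3
  have h4 : volume C = 4 * (ENNReal.ofReal (1 / 4) * volume C) := by
    rw [← mul_assoc]
    have : (4 : ℝ≥0∞) * ENNReal.ofReal (1 / 4) = 1 := by
      have h5 : (4 : ℝ≥0∞) = ENNReal.ofReal 4 := by simp
      rw [h5, ← ENNReal.ofReal_mul (by norm_num)]
      norm_num
    rw [this, one_mul]
  rw [h4]
  gcongr
  refine le_trans ?_ h3
  gcongr
  rw [Complex.finrank_real_complex, abs_of_nonneg (by positivity)]
  nlinarith

/-- Finite unions of convex sets. -/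
theorem union_convex (k : ℕ) : ∃ c : ℝ, 0 < c ∧ ∀ (E : Set ℂ) (C : Fin k → Set ℂ),
    (∀ i, Convex ℝ (C i)) → (∀ i, MeasurableSet (C i)) → E = ⋃ i, C i → Catch E →
    ENNReal.ofReal (1 + c) ≤ volume E := by
  classical
  obtain ⟨c₁, hc₁, hper⟩ := perim (4 * k) (by positivity)
  refine ⟨min c₁ (c₁ / (8 * k + 1)), by positivity, fun E C hconv hmeas hEC hcat => ?_⟩
  set c := min c₁ (c₁ / (8 * k + 1)) with hc
  have hc0 : 0 < c := by rw [hc]; positivity
  by_contra hcon
  push Not at hcon
  have hE : MeasurableSet E := by rw [hEC]; exact MeasurableSet.iUnion hmeas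
  set small : Finset (Fin k) := Finset.univ.filter fun i => ∀ p ∈ C i, ∀ q ∈ C i, ‖q - p‖ ≤ 2
    with hsmall
  set B : Set ℂ := ⋃ i ∈ small, C i with hB
  have hBm : MeasurableSet B := Finset.measurableSet_biUnion _ fun i _ => hmeas i
  have hBE : B ⊆ E := by
    rw [hEC]
    exact iUnion₂_subset fun i _ => subset_iUnion C i
  have hBP : ∀ h : ℂ, volume (Ot B h) ≤ ENNReal.ofReal (4 * k * ‖h‖) := by
    intro h
    have hsub : Ot B h ⊆ ⋃ i ∈ small, Ot (C i) h := by
      rintro x ⟨h1, h2⟩
      obtain ⟨i, hi, hx⟩ := mem_iUnion₂.mp h1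
      rw [mem_iUnion₂]
      refine ⟨i, hi, hx, fun h3 => h2 ?_⟩
      exact mem_iUnion₂.mpr ⟨i, hi, h3⟩
    refine (measure_mono hsub).trans ((measure_biUnion_finset_le _ _).trans ?_)
    calc ∑ i ∈ small, volume (Ot (C i) h) ≤ ∑ i ∈ small, ENNReal.ofReal (4 * ‖h‖) := by
          apply Finset.sum_le_sum
          intro i hi
          exact conv_out' (hconv i) (hmeas i) (Finset.mem_filter.mp hi).2 h
      _ = small.card * ENNReal.ofReal (4 * ‖h‖) := by rw [Finset.sum_const, nsmul_eq_mul]
      _ ≤ k * ENNReal.ofReal (4 * ‖h‖) := by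
          gcongr
          calc small.card ≤ Finset.card (Finset.univ : Finset (Fin k)) := Finset.card_filter_le _ _
            _ = k := by simp
      _ = ENNReal.ofReal (4 * k * ‖h‖) := by
          rw [← ENNReal.ofReal_natCast, ← ENNReal.ofReal_mul (by positivity)]
          congr 1; ring
  have hDd : ∀ u : ℂ, ‖u‖ = 1 → volume (Dd E u) ≤ ENNReal.ofReal (2 * c) :=
    fun u hu => Dd_le hE hcat hc0.le hcon.le hu
  have hrest : volume (E \ B) ≤ ENNReal.ofReal (8 * k * c) := by
    have hsub : E \ B ⊆ ⋃ i ∈ (Finset.univ.filter fun i => i ∉ small), C i := by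
      rintro x ⟨h1, h2⟩
      rw [hEC] at h1
      obtain ⟨i, hx⟩ := mem_iUnion.mp h1
      rw [mem_iUnion₂]
      refine ⟨i, ?_, hx⟩
      rw [Finset.mem_filter]
      refine ⟨Finset.mem_univ _, fun hi => h2 (mem_iUnion₂.mpr ⟨i, hi, hx⟩)⟩
    refine (measure_mono hsub).trans ((measure_biUnion_finset_le _ _).trans ?_)
    calc ∑ i ∈ (Finset.univ.filter fun i => i ∉ small), volume (C i)
        ≤ ∑ i ∈ (Finset.univ.filter fun i => i ∉ small), ENNReal.ofReal (8 * c) := by
          apply Finset.sum_le_sum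
          intro i hi
          have h1 := (Finset.mem_filter.mp hi).2
          rw [hsmall, Finset.mem_filter] at h1
          push Not at h1
          obtain ⟨p, hp, q, hq, hpq⟩ := h1 (Finset.mem_univ _)
          obtain ⟨u, hu, h2⟩ := conv_big (E := E) (hconv i)
            (by rw [hEC]; exact subset_iUnion C i) hp hq hpq.le
          refine h2.trans ?_
          have h4 : (4 : ℝ≥0∞) = ENNReal.ofReal 4 := by simp
          calc 4 * volume (Dd E u) ≤ 4 * ENNReal.ofReal (2 * c) := by gcongr; exact hDd u hu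
            _ = ENNReal.ofReal (8 * c) := by
                rw [h4, ← ENNReal.ofReal_mul (by norm_num)]; congr 1; ring
      _ = (Finset.univ.filter fun i => i ∉ small).card * ENNReal.ofReal (8 * c) := by
          rw [Finset.sum_const, nsmul_eq_mul]
      _ ≤ k * ENNReal.ofReal (8 * c) := by
          gcongr
          calc (Finset.univ.filter fun i => i ∉ small).card
              ≤ Finset.card (Finset.univ : Finset (Fin k)) := Finset.card_filter_le _ _
            _ = k := by simp
      _ = ENNReal.ofReal (8 * k * c) := by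
          rw [← ENNReal.ofReal_natCast, ← ENNReal.ofReal_mul (by positivity)]
          congr 1; ring
  rcases hper E B hE hBm hBE hcat hBP with h | h
  · have h1 := h.trans_lt hcon
    rw [ENNReal.ofReal_lt_ofReal_iff (by positivity)] at h1
    have h2 : c ≤ c₁ := min_le_left _ _
    linarith
  · have h1 := h.trans hrest
    rw [ENNReal.ofReal_le_ofReal_iff (by positivity)] at h1
    have h2 : c ≤ c₁ / (8 * k + 1) := min_le_right _ _
    rw [le_div_iff₀ (by positivity)] at h2
    nlinarith

end Pool.Agent.LatLB
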