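import Pool.Agent.Lib_MP_02aa3f_lb.Disc
import Pool.Agent.Lib_MP_02aa3f_lb.Union

/-!
# Lattice-catching sets which contain a convex set of given area
-/

set_option autoImplicit false
open MeasureTheory Set Filter
open scoped ENNReal Real Topology

namespace Pool.Agent.LatLB

/-- the cross product -/
def crs (a b : ℂ) : ℝ := a.re * b.im - a.im * b.re

lemma abs_crs_le (a b : ℂ) : |crs a b| ≤ ‖a‖ * ‖b‖ := by
  have h1 : crs a b ^ 2 + (a.re * b.re + a.im * b.im) ^ 2 = (‖a‖ * ‖b‖) ^ 2 := by
    rw [mul_pow, Complex.sq_norm, Complex.sq_norm, Complex.normSq_apply, Complex.normSq_apply, crs]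
    ring
  apply abs_le_of_sq_le_sq _ (by positivity)
  nlinarith [sq_nonneg (a.re * b.re + a.im * b.im)]

/-- a triangle contains a disc -/
lemma triangle {C : Set ℂ} (hC : Convex ℝ C) {p q z : ℂ} (hp : p ∈ C) (hq : q ∈ C) (hz : z ∈ C)
    {ρ : ℝ} (h1 : ‖q - z‖ ≤ 2) (h2 : ‖z - p‖ ≤ 2) (h3 : ‖p - q‖ ≤ 2)
    (hD : 6 * ρ ≤ |crs (q - p) (z - p)|) (hρ : 0 < ρ) :
    Metric.closedBall ((1 / 3 : ℝ) • (p + q + z)) ρ ⊆ C := by
  intro x hx
  rw [mem_closedBall_iff_norm] at hx
  set D := crs (q - p) (z - p) with hDdef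
  have hD0 : D ≠ 0 := by
    intro h
    rw [h, abs_zero] at hD
    linarith
  set v := x - (1 / 3 : ℝ) • (p + q + z) with hv
  have key : ∀ a b : ℂ, ‖a - b‖ ≤ 2 → 0 ≤ 1 / 3 + crs v (a - b) / D := by
    intro a b hab
    have h4 : |crs v (a - b) / D| ≤ 1 / 3 := by
      rw [abs_div, div_le_iff₀ (abs_pos.mpr hD0)]
      calc |crs v (a - b)| ≤ ‖v‖ * ‖a - b‖ := abs_crs_le _ _
        _ ≤ ρ * 2 := by gcongr
        _ ≤ 1 / 3 * |D| := by linarith
    rw [abs_le] at h4
    linarith
  have e1 : x = (1 / 3 + crs v (q - z) / D) • p + (1 / 3 + crs v (z - p) / D) • q +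
      (1 / 3 + crs v (p - q) / D) • z := by
    have hx' : x = v + (1 / 3 : ℝ) • (p + q + z) := by rw [hv]; ring
    have e2 : (crs v (q - z) / D) • p + (crs v (z - p) / D) • q + (crs v (p - q) / D) • z = v := by
      have e3 : (crs v (q - z)) • p + (crs v (z - p)) • q + (crs v (p - q)) • z = D • v := by
        apply Complex.ext
        · simp only [Complex.add_re, Complex.smul_re, smul_eq_mul, hDdef, crs, Complex.sub_re,
            Complex.sub_im]
          ring
        · simp only [Complex.add_im, Complex.smul_im, smul_eq_mul, hDdef, crs, Complex.sub_re,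
            Complex.sub_im]
          ring
      have e4 : (crs v (q - z) / D) • p + (crs v (z - p) / D) • q + (crs v (p - q) / D) • z =
          D⁻¹ • ((crs v (q - z)) • p + (crs v (z - p)) • q + (crs v (p - q)) • z) := by
        simp only [smul_add, smul_smul, div_eq_inv_mul]
      rw [e4, e3, smul_smul, inv_mul_cancel₀ hD0, one_smul]
    calc x = v + (1 / 3 : ℝ) • (p + q + z) := hx'
      _ = (crs v (q - z) / D) • p + (crs v (z - p) / D) • q + (crs v (p - q) / D) • z +
          (1 / 3 : ℝ) • (p + q + z) := by rw [e2]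
      _ = _ := by
          simp only [add_smul, smul_add]
          ring
  rw [e1]
  have hsum : (1 / 3 + crs v (q - z) / D) + (1 / 3 + crs v (z - p) / D) +
      (1 / 3 + crs v (p - q) / D) = 1 := by
    have : crs v (q - z) / D + crs v (z - p) / D + crs v (p - q) / D = 0 := by
      rw [← add_div, ← add_div, div_eq_zero_iff]
      left
      simp only [crs, Complex.sub_re, Complex.sub_im]
      ring
    linarith
  have hconv := hC.sum_mem (t := Finset.univ) (w := ![1 / 3 + crs v (q - z) / D,
    1 / 3 + crs v (z - p) / D, 1 / 3 + crs v (p - q) / D]) (z := ![p, q, z]) (by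
      intro i _
      fin_cases i
      · exact key _ _ h1
      · exact key _ _ h2
      · exact key _ _ h3) (by
      simp only [Fin.sum_univ_three, Matrix.cons_val_zero, Matrix.cons_val_one, Matrix.cons_val]
      exact hsum) (by
      intro i _
      fin_cases i
      · exact hp
      · exact hq
      · exact hz)
  simpa only [Fin.sum_univ_three, Matrix.cons_val_zero, Matrix.cons_val_one, Matrix.cons_val]
    using hconv

/-- the area of a rectangle -/
lemma volume_rect {h : ℝ} (hh : 0 ≤ h) :
    volume {x : ℂ | |x.re| ≤ 2 ∧ |x.im| ≤ h} = ENNReal.ofReal (8 * h) := by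
  have h1 : {x : ℂ | |x.re| ≤ 2 ∧ |x.im| ≤ h} =
      Complex.measurableEquivRealProd ⁻¹' (Icc (-2) 2 ×ˢ Icc (-h) h) := by
    ext x
    simp only [mem_ofPred_eq, abs_le, mem_preimage, mem_prod, mem_Icc,
      Complex.measurableEquivRealProd_apply]
  rw [h1, Complex.volume_preserving_equiv_real_prod.measure_preimage_equiv,
    Measure.volume_eq_prod, Measure.prod_prod, Real.volume_Icc, Real.volume_Icc,
    ← ENNReal.ofReal_mul (by norm_num)]
  congr 1
  ring

/-- a convex set of diameter at most two and of area at least `η` contains a disc -/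
lemma inner_disc {η : ℝ} (hη : 0 < η) : ∃ ρ : ℝ, 0 < ρ ∧ ∀ C : Set ℂ, Convex ℝ C →
    (∀ p ∈ C, ∀ q ∈ C, ‖q - p‖ ≤ 2) → ENNReal.ofReal η ≤ volume C →
      ∃ x : ℂ, Metric.closedBall x ρ ⊆ C := by
  have hπ := Real.pi_pos
  set l : ℝ := √(η / (2 * π)) with hl
  have hl0 : 0 < l := by rw [hl]; positivity
  have hl2 : l ^ 2 = η / (2 * π) := Real.sq_sqrt (by positivity)
  refine ⟨l * (η / 16) / 6, by positivity, fun C hC hd hv => ?_⟩
  have hne : C.Nonempty := by
    rw [nonempty_iff_ne_empty]
    rintro rfl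
    rw [measure_empty, nonpos_iff_eq_zero, ENNReal.ofReal_eq_zero] at hv
    linarith
  obtain ⟨p, hp⟩ := hne
  obtain ⟨q, hq, hpq⟩ : ∃ q ∈ C, l < ‖q - p‖ := by
    by_contra hcon
    push Not at hcon
    have h1 : C ⊆ Metric.closedBall p l := fun x hx => by
      rw [mem_closedBall_iff_norm]; exact hcon x hx
    have h2 := hv.trans (measure_mono h1)
    rw [vol_cb p hl0.le, ENNReal.ofReal_le_ofReal_iff (by positivity)] at h2
    have h3 : π * l ^ 2 = η / 2 := by rw [hl2]; field_simp
    nlinarith
  have hpq0 : 0 < ‖q - p‖ := hl0.trans hpq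
  obtain ⟨z, hz, hpz⟩ : ∃ z ∈ C, ‖q - p‖ * (η / 16) ≤ |crs (q - p) (z - p)| := by
    by_contra hcon
    push Not at hcon
    set u : ℂ := (starRingEnd ℂ) (q - p) / ‖q - p‖ with hu
    have hu1 : ‖u‖ = 1 := by
      rw [hu, norm_div, RCLike.norm_conj, Complex.norm_real, norm_norm, div_self hpq0.ne']
    have h1 : C ⊆ (fun x => x - p) ⁻¹' ((fun x => u * x) ⁻¹' {x : ℂ | |x.re| ≤ 2 ∧ |x.im| ≤ η / 16}) := by
      intro x hx
      simp only [mem_preimage, mem_ofPred_eq]
      constructor
      · refine (Complex.abs_re_le_norm _).trans ?_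
        rw [norm_mul, hu1, one_mul]
        exact hd p hp x hx
      · have h2 := hcon x hx
        have h3 : (u * (x - p)).im = crs (q - p) (x - p) / ‖q - p‖ := by
          have e1 : u * (x - p) = ((‖q - p‖⁻¹ : ℝ) : ℂ) * ((starRingEnd ℂ) (q - p) * (x - p)) := by
            rw [hu]; push_cast; ring
          rw [e1, Complex.im_ofReal_mul, crs, div_eq_inv_mul]
          congr 1
          simp only [map_sub, Complex.mul_im, Complex.sub_re, Complex.sub_im, Complex.conj_re,
            Complex.conj_im]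
          ring
        rw [h3, abs_div, abs_norm, div_le_iff₀ hpq0]
        linarith
    have h2 := hv.trans (measure_mono h1)
    have hm : MeasurableSet {x : ℂ | |x.re| ≤ 2 ∧ |x.im| ≤ η / 16} := by
      have h5 : Measurable fun x : ℂ => |x.re| := Complex.measurable_re.abs
      have h6 : Measurable fun x : ℂ => |x.im| := Complex.measurable_im.abs
      exact (measurableSet_le h5 measurable_const).inter (measurableSet_le h6 measurable_const)
    rw [(measurePreserving_sub_right volume p).measure_preimage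
      (hm.preimage (mp_mul hu1).measurable).nullMeasurableSet,
      (mp_mul hu1).measure_preimage hm.nullMeasurableSet, volume_rect (by positivity),
      ENNReal.ofReal_le_ofReal_iff (by positivity)] at h2
    linarith
  refine ⟨(1 / 3 : ℝ) • (p + q + z), triangle hC hp hq hz (hd _ hz _ hq) (hd _ hp _ hz)
    (hd _ hq _ hp) ?_ (by positivity)⟩
  calc 6 * (l * (η / 16) / 6) = l * (η / 16) := by ring
    _ ≤ ‖q - p‖ * (η / 16) := by gcongr
    _ ≤ _ := hpz

/-- large convex pieces have small area, approximate form -/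
lemma conv_big' {E C : Set ℂ} (hC : Convex ℝ C) {p q : ℂ} (hp : p ∈ C) (hq : q ∈ C)
    (hpq : 2 ≤ ‖q - p‖) : ∃ u : ℂ, ‖u‖ = 1 ∧
      volume C ≤ 4 * (volume (Dd E u) + (volume (C \ E) + volume (C \ E))) := by
  have hn : 0 < ‖q - p‖ := by linarith
  set t : ℝ := 1 / ‖q - p‖ with ht
  have ht0 : 0 < t := by rw [ht]; positivity
  have ht2 : t ≤ 1 / 2 := by
    rw [ht]
    exact one_div_le_one_div_of_le (by norm_num) hpq
  refine ⟨(t : ℂ) * (q - p), ?_, ?_⟩
  · rw [norm_mul, Complex.norm_real, Real.norm_eq_abs, abs_of_pos ht0, ht]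
    field_simp
  have hsub : AffineMap.homothety p (1 - t) '' C ⊆ Dd E ((t : ℂ) * (q - p)) ∪
      ((C \ E) ∪ (fun x => x + (t : ℂ) * (q - p)) ⁻¹' (C \ E)) := by
    rintro _ ⟨x, hx, rfl⟩
    have e1 : AffineMap.homothety p (1 - t) x = (1 - t) • x + t • p := by
      rw [AffineMap.homothety_apply]
      simp only [vsub_eq_sub, vadd_eq_add, smul_sub, sub_smul, one_smul]
      ring
    have h1 : (1 - t) • x + t • p ∈ C := hC hx hp (by linarith) ht0.le (by ring)
    have h2 : (1 - t) • x + t • q ∈ C := hC hx hq (by linarith) ht0.le (by ring)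
    have e2 : zi (1, 0) = 1 := by apply Complex.ext <;> simp
    have e3 : (1 - t) • x + t • p + (t : ℂ) * (q - p) = (1 - t) • x + t • q := by
      simp only [Complex.real_smul]
      ring
    rw [e1]
    by_cases h3 : (1 - t) • x + t • p ∈ E
    · by_cases h4 : (1 - t) • x + t • q ∈ E
      · left
        refine ⟨h3, (1, 0), by simp, ?_⟩
        rw [e2, mul_one, e3]
        exact h4
      · right; right
        rw [mem_preimage, e3]
        exact ⟨h2, h4⟩
    · right; left
      exact ⟨h1, h3⟩
  have h3 := (measure_mono (μ := (volume : Measure ℂ)) hsub).trans ((measure_union_le _ _).trans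
    (add_le_add le_rfl (measure_union_le _ _)))
  rw [Measure.addHaar_image_homothety, measure_preimage_add_right] at h3
  have h4 : volume C = 4 * (ENNReal.ofReal (1 / 4) * volume C) := by
    rw [← mul_assoc]
    have : (4 : ℝ≥0∞) * ENNReal.ofReal (1 / 4) = 1 := by
      have h5 : (4 : ℝ≥0∞) = ENNReal.ofReal 4 := by simp
      rw [h5, ← ENNReal.ofReal_mul (by norm_num)]
      norm_num
    rw [this, one_mul]
  rw [h4]
  gcongr
  refine le_trans ?_ h3
  gcongr
  rw [Complex.finrank_real_complex, abs_of_nonneg (by positivity)]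
  nlinarith

/-- the disc may have any centre -/
lemma disc' {r : ℝ} (hr : 0 < r) : ∃ c : ℝ, 0 < c ∧ ∀ E : Set ℂ, MeasurableSet E → Catch E →
    ∀ x : ℂ, volume (Metric.closedBall x r \ E) ≤ ENNReal.ofReal c →
      ENNReal.ofReal (1 + c) ≤ volume E := by
  obtain ⟨c, hc0, h⟩ := disc hr
  refine ⟨c, hc0, fun E hE hc x hx => ?_⟩
  have hmp : MeasurePreserving (fun y : ℂ => y + x) volume volume := measurePreserving_add_right _ _
  have hcb : MeasurableSet (Metric.closedBall x r) := Metric.isClosed_closedBall.measurableSet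
  have h1 := h ((fun y => y + x) ⁻¹' E) (hE.preimage hmp.measurable) ?_ ?_
  · rwa [hmp.measure_preimage hE.nullMeasurableSet] at h1
  · intro u hu v
    obtain ⟨m, hm⟩ := hc u hu (v + x)
    refine ⟨m, ?_⟩
    rw [mem_preimage]
    convert hm using 1
    ring
  · have e1 : Metric.closedBall 0 r \ (fun y => y + x) ⁻¹' E =
        (fun y => y + x) ⁻¹' (Metric.closedBall x r \ E) := by
      ext y
      simp only [Set.mem_sdiff, mem_preimage, mem_closedBall_iff_norm, add_sub_cancel_right,
        sub_zero]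
    rw [e1, hmp.measure_preimage (hcb.diff hE).nullMeasurableSet]
    exact hx

/-- A nearly optimal lattice-catching set does not contain (most of) a convex set of given area. -/
theorem convex_part {η : ℝ} (hη : 0 < η) : ∃ c : ℝ, 0 < c ∧ ∀ E C : Set ℂ, MeasurableSet E →
    Catch E → Convex ℝ C → ENNReal.ofReal η ≤ volume C → volume (C \ E) ≤ ENNReal.ofReal c →
      ENNReal.ofReal (1 + c) ≤ volume E := by
  obtain ⟨ρ, hρ0, hρ⟩ := inner_disc hη
  obtain ⟨c₁, hc₁, h₁⟩ := disc' hρ0
  refine ⟨min c₁ (η / 32), by positivity, fun E C hE hc hC hv hCE => ?_⟩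
  set c := min c₁ (η / 32) with hcdef
  have hc0 : 0 < c := by rw [hcdef]; positivity
  have hcc : c ≤ c₁ := min_le_left _ _
  have hcη : c ≤ η / 32 := min_le_right _ _
  by_contra hcon
  push Not at hcon
  by_cases hd : ∀ p ∈ C, ∀ q ∈ C, ‖q - p‖ ≤ 2
  · obtain ⟨x, hx⟩ := hρ C hC hd hv
    have h2 := h₁ E hE hc x ((measure_mono (sdiff_subset_sdiff_left hx)).trans
      (hCE.trans (ENNReal.ofReal_le_ofReal hcc)))
    have h3 := h2.trans_lt hcon
    rw [ENNReal.ofReal_lt_ofReal_iff (by positivity)] at h3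
    linarith
  · push Not at hd
    obtain ⟨p, hp, q, hq, hpq⟩ := hd
    obtain ⟨u, hu, h2⟩ := conv_big' (E := E) hC hp hq hpq.le
    have h3 := Dd_le hE hc hc0.le hcon.le hu
    have h4 : volume C ≤ ENNReal.ofReal (16 * c) := by
      refine h2.trans ?_
      have h4 : (4 : ℝ≥0∞) = ENNReal.ofReal 4 := by simp
      calc 4 * (volume (Dd E u) + (volume (C \ E) + volume (C \ E)))
          ≤ 4 * (ENNReal.ofReal (2 * c) + (ENNReal.ofReal c + ENNReal.ofReal c)) := by gcongr
        _ = ENNReal.ofReal (16 * c) := by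
            rw [h4, ← ENNReal.ofReal_add hc0.le hc0.le, ← ENNReal.ofReal_add (by positivity)
              (by positivity), ← ENNReal.ofReal_mul (by norm_num)]
            congr 1; ring
    have h5 := hv.trans h4
    rw [ENNReal.ofReal_le_ofReal_iff (by positivity)] at h5
    linarith

end Pool.Agent.LatLB
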