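import Pool.Agent.Lib_MP_02aa3f_lb.Torus

/-!
# Lower bounds for lattice-catching sets: counting lattice points
-/

set_option autoImplicit false
open Set

namespace Pool.Agent.LatLB

/-- the nonzero lattice points with coordinates of absolute value at most `K` -/
noncomputable def M0 (K : ℕ) : Finset (ℤ × ℤ) := (Finset.Icc 1 K).biUnion (fun k => (Finset.box k : Finset (ℤ × ℤ)))

lemma mem_M0 {K : ℕ} {m : ℤ × ℤ} :
    m ∈ M0 K ↔ 1 ≤ max m.1.natAbs m.2.natAbs ∧ max m.1.natAbs m.2.natAbs ≤ K := by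
  simp only [M0, Finset.mem_biUnion, Finset.mem_Icc, Int.mem_box]
  constructor
  · rintro ⟨k, hk, rfl⟩; exact hk
  · intro h; exact ⟨_, h, rfl⟩

lemma natAbs_le_norm (m : ℤ × ℤ) : ((max m.1.natAbs m.2.natAbs : ℕ) : ℝ) ≤ ‖zi m‖ := by
  have h1 := Complex.abs_re_le_norm (zi m)
  have h2 := Complex.abs_im_le_norm (zi m)
  rw [zi_re] at h1
  rw [zi_im] at h2
  rw [Nat.cast_max]
  apply max_le
  · rw [Nat.cast_natAbs, Int.cast_abs]; exact h1
  · rw [Nat.cast_natAbs, Int.cast_abs]; exact h2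

lemma mem_M0_of_norm {K : ℕ} {m : ℤ × ℤ} (h0 : m ≠ 0) (h : ‖zi m‖ ≤ K) : m ∈ M0 K := by
  rw [mem_M0]
  constructor
  · by_contra hlt
    have h1 : m.1.natAbs = 0 := by omega
    have h2 : m.2.natAbs = 0 := by omega
    apply h0
    exact Prod.ext (Int.natAbs_eq_zero.mp h1) (Int.natAbs_eq_zero.mp h2)
  · have := (natAbs_le_norm m).trans h
    exact_mod_cast this

lemma neg_mem_M0 {K : ℕ} {m : ℤ × ℤ} (h : m ∈ M0 K) : -m ∈ M0 K := by
  rw [mem_M0] at h ⊢
  simpa using h

lemma ne_zero_of_mem_M0 {K : ℕ} {m : ℤ × ℤ} (h : m ∈ M0 K) : m ≠ 0 := by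
  rintro rfl
  rw [mem_M0] at h
  simp at h

lemma pwd (K : ℕ) : (↑(Finset.Icc 1 K) : Set ℕ).PairwiseDisjoint
    (fun k => (Finset.box k : Finset (ℤ × ℤ))) := by
  intro k _ l _ hkl
  rw [Function.onFun, Finset.disjoint_left]
  intro m h1 h2
  rw [Int.mem_box] at h1 h2
  exact hkl (h1.symm.trans h2)

lemma card_M0 (K : ℕ) : (M0 K).card = 4 * K * (K + 1) := by
  rw [M0, Finset.card_biUnion (pwd K)]
  induction K with
  | zero => simp
  | succ K ih =>
    rw [Finset.sum_Icc_succ_top (by omega), ih, Int.card_box (by omega)]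
    ring

lemma sum_inv_M0 (K : ℕ) : ∑ m ∈ M0 K, (‖zi m‖)⁻¹ ≤ 8 * K := by
  rw [M0, Finset.sum_biUnion (pwd K)]
  calc ∑ k ∈ Finset.Icc 1 K, ∑ m ∈ (Finset.box k : Finset (ℤ × ℤ)), (‖zi m‖)⁻¹
      ≤ ∑ k ∈ Finset.Icc 1 K, (8 : ℝ) := by
        apply Finset.sum_le_sum
        intro k hk
        have hk1 : 1 ≤ k := (Finset.mem_Icc.mp hk).1
        have hk2 : (0 : ℝ) < k := by exact_mod_cast hk1
        calc ∑ m ∈ (Finset.box k : Finset (ℤ × ℤ)), (‖zi m‖)⁻¹
            ≤ ∑ m ∈ (Finset.box k : Finset (ℤ × ℤ)), ((k : ℝ))⁻¹ := by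
              apply Finset.sum_le_sum
              intro m hm
              rw [Int.mem_box] at hm
              have := natAbs_le_norm m
              rw [hm] at this
              exact inv_anti₀ hk2 this
          _ = 8 := by
              rw [Finset.sum_const, Int.card_box (by omega), nsmul_eq_mul]
              push_cast
              field_simp
    _ = 8 * K := by
        rw [Finset.sum_const, Nat.card_Icc, nsmul_eq_mul]
        simp [mul_comm]

end Pool.Agent.LatLB
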