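import Pool.Agent.Lib_MP_02aa3f_lb.Conc

/-!
# Nearly optimal sets of bounded perimeter do not exist
-/

set_option autoImplicit false
open MeasureTheory Set Filter
open scoped ENNReal Real Topology

namespace Pool.Agent.LatLB

section basics

variable {B : Set ℂ}

lemma Ot_fin (hf : volume B ≠ ∞) (h : ℂ) : volume (Ot B h) ≠ ∞ :=
  ne_top_of_le_ne_top hf (measure_mono fun x hx => hx.1)

lemma Aa_fin (hf : volume B ≠ ∞) (R : ℝ) (h : ℂ) : volume (Aa B R h) ≠ ∞ :=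
  ne_top_of_le_ne_top hf (measure_mono fun x hx => hx.1)

lemma Gx_fin (hf : volume B ≠ ∞) (R : ℝ) (h : ℂ) : volume (Gx B R h) ≠ ∞ :=
  ne_top_of_le_ne_top hf (measure_mono fun x hx => hx.1)

lemma Ot_split (hB : MeasurableSet B) (hf : volume B ≠ ∞) (R : ℝ) (h : ℂ) :
    (volume (Ot B h)).toReal = (volume (Aa B R h)).toReal + (volume (Gx B R h)).toReal := by
  rw [← ENNReal.toReal_add (Aa_fin hf R h) (Gx_fin hf R h), ← measure_union _ (measurableSet_Gx hB R h)]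
  · congr 2
    ext x
    simp only [Ot, Aa, Gx, mem_ofPred_eq, mem_union]
    by_cases hx : ‖x‖ ≤ R
    · have : ¬ R < ‖x‖ := not_lt.mpr hx
      tauto
    · have : R < ‖x‖ := not_le.mp hx
      tauto
  · rw [Set.disjoint_left]
    intro x h1 h2
    exact absurd h1.2.1 (not_le.mpr h2.2.1)

lemma Ot_neg (hB : MeasurableSet B) (hf : volume B ≠ ∞) (h : ℂ) :
    (volume (Ot B (-h))).toReal = (volume (Ot B h)).toReal := by
  have key : ∀ h : ℂ, (volume (Ot B h)).toReal + (volume (B ∩ (fun x => x + h) ⁻¹' B)).toReal =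
      (volume B).toReal := by
    intro h
    rw [← ENNReal.toReal_add (Ot_fin hf h) (ne_top_of_le_ne_top hf (measure_mono inter_subset_left)),
      ← measure_union _ (hB.inter (hB.preimage (by fun_prop)))]
    · congr 2
      ext x
      simp only [Ot, mem_ofPred_eq, mem_union, mem_inter_iff, mem_preimage]
      tauto
    · rw [Set.disjoint_left]
      intro x h1 h2
      exact h1.2 h2.2
  have h1 := key h
  have h2 := key (-h)
  have h3 : volume (B ∩ (fun x => x + -h) ⁻¹' B) = volume (B ∩ (fun x => x + h) ⁻¹' B) := by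
    have hm : MeasurableSet (B ∩ (fun x => x + h) ⁻¹' B) := hB.inter (hB.preimage (by fun_prop))
    rw [← (measurePreserving_add_right volume (-h)).measure_preimage hm.nullMeasurableSet]
    congr 1
    ext x
    simp only [mem_inter_iff, mem_preimage, neg_add_cancel_right]
    tauto
  rw [h3] at h2
  linarith

lemma Ot_double (hB : MeasurableSet B) (hf : volume B ≠ ∞) (h : ℂ) :
    (volume (Ot B (2 * h))).toReal ≤ 2 * (volume (Ot B h)).toReal := by
  have hsub : Ot B (2 * h) ⊆ Ot B h ∪ (fun x => x + h) ⁻¹' (Ot B h) := by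
    rintro x ⟨h1, h2⟩
    by_cases hx : x + h ∈ B
    · right
      refine ⟨hx, ?_⟩
      have : x + h + h = x + 2 * h := by ring
      rw [this]; exact h2
    · left; exact ⟨h1, hx⟩
  have h1 := (measure_mono (μ := (volume : Measure ℂ)) hsub).trans (measure_union_le _ _)
  rw [(measurePreserving_add_right volume h).measure_preimage
    (measurableSet_Ot hB h).nullMeasurableSet] at h1
  have h2 := ENNReal.toReal_mono (ENNReal.add_ne_top.mpr ⟨Ot_fin hf h, Ot_fin hf h⟩) h1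
  rw [ENNReal.toReal_add (Ot_fin hf h) (Ot_fin hf h)] at h2
  linarith

lemma Aa_double (hB : MeasurableSet B) (hf : volume B ≠ ∞) (R : ℝ) (h : ℂ) :
    (volume (Aa B R (2 * h))).toReal ≤ 2 * (volume (Aa B (R + ‖h‖) h)).toReal := by
  have hsub : Aa B R (2 * h) ⊆ Aa B (R + ‖h‖) h ∪ (fun x => x + h) ⁻¹' (Aa B (R + ‖h‖) h) := by
    rintro x ⟨h1, h2, h3⟩
    by_cases hx : x + h ∈ B
    · right
      refine ⟨hx, (norm_add_le x h).trans (by linarith), ?_⟩
      have : x + h + h = x + 2 * h := by ring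
      rw [this]; exact h3
    · left; exact ⟨h1, h2.trans (by linarith [norm_nonneg h]), hx⟩
  have h1 := (measure_mono (μ := (volume : Measure ℂ)) hsub).trans (measure_union_le _ _)
  rw [(measurePreserving_add_right volume h).measure_preimage
    (measurableSet_Aa hB (R + ‖h‖) h).nullMeasurableSet] at h1
  have h2 := ENNReal.toReal_mono (ENNReal.add_ne_top.mpr ⟨Aa_fin hf (R + ‖h‖) h,
    Aa_fin hf (R + ‖h‖) h⟩) h1
  rw [ENNReal.toReal_add (Aa_fin hf _ h) (Aa_fin hf _ h)] at h2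
  linarith

lemma Aa_mono (hf : volume B ≠ ∞) {R R' : ℝ} (hR : R ≤ R') (h : ℂ) :
    (volume (Aa B R h)).toReal ≤ (volume (Aa B R' h)).toReal := by
  apply ENNReal.toReal_mono (Aa_fin hf R' h)
  apply measure_mono
  exact fun x hx => ⟨hx.1, hx.2.1.trans hR, hx.2.2⟩

lemma Ot_iter (hB : MeasurableSet B) (hf : volume B ≠ ∞) (h : ℂ) (j : ℕ) :
    (volume (Ot B h)).toReal ≤ 2 ^ j * (volume (Ot B ((1 / 2) ^ j * h))).toReal := by
  induction j with
  | zero => simp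
  | succ j ih =>
    have h1 := Ot_double hB hf ((1 / 2) ^ (j + 1) * h)
    have e1 : 2 * ((1 / 2 : ℂ) ^ (j + 1) * h) = (1 / 2) ^ j * h := by
      rw [pow_succ]; ring
    rw [e1] at h1
    calc _ ≤ 2 ^ j * (volume (Ot B ((1 / 2) ^ j * h))).toReal := ih
      _ ≤ 2 ^ j * (2 * (volume (Ot B ((1 / 2) ^ (j + 1) * h))).toReal) := by gcongr
      _ = _ := by rw [pow_succ]; ring

lemma norm_half_pow (j : ℕ) (h : ℂ) : ‖(1 / 2 : ℂ) ^ j * h‖ = (1 / 2) ^ j * ‖h‖ := by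
  rw [norm_mul, norm_pow]
  norm_num

lemma Aa_iter (hB : MeasurableSet B) (hf : volume B ≠ ∞) (R : ℝ) (h : ℂ) (j : ℕ) :
    (volume (Aa B R h)).toReal ≤
      2 ^ j * (volume (Aa B (R + ‖h‖ * (1 - (1 / 2) ^ j)) ((1 / 2) ^ j * h))).toReal := by
  induction j with
  | zero => simp
  | succ j ih =>
    have h1 := Aa_double hB hf (R + ‖h‖ * (1 - (1 / 2) ^ j)) ((1 / 2) ^ (j + 1) * h)
    have e1 : 2 * ((1 / 2 : ℂ) ^ (j + 1) * h) = (1 / 2) ^ j * h := by
      rw [pow_succ]; ring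
    have e2 : R + ‖h‖ * (1 - (1 / 2) ^ j) + ‖(1 / 2 : ℂ) ^ (j + 1) * h‖ =
        R + ‖h‖ * (1 - (1 / 2) ^ (j + 1)) := by
      rw [norm_half_pow, pow_succ]; ring
    rw [e1, e2] at h1
    calc _ ≤ 2 ^ j * (volume (Aa B (R + ‖h‖ * (1 - (1 / 2) ^ j)) ((1 / 2) ^ j * h))).toReal := ih
      _ ≤ 2 ^ j * (2 * (volume (Aa B (R + ‖h‖ * (1 - (1 / 2) ^ (j + 1)))
            ((1 / 2) ^ (j + 1) * h))).toReal) := by gcongr
      _ = _ := by rw [pow_succ]; ring

end basics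

/-- An increasing bounded double sequence is almost constant from some index on, for infinitely
many `n`. -/
lemma pigeon (a : ℕ → ℕ → ℝ) (P κ : ℝ) (hκ : 0 < κ) (h0 : ∀ n k, 0 ≤ a n k)
    (hP : ∀ n k, a n k ≤ P) :
    ∃ k₀, ∀ k, k₀ ≤ k → ∀ N, ∃ n, N ≤ n ∧ a n k ≤ a n k₀ + κ := by
  by_contra hcon
  push Not at hcon
  have key : ∀ J : ℕ, ∃ k N, ∀ n, N ≤ n → J * κ ≤ a n k := by
    intro J
    induction J with
    | zero => exact ⟨0, 0, fun n _ => by simpa using h0 n 0⟩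
    | succ J ih =>
      obtain ⟨k, N, hN⟩ := ih
      obtain ⟨k', _, N', hN'⟩ := hcon k
      refine ⟨k', max N N', fun n hn => ?_⟩
      have h1 := hN n ((le_max_left _ _).trans hn)
      have h2 := hN' n ((le_max_right _ _).trans hn)
      push_cast
      linarith
  obtain ⟨J, hJ⟩ := exists_nat_gt (P / κ)
  obtain ⟨k, N, hN⟩ := key J
  have h1 := hN N le_rfl
  have h2 := hP N k
  rw [div_lt_iff₀ hκ] at hJ
  linarith

/-- the measure of the points with two lattice points -/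
lemma Dd_le {E : Set ℂ} (hE : MeasurableSet E) (hc : Catch E) {c : ℝ} (hc0 : 0 ≤ c)
    (hv : volume E ≤ ENNReal.ofReal (1 + c)) {u : ℂ} (hu : ‖u‖ = 1) :
    volume (Dd E u) ≤ ENNReal.ofReal (2 * c) := by
  have h3 := two_le_of_catch hE hu (hc u hu)
  have h4 : (2 : ℝ≥0∞) = ENNReal.ofReal 2 := by simp
  have h5 : volume (Dd E u) ≤ 2 * volume E - 2 := ENNReal.le_sub_of_add_le_right (by simp) h3
  refine h5.trans ?_
  have h6 : 2 * volume E ≤ ENNReal.ofReal (2 * (1 + c)) := by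
    rw [ENNReal.ofReal_mul (by norm_num), ← h4]
    gcongr
  refine (tsub_le_tsub_right h6 2).trans ?_
  rw [h4, ← ENNReal.ofReal_sub _ (by norm_num)]
  apply ENNReal.ofReal_le_ofReal
  linarith

lemma one_le_vol {E : Set ℂ} (hE : MeasurableSet E) (hc : Catch E) : 1 ≤ volume E := by
  have h := (le_add_self).trans (two_le_of_catch hE (u := 1) (by simp) (hc 1 (by simp)))
  have h2 : (2 : ℝ≥0∞) * 1 ≤ 2 * volume E := by simpa using h
  exact (ENNReal.mul_le_mul_iff_right (by norm_num) (by norm_num)).mp h2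

lemma no_dat (P c₀ : ℝ) (hP0 : 0 ≤ P) (hc₀ : 0 < c₀) :
    ∃ c : ℝ, 0 < c ∧ ∀ E B : Set ℂ, ¬ Dat P c₀ c E B := by
  by_contra hcon
  push Not at hcon
  have hpos : ∀ n : ℕ, (0 : ℝ) < 1 / (n + 1) := fun n => Nat.one_div_pos_of_nat
  choose E B hD using fun n : ℕ => hcon (1 / (n + 1)) (hpos n)
  have hBf : ∀ n, volume (B n) ≠ ∞ := fun n =>
    ne_top_of_le_ne_top ((hD n).hv.trans ENNReal.ofReal_lt_top).ne (measure_mono (hD n).hBE)
  set a : ℕ → ℕ → ℝ := fun n k => 2 ^ k * (volume (Ot (B n) ((1 / 2) ^ k * 1))).toReal with ha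
  have ha0 : ∀ n k, 0 ≤ a n k := fun n k => by rw [ha]; positivity
  have haP : ∀ n k, a n k ≤ P := by
    intro n k
    have h1 := ENNReal.toReal_mono ENNReal.ofReal_ne_top ((hD n).hP ((1 / 2) ^ k * 1))
    have e : ‖(1 / 2 : ℂ) ^ k * 1‖ = (1 / 2) ^ k := by rw [norm_half_pow, norm_one, mul_one]
    rw [e, ENNReal.toReal_ofReal (by positivity)] at h1
    calc a n k ≤ 2 ^ k * (P * (1 / 2) ^ k) := by
          rw [ha]; simp only; gcongr
      _ = P * (2 * (1 / 2)) ^ k := by rw [mul_pow]; ring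
      _ = P := by norm_num
  obtain ⟨k₀, hk₀⟩ := pigeon a P (1 / 64) (by norm_num) ha0 haP
  obtain ⟨r, c', hr0, hc'0, htight⟩ := tight P c₀ (1 / 64 * (1 / 2) ^ k₀) hP0 hc₀ (by positivity)
  set R : ℝ := r + 1 with hR
  set K : ℕ := ⌈2 * R + 1⌉₊ with hK
  have hKR : 2 * R + 1 ≤ K := Nat.le_ceil _
  have hK1 : 1 ≤ K := by
    have : (0 : ℝ) < K := by linarith
    have : 0 < K := by exact_mod_cast this
    omega
  -- choice of `k`
  have hM : 0 < 16 * (262 * (K : ℝ) ^ 4 * P ^ 2 + 1) := by positivity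
  obtain ⟨j, hj⟩ := exists_pow_lt_of_lt_one (show (0 : ℝ) < 1 / (16 * (262 * (K : ℝ) ^ 4 * P ^ 2 + 1)) by
    positivity) (show (1 / 2 : ℝ) < 1 by norm_num)
  set k : ℕ := k₀ + j with hk
  have hkj : (1 / 2 : ℝ) ^ k ≤ 1 / (16 * (262 * (K : ℝ) ^ 4 * P ^ 2 + 1)) := by
    refine le_trans ?_ hj.le
    rw [hk, pow_add]
    have : (1 / 2 : ℝ) ^ k₀ ≤ 1 := pow_le_one₀ (by norm_num) (by norm_num)
    have h2 : 0 ≤ (1 / 2 : ℝ) ^ j := by positivity
    nlinarith
  -- choice of `n`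
  set q : ℝ := min c' ((1 / 2) ^ k / 256) with hq
  have hq0 : 0 < q := by rw [hq]; positivity
  obtain ⟨N, hN⟩ := exists_nat_one_div_lt hq0
  obtain ⟨n, hn, hnk⟩ := hk₀ k (by omega) N
  have hcn : (1 : ℝ) / (n + 1) < q := by
    refine lt_of_le_of_lt ?_ hN
    apply one_div_le_one_div_of_le (by positivity)
    have : (N : ℝ) ≤ n := by exact_mod_cast hn
    linarith
  set c : ℝ := 1 / (n + 1) with hc
  have hc0 : 0 < c := hpos n
  have hcc' : c ≤ c' := hcn.le.trans (min_le_left _ _)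
  have hc2 : c ≤ (1 / 2) ^ k / 256 := hcn.le.trans (min_le_right _ _)
  have hpk1 : (1 / 2 : ℝ) ^ k ≤ 1 := pow_le_one₀ (by norm_num) (by norm_num)
  have hpk0 : 0 < (1 / 2 : ℝ) ^ k := by positivity
  have hD' : Dat P c₀ c' (E n) (B n) := by
    obtain ⟨h1, h2, h3, h4, h5, h6, h7, h8⟩ := hD n
    exact ⟨h1, h2, h3, h4, h5, h6.trans_le (ENNReal.ofReal_le_ofReal (by linarith)),
      h7.trans_le (ENNReal.ofReal_le_ofReal hcc'), h8⟩
  have ht := htight (E n) (B n) hD'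
  obtain ⟨hE, hB, hBE, hcat, hPn, hv, hη, -⟩ := hD n
  have hf := hBf n
  have hDd : ∀ u : ℂ, ‖u‖ = 1 → volume (Dd (E n) u) ≤ ENNReal.ofReal (2 * c) :=
    fun u hu => Dd_le hE hcat hc0.le hv.le hu
  have hT : ∀ i : ℕ, (volume (Ot (B n) (-((1 / 2) ^ i * 1)))).toReal =
      (volume (Ot (B n) ((1 / 2) ^ i * 1))).toReal := fun i => Ot_neg hB hf _
  -- lower bound for the near part, for `σ = ± 1`
  have hnear : ∀ h₀ : ℂ, ‖h₀‖ = (1 / 2) ^ k₀ →
      (volume (Ot (B n) h₀)).toReal = (volume (Ot (B n) ((1 / 2) ^ k₀ * 1))).toReal →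
      (volume (Ot (B n) h₀)).toReal - 1 / 64 * (1 / 2) ^ k₀ ≤
        2 ^ j * (volume (Aa (B n) R ((1 / 2) ^ j * h₀))).toReal := by
    intro h₀ hh _
    have h1 := Ot_split hB hf r h₀
    have h2 : (volume (Gx (B n) r h₀)).toReal ≤ 1 / 64 * (1 / 2) ^ k₀ := by
      have hsub : Gx (B n) r h₀ ⊆ {z | z ∈ E n ∧ r ≤ ‖z‖} := fun x hx => ⟨hBE hx.1, hx.2.1.le⟩
      have h3 := ENNReal.toReal_mono ENNReal.ofReal_ne_top ((measure_mono hsub).trans ht)
      rwa [ENNReal.toReal_ofReal (by positivity)] at h3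
    have h4 := Aa_iter hB hf r h₀ j
    have h5 : (volume (Aa (B n) (r + ‖h₀‖ * (1 - (1 / 2) ^ j)) ((1 / 2) ^ j * h₀))).toReal ≤
        (volume (Aa (B n) R ((1 / 2) ^ j * h₀))).toReal := by
      apply Aa_mono hf
      rw [hR, hh]
      have b1 : (1 / 2 : ℝ) ^ k₀ ≤ 1 := pow_le_one₀ (by norm_num) (by norm_num)
      have b2 : 0 ≤ (1 / 2 : ℝ) ^ k₀ := by positivity
      have b3 : 0 ≤ (1 / 2 : ℝ) ^ j := by positivity
      nlinarith
    have h6 : (2 : ℝ) ^ j * (volume (Aa (B n) (r + ‖h₀‖ * (1 - (1 / 2) ^ j)) ((1 / 2) ^ j * h₀))).toReal ≤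
        2 ^ j * (volume (Aa (B n) R ((1 / 2) ^ j * h₀))).toReal := by gcongr
    linarith
  have e2j : (2 : ℝ) ^ j * (1 / 2) ^ j = 1 := by rw [← mul_pow]; norm_num
  have e2k : (2 : ℝ) ^ k * (1 / 2) ^ k = 1 := by rw [← mul_pow]; norm_num
  have e2k0 : (2 : ℝ) ^ k₀ * (1 / 2) ^ k₀ = 1 := by rw [← mul_pow]; norm_num
  have hkk : (2 : ℝ) ^ k = 2 ^ k₀ * 2 ^ j := by rw [hk, pow_add]
  have hck : (1 / 2 : ℂ) ^ j * ((1 / 2) ^ k₀ * 1) = (1 / 2) ^ k * 1 := by
    rw [hk, pow_add]; ring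
  set h : ℂ := (1 / 2) ^ k * 1 with hh
  have hhn : ‖h‖ = (1 / 2) ^ k := by rw [hh, norm_half_pow, norm_one, mul_one]
  have hnp : a n k₀ - 1 / 64 ≤ 2 ^ k * (volume (Aa (B n) R h)).toReal := by
    have h1 := hnear ((1 / 2) ^ k₀ * 1) (by rw [norm_half_pow, norm_one, mul_one]) rfl
    rw [hck] at h1
    have h2 : (2 : ℝ) ^ k₀ * ((volume (Ot (B n) ((1 / 2) ^ k₀ * 1))).toReal - 1 / 64 * (1 / 2) ^ k₀) ≤
        2 ^ k₀ * (2 ^ j * (volume (Aa (B n) R h)).toReal) := by gcongr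
    have h3 : a n k₀ = 2 ^ k₀ * (volume (Ot (B n) ((1 / 2) ^ k₀ * 1))).toReal := rfl
    rw [hkk, h3]
    nlinarith
  have hnm : a n k₀ - 1 / 64 ≤ 2 ^ k * (volume (Aa (B n) R (-h))).toReal := by
    have h1 := hnear (-((1 / 2) ^ k₀ * 1)) (by rw [norm_neg, norm_half_pow, norm_one, mul_one]) (hT k₀)
    have hck' : (1 / 2 : ℂ) ^ j * (-((1 / 2) ^ k₀ * 1)) = -h := by rw [mul_neg, hck]
    rw [hck', hT k₀] at h1
    have h2 : (2 : ℝ) ^ k₀ * ((volume (Ot (B n) ((1 / 2) ^ k₀ * 1))).toReal - 1 / 64 * (1 / 2) ^ k₀) ≤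
        2 ^ k₀ * (2 ^ j * (volume (Aa (B n) R (-h))).toReal) := by gcongr
    have h3 : a n k₀ = 2 ^ k₀ * (volume (Ot (B n) ((1 / 2) ^ k₀ * 1))).toReal := rfl
    rw [hkk, h3]
    nlinarith
  have hak : a n k = 2 ^ k * (volume (Ot (B n) h)).toReal := rfl
  have hsp := Ot_split hB hf R h
  have hsm := Ot_split hB hf R (-h)
  rw [hT k] at hsm
  -- the far parts
  have hgp : (volume (Gx (B n) R h)).toReal ≤ 1 / 32 * (1 / 2) ^ k := by
    have h1 : (2 : ℝ) ^ k * (volume (Gx (B n) R h)).toReal ≤ 1 / 32 := by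
      have h2 : (2 : ℝ) ^ k * (volume (Gx (B n) R h)).toReal =
        2 ^ k * (volume (Ot (B n) h)).toReal - 2 ^ k * (volume (Aa (B n) R h)).toReal := by
        rw [hsp]; ring
      rw [h2, ← hak]; linarith
    calc (volume (Gx (B n) R h)).toReal = (1 / 2) ^ k * (2 ^ k * (volume (Gx (B n) R h)).toReal) := by
          rw [← mul_assoc, mul_comm ((1 / 2 : ℝ) ^ k), e2k, one_mul]
      _ ≤ (1 / 2) ^ k * (1 / 32) := by gcongr
      _ = _ := by ring
  have hgm : (volume (Gx (B n) R (-h))).toReal ≤ 1 / 32 * (1 / 2) ^ k := by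
    have h1 : (2 : ℝ) ^ k * (volume (Gx (B n) R (-h))).toReal ≤ 1 / 32 := by
      have h2 : (2 : ℝ) ^ k * (volume (Gx (B n) R (-h))).toReal =
        2 ^ k * (volume (Ot (B n) h)).toReal - 2 ^ k * (volume (Aa (B n) R (-h))).toReal := by
        rw [hsm]; ring
      rw [h2, ← hak]; linarith
    calc (volume (Gx (B n) R (-h))).toReal = (1 / 2) ^ k * (2 ^ k * (volume (Gx (B n) R (-h))).toReal) := by
          rw [← mul_assoc, mul_comm ((1 / 2 : ℝ) ^ k), e2k, one_mul]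
      _ ≤ (1 / 2) ^ k * (1 / 32) := by gcongr
      _ = _ := by ring
  -- lower bound for `a n k₀`
  have hlow : 1 / 2 ≤ a n k₀ := by
    have h1 : (volume (Ot (B n) 1)).toReal ≤ a n k₀ := Ot_iter hB hf 1 k₀
    have hc3 : c ≤ 1 / 8 := by linarith
    have hcov : volume (E n) ≤ volume (Ot (B n) 1) + (volume (Dd (E n) 1) + volume (E n \ B n)) := by
      have hsub : E n ⊆ Ot (B n) 1 ∪ (Dd (E n) 1 ∪ E n \ B n) := by
        intro x hx
        by_cases hxB : x ∈ B n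
        · by_cases hx1 : x + 1 ∈ B n
          · right; left
            refine ⟨hx, (1, 0), by simp, ?_⟩
            have : zi (1, 0) = 1 := by apply Complex.ext <;> simp
            rw [this, mul_one]
            exact hBE hx1
          · left; exact ⟨hxB, hx1⟩
        · right; right; exact ⟨hx, hxB⟩
      exact (measure_mono hsub).trans ((measure_union_le _ _).trans
        (add_le_add le_rfl (measure_union_le _ _)))
    have h2 : (1 : ℝ≥0∞) ≤ volume (Ot (B n) 1) + (ENNReal.ofReal (2 * c) + ENNReal.ofReal c) :=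
      (one_le_vol hE hcat).trans (hcov.trans (add_le_add le_rfl (add_le_add (hDd 1 (by simp)) hη.le)))
    have h3 := ENNReal.toReal_mono (ENNReal.add_ne_top.mpr ⟨Ot_fin hf 1, ENNReal.add_ne_top.mpr
      ⟨ENNReal.ofReal_ne_top, ENNReal.ofReal_ne_top⟩⟩) h2
    rw [ENNReal.toReal_one, ENNReal.toReal_add (Ot_fin hf 1) (ENNReal.add_ne_top.mpr
      ⟨ENNReal.ofReal_ne_top, ENNReal.ofReal_ne_top⟩), ENNReal.toReal_add ENNReal.ofReal_ne_top
      ENNReal.ofReal_ne_top, ENNReal.toReal_ofReal (by positivity),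
      ENNReal.toReal_ofReal (by positivity)] at h3
    linarith
  -- the inequality
  set α : ℝ := (volume (Aa (B n) R h)).toReal with hα
  have hAα : volume (Aa (B n) R h) = ENNReal.ofReal α := (ENNReal.ofReal_toReal (Aa_fin hf R h)).symm
  have hα0 : 0 ≤ α := ENNReal.toReal_nonneg
  set γ : ℝ := 1 / 32 * (1 / 2) ^ k + c with hγ
  have hγ0 : 0 ≤ γ := by rw [hγ]; positivity
  have hG : ∀ g : ℂ, (volume (Gx (B n) R g)).toReal ≤ 1 / 32 * (1 / 2) ^ k →
      volume (Gx (B n) R g ∪ E n \ B n) ≤ ENNReal.ofReal γ := by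
    intro g hg
    refine (measure_union_le _ _).trans ?_
    rw [hγ, ENNReal.ofReal_add (by positivity) hc0.le]
    refine add_le_add ?_ hη.le
    rw [← ENNReal.ofReal_toReal (Gx_fin hf R g)]
    exact ENNReal.ofReal_le_ofReal hg
  have hfinal := real_ineq hE hB hBE hcat hK1 (R := R) (h := h) (K := K) (by rw [hhn]; linarith)
    (δ := 2 * c) (γ := γ) (α := α) (by positivity) hγ0 hα0 hDd (hG h hgp) (hG (-h) hgm) hAα
  -- numbers
  have hαlow : (1 / 2 - 1 / 64) * (1 / 2) ^ k ≤ α := by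
    have h1 : 1 / 2 - 1 / 64 ≤ 2 ^ k * α := by linarith
    calc (1 / 2 - 1 / 64) * (1 / 2) ^ k ≤ (2 ^ k * α) * (1 / 2) ^ k := by gcongr
      _ = (2 ^ k * (1 / 2) ^ k) * α := by ring
      _ = α := by rw [e2k, one_mul]
  have hαup : α ≤ P * (1 / 2) ^ k := by
    have h1 : α ≤ (volume (Ot (B n) h)).toReal := by
      rw [hsp]; linarith [ENNReal.toReal_nonneg (a := volume (Gx (B n) R h))]
    have h2 := ENNReal.toReal_mono ENNReal.ofReal_ne_top (hPn h)
    rw [hhn, ENNReal.toReal_ofReal (by positivity)] at h2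
    linarith
  have hα2 : 262 * (K : ℝ) ^ 4 * α ^ 2 ≤ 1 / 16 * (1 / 2) ^ k := by
    calc 262 * (K : ℝ) ^ 4 * α ^ 2 ≤ 262 * (K : ℝ) ^ 4 * (P * (1 / 2) ^ k) ^ 2 := by gcongr
      _ = (262 * (K : ℝ) ^ 4 * P ^ 2) * (1 / 2) ^ k * (1 / 2) ^ k := by ring
      _ ≤ (262 * (K : ℝ) ^ 4 * P ^ 2 + 1) * (1 / (16 * (262 * (K : ℝ) ^ 4 * P ^ 2 + 1))) * (1 / 2) ^ k := by
          gcongr
          linarith
      _ = 1 / 16 * (1 / 2) ^ k := by
          congr 1
          field_simp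
  rw [hγ] at hfinal
  nlinarith

end Pool.Agent.LatLB
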