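import Pool.Agent.Lib_MP_02aa3f_lb.Far
import Pool.Agent.Lib_MP_02aa3f_lb.Perim

/-!
# Lattice-catching sets which contain a disc
-/

set_option autoImplicit false
open MeasureTheory Set Filter
open scoped ENNReal Real Topology

namespace Pool.Agent.LatLB

/-- the norms of the lattice points are dense at infinity -/
lemma gap {r ρ : ℝ} (hr : 0 < r) (h1 : 1 ≤ ρ) (h2 : 8 / r ^ 2 < ρ) :
    ∃ m : ℤ × ℤ, m ≠ 0 ∧ |ρ - ‖zi m‖| < r := by
  set a : ℤ := ⌊ρ⌋ with ha
  have ha1 : (1 : ℤ) ≤ a := Int.le_floor.mpr (by exact_mod_cast h1)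
  have ha2 : (a : ℝ) ≤ ρ := Int.floor_le _
  have ha3 : ρ < a + 1 := Int.lt_floor_add_one _
  have ha1' : (1 : ℝ) ≤ a := by exact_mod_cast ha1
  set s : ℝ := √(ρ ^ 2 - a ^ 2) with hs
  have hs0 : 0 ≤ s := Real.sqrt_nonneg _
  have hs2 : s ^ 2 = ρ ^ 2 - a ^ 2 := Real.sq_sqrt (by nlinarith)
  set b : ℤ := ⌊s⌋ with hb
  have hb0 : (0 : ℤ) ≤ b := Int.floor_nonneg.mpr hs0
  have hb0' : (0 : ℝ) ≤ b := by exact_mod_cast hb0
  have hb1 : (b : ℝ) ≤ s := Int.floor_le _
  have hb2 : s < b + 1 := Int.lt_floor_add_one _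
  refine ⟨(a, b), ?_, ?_⟩
  · intro h
    have := congrArg Prod.fst h
    simp only [Prod.fst_zero] at this
    omega
  set N : ℝ := ‖zi (a, b)‖ with hN
  have hN0 : 0 ≤ N := norm_nonneg _
  have hN2 : N ^ 2 = a ^ 2 + b ^ 2 := by
    rw [hN, Complex.sq_norm, Complex.normSq_apply]
    simp
    ring
  have hNρ : N ≤ ρ := by
    apply le_of_sq_le_sq _ (by linarith)
    nlinarith
  rw [abs_of_nonneg (by linarith)]
  by_contra hcon
  push Not at hcon
  have c1 : (ρ - N) * (ρ + N) ≤ 2 * s := by nlinarith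
  have c2 : r * ρ ≤ 2 * s := by nlinarith
  have c3 : s ^ 2 ≤ 2 * ρ := by nlinarith
  have c4 : (r * ρ) ^ 2 ≤ (2 * s) ^ 2 := by
    apply pow_le_pow_left₀ (by positivity) c2
  have c5 : r ^ 2 * ρ * ρ ≤ 8 * ρ := by nlinarith
  have c6 : r ^ 2 * ρ ≤ 8 := le_of_mul_le_mul_right c5 (by linarith)
  rw [div_lt_iff₀ (by positivity)] at h2
  nlinarith

/-- a bound for the periodised Gaussian -/
lemma kk_le {a : ℝ} (ha : 0 < a) : ∃ M : ℝ, 0 < M ∧ ∀ (θ : ℝ) (w : ℂ), kk a θ w ≤ ENNReal.ofReal M := by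
  refine ⟨∑' m : ℤ × ℤ, cf a m, ?_, ?_⟩
  · have h0 : ∀ m, 0 ≤ cf a m := fun m => by unfold cf; positivity
    exact (summable_cf ha).tsum_pos h0 0 (by unfold cf; positivity)
  intro θ w
  rw [kk_def]
  simp_rw [gs_rot]
  rw [← ENNReal.ofReal_tsum_of_nonneg (fun m => gs_nonneg ha _) (summable_gs ha _)]
  apply ENNReal.ofReal_le_ofReal
  have h1 := poisson2 ha (ex (-θ) * w)
  have h2 : ((∑' m : ℤ × ℤ, gs a (ex (-θ) * w + zi m) : ℝ) : ℂ) =
      ∑' m : ℤ × ℤ, (gs a (ex (-θ) * w + zi m) : ℂ) := Complex.ofReal_tsum _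
  have h3 : ∑' m : ℤ × ℤ, gs a (ex (-θ) * w + zi m) ≤
      ‖((∑' m : ℤ × ℤ, gs a (ex (-θ) * w + zi m) : ℝ) : ℂ)‖ := by
    rw [Complex.norm_real]; exact le_abs_self _
  refine h3.trans ?_
  rw [h2, h1]
  have h4 : ∀ m : ℤ × ℤ, ‖(cf a m : ℂ) * Complex.exp (-(2 * π * ph (ex (-θ) * w) m) * Complex.I)‖ =
      cf a m := by
    intro m
    have e1 : (-(2 * π * ph (ex (-θ) * w) m) : ℂ) = ((-(2 * π * ph (ex (-θ) * w) m) : ℝ) : ℂ) := by
      push_cast; ring
    rw [norm_mul, e1, Complex.norm_exp_ofReal_mul_I, mul_one, Complex.norm_real, Real.norm_eq_abs,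
      abs_of_nonneg (by unfold cf; positivity)]
  have h5 : Summable fun m : ℤ × ℤ =>
      ‖(cf a m : ℂ) * Complex.exp (-(2 * π * ph (ex (-θ) * w) m) * Complex.I)‖ := by
    simp_rw [h4]; exact summable_cf ha
  refine (norm_tsum_le_tsum_norm h5).trans ?_
  simp_rw [h4]
  exact le_rfl

lemma kk_periodic (a θ : ℝ) (w : ℂ) (k : ℤ × ℤ) : kk a θ (w + ex θ * zi k) = kk a θ w := by
  rw [kk_def, kk_def]
  rw [← (Equiv.addLeft k).tsum_eq (fun m => ENNReal.ofReal (gs a (w + ex θ * zi m)))]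
  congr 1
  funext m
  rw [Equiv.coe_addLeft, zi_add, mul_add, add_assoc]

lemma lintegral_kk {a : ℝ} (ha : 0 < a) (θ : ℝ) : ∫⁻ x in Uq, kk a θ (ex θ * x) = 1 := by
  have h1 : ∀ x : ℂ, kk a θ (ex θ * x) = ∑' m : ℤ × ℤ, ENNReal.ofReal (gs a (x + zi m)) := by
    intro x
    rw [kk_def]
    congr 1
    funext m
    rw [← mul_add, gs, gs, norm_mul, norm_ex, one_mul]
  simp_rw [h1]
  rw [← lintegral_tile (fun y => ENNReal.ofReal (gs a y))
    (ENNReal.measurable_ofReal.comp (measurable_gs a)), lintegral_gs ha]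

/-- the mean of the periodised Gaussian over a nearly optimal set -/
lemma lintegral_kk_le {E : Set ℂ} (hE : MeasurableSet E) (hc : Catch E) {a M : ℝ} (ha : 0 < a)
    {θ : ℝ} (hM : ∀ w : ℂ, kk a θ w ≤ ENNReal.ofReal M) :
    (∫⁻ z in E, kk a θ z) + ENNReal.ofReal M ≤ ENNReal.ofReal M * volume E + 1 := by
  have hu := norm_ex θ
  have hkm : Measurable fun w : ℂ => kk a θ w :=
    (measurable_kk a).comp (by fun_prop : Measurable fun w : ℂ => (θ, w))
  have hm : Measurable fun z : ℂ => E.indicator (1 : ℂ → ℝ≥0∞) z * kk a θ z :=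
    (measurable_one.indicator hE).mul hkm
  have e1 : ∫⁻ z in E, kk a θ z = ∫⁻ x in Uq, Nn E (ex θ) x * kk a θ (ex θ * x) := by
    have h1 : ∫⁻ z in E, kk a θ z = ∫⁻ z, E.indicator (1 : ℂ → ℝ≥0∞) z * kk a θ z := by
      rw [← lintegral_indicator hE]
      congr 1
      funext z
      by_cases h : z ∈ E
      · rw [Set.indicator_of_mem h, Set.indicator_of_mem h]; simp
      · rw [Set.indicator_of_notMem h, Set.indicator_of_notMem h]; simp
    rw [h1, ← (mp_mul hu).lintegral_comp hm,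
      lintegral_tile (fun y => E.indicator (1 : ℂ → ℝ≥0∞) (ex θ * y) * kk a θ (ex θ * y))
        (hm.comp (measurable_const_mul (ex θ)))]
    apply lintegral_congr
    intro x
    simp_rw [mul_add, kk_periodic]
    rw [ENNReal.tsum_mul_right, Nn]
    simp_rw [mul_add]
  have e2 : ENNReal.ofReal M = ∫⁻ _ in Uq, ENNReal.ofReal M := by
    rw [lintegral_const, Measure.restrict_apply MeasurableSet.univ, univ_inter, volume_Uq, mul_one]
  have hm2 : Measurable fun x : ℂ => kk a θ (ex θ * x) := hkm.comp (by fun_prop)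
  rw [e1]
  calc (∫⁻ x in Uq, Nn E (ex θ) x * kk a θ (ex θ * x)) + ENNReal.ofReal M
      = ∫⁻ x in Uq, (Nn E (ex θ) x * kk a θ (ex θ * x) + ENNReal.ofReal M) := by
        rw [lintegral_add_right _ measurable_const, ← e2]
    _ ≤ ∫⁻ x in Uq, (ENNReal.ofReal M * Nn E (ex θ) x + kk a θ (ex θ * x)) := by
        apply lintegral_mono
        intro x
        simp only
        have hE1 : 1 ≤ Nn E (ex θ) x := by
          obtain ⟨m, hm⟩ := hc (ex θ) hu (ex θ * x)
          apply one_le_Nn (m := m)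
          rw [mul_add]; exact hm
        obtain ⟨k, hk⟩ := le_iff_exists_add.mp hE1
        rw [hk]
        calc (1 + k) * kk a θ (ex θ * x) + ENNReal.ofReal M
            = k * kk a θ (ex θ * x) + (kk a θ (ex θ * x) + ENNReal.ofReal M) := by ring
          _ ≤ k * ENNReal.ofReal M + (kk a θ (ex θ * x) + ENNReal.ofReal M) := by
              gcongr
              exact hM _
          _ = ENNReal.ofReal M * (1 + k) + kk a θ (ex θ * x) := by ring
    _ = ENNReal.ofReal M * volume E + 1 := by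
        rw [lintegral_add_right _ hm2, lintegral_kk ha, lintegral_const_mul _ (measurable_Nn hE _),
          lintegral_Nn hE hu]

/-- the mass of the Gaussian in a disc -/
lemma gs_disc {a r : ℝ} (ha : 0 < a) (hr : 0 < r) :
    1 ≤ (∫⁻ x in Metric.closedBall (0 : ℂ) r, ENNReal.ofReal (gs a x)) +
      ENNReal.ofReal (√a / (2 * r)) := by
  have hcont : Measurable fun s : ℂ => ENNReal.ofReal (gs a s) :=
    ENNReal.measurable_ofReal.comp (measurable_gs a)
  have hB : MeasurableSet (Metric.closedBall (0 : ℂ) r) := Metric.isClosed_closedBall.measurableSet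
  rw [← lintegral_gs ha, ← lintegral_add_compl _ hB]
  gcongr
  have h1 : ∫⁻ x in (Metric.closedBall (0 : ℂ) r)ᶜ, ENNReal.ofReal (gs a x) ≤
      ∫⁻ x in (Metric.closedBall (0 : ℂ) r)ᶜ,
        ENNReal.ofReal (gs a x) * ENNReal.ofReal (1 / r * ‖x‖) := by
    apply setLIntegral_mono' hB.compl
    intro x hx
    rw [mem_compl_iff, mem_closedBall_zero_iff, not_le] at hx
    have h2 : (1 : ℝ≥0∞) ≤ ENNReal.ofReal (1 / r * ‖x‖) := by
      rw [ENNReal.one_le_ofReal, one_div, inv_mul_eq_div, le_div_iff₀ hr]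
      linarith
    calc ENNReal.ofReal (gs a x) = ENNReal.ofReal (gs a x) * 1 := (mul_one _).symm
      _ ≤ _ := by gcongr
  refine h1.trans ((setLIntegral_le_lintegral _ _).trans ?_)
  rw [lintegral_norm_gs ha (by positivity)]
  apply ENNReal.ofReal_le_ofReal
  apply le_of_eq
  field_simp

/-- the far part is small when the set contains most of a disc -/
lemma far_small {E : Set ℂ} (hE : MeasurableSet E) (hc : Catch E) {a r M R₁ c : ℝ} (ha : 0 < a)
    (hr : 0 < r) (hM0 : 0 < M) (hM : ∀ (θ : ℝ) (w : ℂ), kk a θ w ≤ ENNReal.ofReal M) (hR₁ : r < R₁)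
    (hfar : ∀ w : ℂ, R₁ ≤ ‖w‖ →
      ENNReal.ofReal π ≤ ∫⁻ θ in Ii, ∑' m : ℤ × ℤ, ENNReal.ofReal (gs a (w + ex θ * zi m)))
    (hc0 : 0 ≤ c) (hv : volume E ≤ ENNReal.ofReal (1 + c))
    (hB : volume (Metric.closedBall (0 : ℂ) r \ E) ≤ ENNReal.ofReal c) :
    volume (Gg E R₁) ≤ ENNReal.ofReal (2 * (2 * M * c + √a / (2 * r))) := by
  have hπ := Real.pi_pos
  set B := Metric.closedBall (0 : ℂ) r with hBdef
  have hBm : MeasurableSet B := Metric.isClosed_closedBall.measurableSet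
  have hFm := measurableSet_Gg hE R₁
  have hkm : ∀ θ : ℝ, Measurable fun w : ℂ => kk a θ w := fun θ =>
    (measurable_kk a).comp (by fun_prop : Measurable fun w : ℂ => (θ, w))
  have hcont : Measurable fun s : ℂ => ENNReal.ofReal (gs a s) :=
    ENNReal.measurable_ofReal.comp (measurable_gs a)
  have hdis : Disjoint (B ∩ E) (Gg E R₁) := by
    rw [Set.disjoint_left]
    rintro x ⟨h1, _⟩ ⟨_, h2⟩
    rw [hBdef, mem_closedBall_zero_iff] at h1
    linarith
  -- one rotation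
  have hone : ∀ θ : ℝ, ∫⁻ z in Gg E R₁, kk a θ z ≤ ENNReal.ofReal (2 * M * c + √a / (2 * r)) := by
    intro θ
    have h1 := lintegral_kk_le hE hc ha (hM θ)
    have h2 : (∫⁻ z in B ∩ E, kk a θ z) + ∫⁻ z in Gg E R₁, kk a θ z ≤ ∫⁻ z in E, kk a θ z := by
      rw [← lintegral_union hFm hdis]
      apply lintegral_mono_set
      rintro x (h | h)
      · exact h.2
      · exact h.1
    have h3 : 1 ≤ (∫⁻ z in B ∩ E, kk a θ z) + ENNReal.ofReal (M * c) +
        ENNReal.ofReal (√a / (2 * r)) := by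
      refine (gs_disc ha hr).trans (add_le_add ?_ le_rfl)
      have h4 : ∫⁻ x in B, ENNReal.ofReal (gs a x) ≤ ∫⁻ x in B, kk a θ x := by
        apply lintegral_mono
        intro x
        rw [kk_def]
        refine le_trans ?_ (ENNReal.le_tsum 0)
        simp
      refine h4.trans ?_
      have h5 : ∫⁻ x in B, kk a θ x ≤ (∫⁻ z in B ∩ E, kk a θ z) + ∫⁻ z in B \ E, kk a θ z := by
        rw [lintegral_inter_add_sdiff _ _ hE]
      refine h5.trans (add_le_add le_rfl ?_)
      calc ∫⁻ z in B \ E, kk a θ z ≤ ∫⁻ _ in B \ E, ENNReal.ofReal M :=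
            lintegral_mono fun z => hM θ z
        _ = ENNReal.ofReal M * volume (B \ E) := setLIntegral_const _ _
        _ ≤ ENNReal.ofReal M * ENNReal.ofReal c := by gcongr
        _ = ENNReal.ofReal (M * c) := by rw [ENNReal.ofReal_mul hM0.le]
    -- combine
    have h6 : 1 + ENNReal.ofReal M + (∫⁻ z in Gg E R₁, kk a θ z) ≤
        1 + ENNReal.ofReal M + ENNReal.ofReal (2 * M * c + √a / (2 * r)) := by
      calc 1 + ENNReal.ofReal M + (∫⁻ z in Gg E R₁, kk a θ z)
          ≤ ((∫⁻ z in B ∩ E, kk a θ z) + ENNReal.ofReal (M * c) + ENNReal.ofReal (√a / (2 * r))) +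
            ENNReal.ofReal M + (∫⁻ z in Gg E R₁, kk a θ z) := by gcongr
        _ = ((∫⁻ z in B ∩ E, kk a θ z) + ∫⁻ z in Gg E R₁, kk a θ z) + ENNReal.ofReal M +
            (ENNReal.ofReal (M * c) + ENNReal.ofReal (√a / (2 * r))) := by ring
        _ ≤ (∫⁻ z in E, kk a θ z) + ENNReal.ofReal M +
            (ENNReal.ofReal (M * c) + ENNReal.ofReal (√a / (2 * r))) := by gcongr
        _ ≤ ENNReal.ofReal M * volume E + 1 +
            (ENNReal.ofReal (M * c) + ENNReal.ofReal (√a / (2 * r))) := by gcongr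
        _ ≤ ENNReal.ofReal M * ENNReal.ofReal (1 + c) + 1 +
            (ENNReal.ofReal (M * c) + ENNReal.ofReal (√a / (2 * r))) := by gcongr
        _ = 1 + ENNReal.ofReal M + ENNReal.ofReal (2 * M * c + √a / (2 * r)) := by
            rw [← ENNReal.ofReal_mul hM0.le, ← ENNReal.ofReal_one, ← ENNReal.ofReal_add (by positivity) (by positivity),
              ← ENNReal.ofReal_add (by positivity) (by positivity),
              ← ENNReal.ofReal_add (by positivity) (by positivity),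
              ← ENNReal.ofReal_add (by positivity) (by positivity),
              ← ENNReal.ofReal_add (by positivity) (by positivity)]
            congr 1
            ring
    exact (ENNReal.add_le_add_iff_left (by finiteness)).mp h6
  -- all rotations
  have hall : ENNReal.ofReal π * volume (Gg E R₁) ≤
      ENNReal.ofReal (2 * M * c + √a / (2 * r)) * ENNReal.ofReal (2 * π) := by
    have h1 : ∫⁻ θ in Ii, ∫⁻ z in Gg E R₁, kk a θ z ≤
        ENNReal.ofReal (2 * M * c + √a / (2 * r)) * ENNReal.ofReal (2 * π) := by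
      refine (lintegral_mono hone).trans ?_
      rw [lintegral_const, Measure.restrict_apply MeasurableSet.univ, univ_inter, volume_Ii]
    refine le_trans ?_ h1
    rw [lintegral_lintegral_swap ((measurable_kk a).aemeasurable), ← setLIntegral_const]
    apply setLIntegral_mono' hFm
    intro z hz
    have h2 := hfar z hz.2.le
    simp_rw [← kk_def] at h2
    exact h2
  have h7 : ENNReal.ofReal π * volume (Gg E R₁) ≤
      ENNReal.ofReal π * ENNReal.ofReal (2 * (2 * M * c + √a / (2 * r))) := by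
    refine hall.trans (le_of_eq ?_)
    rw [← ENNReal.ofReal_mul (by positivity), ← ENNReal.ofReal_mul hπ.le]
    congr 1
    ring
  exact (ENNReal.mul_le_mul_iff_right (by simpa using hπ) ENNReal.ofReal_ne_top).mp h7

/-- the part of the set near a circle whose radius is the norm of a lattice point -/
lemma near_circle {E : Set ℂ} (hE : MeasurableSet E) (hc : Catch E) {r c : ℝ} (hc0 : 0 ≤ c)
    (hv : volume E ≤ ENNReal.ofReal (1 + c))
    (hB : volume (Metric.closedBall (0 : ℂ) r \ E) ≤ ENNReal.ofReal c) {w : ℂ} {m : ℤ × ℤ}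
    (hm : m ≠ 0) (hw : ‖w‖ = ‖zi m‖) :
    volume (E ∩ Metric.ball w r) ≤ ENNReal.ofReal (3 * c) := by
  have hz : zi m ≠ 0 := fun h => hm (zi_eq_zero.mp h)
  have hz0 : 0 < ‖zi m‖ := norm_pos_iff.mpr hz
  set u : ℂ := w / zi m with hu
  have hu1 : ‖u‖ = 1 := by rw [hu, norm_div, hw, div_self hz0.ne']
  have huw : u * zi m = w := div_mul_cancel₀ _ hz
  have hmp : MeasurePreserving (fun x : ℂ => x + w) volume volume := measurePreserving_add_right _ _
  have h1 : volume (E ∩ Metric.ball w r) = volume ((fun x : ℂ => x + w) ⁻¹' (E ∩ Metric.ball w r)) :=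
    (hmp.measure_preimage (hE.inter Metric.isOpen_ball.measurableSet).nullMeasurableSet).symm
  rw [h1]
  have hsub : (fun x : ℂ => x + w) ⁻¹' (E ∩ Metric.ball w r) ⊆
      Dd E u ∪ (Metric.closedBall (0 : ℂ) r \ E) := by
    rintro x ⟨h2, h3⟩
    rw [mem_ball_iff_norm, add_sub_cancel_right] at h3
    by_cases hx : x ∈ E
    · left
      refine ⟨hx, m, hm, ?_⟩
      rw [huw]; exact h2
    · right
      exact ⟨by rw [mem_closedBall_zero_iff]; exact h3.le, hx⟩
  refine (measure_mono hsub).trans ((measure_union_le _ _).trans ?_)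
  calc volume (Dd E u) + volume (Metric.closedBall (0 : ℂ) r \ E)
      ≤ ENNReal.ofReal (2 * c) + ENNReal.ofReal c := add_le_add (Dd_le hE hc hc0 hv hu1) hB
    _ = ENNReal.ofReal (3 * c) := by
        rw [← ENNReal.ofReal_add (by positivity) hc0]; congr 1; ring

/-- finitely many such discs cover an annulus -/
lemma cover {r R R₁ : ℝ} (hr : 0 < r) (hR : 1 ≤ R) (hR2 : 8 / r ^ 2 < R) :
    ∃ T : Finset ℂ, (∀ w ∈ T, ∃ m : ℤ × ℤ, m ≠ 0 ∧ ‖w‖ = ‖zi m‖) ∧
      ∀ x : ℂ, R ≤ ‖x‖ → ‖x‖ ≤ R₁ → ∃ w ∈ T, x ∈ Metric.ball w r := by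
  classical
  have hex : ∀ x : ℂ, ∃ w : ℂ, R ≤ ‖x‖ → (∃ m : ℤ × ℤ, m ≠ 0 ∧ ‖w‖ = ‖zi m‖) ∧ ‖x - w‖ < r := by
    intro x
    by_cases hx : R ≤ ‖x‖
    · obtain ⟨m, hm, hd⟩ := gap hr (hR.trans hx) (hR2.trans_le hx)
      have hx0 : 0 < ‖x‖ := by linarith
      refine ⟨((‖zi m‖ / ‖x‖ : ℝ) : ℂ) * x, fun _ => ⟨⟨m, hm, ?_⟩, ?_⟩⟩
      · rw [norm_mul, Complex.norm_real, Real.norm_eq_abs, abs_of_nonneg (by positivity)]
        field_simp
      · have e1 : x - ((‖zi m‖ / ‖x‖ : ℝ) : ℂ) * x = (((‖x‖ - ‖zi m‖) / ‖x‖ : ℝ) : ℂ) * x := by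
          have hx1 : ((‖x‖ : ℝ) : ℂ) ≠ 0 := by exact_mod_cast hx0.ne'
          push_cast
          field_simp
        rw [e1, norm_mul, Complex.norm_real, Real.norm_eq_abs, abs_div, abs_norm]
        rw [div_mul_cancel₀ _ hx0.ne']
        exact hd
    · exact ⟨0, fun h => absurd h hx⟩
  choose w hw using hex
  have hcomp : IsCompact (Metric.closedBall (0 : ℂ) R₁ ∩ {x : ℂ | R ≤ ‖x‖}) :=
    (isCompact_closedBall _ _).inter_right (isClosed_le continuous_const continuous_norm)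
  obtain ⟨t, ht1, ht2⟩ := hcomp.elim_nhds_subcover (fun x => Metric.ball (w x) r) (by
    rintro x ⟨_, hx⟩
    apply Metric.isOpen_ball.mem_nhds
    rw [mem_ball_iff_norm]
    exact (hw x hx).2)
  refine ⟨t.image w, ?_, ?_⟩
  · intro y hy
    obtain ⟨x, hx, rfl⟩ := Finset.mem_image.mp hy
    exact (hw x (ht1 x hx).2).1
  · intro x h1 h2
    have h3 := ht2 ⟨by rw [mem_closedBall_zero_iff]; exact h2, h1⟩
    obtain ⟨y, hy, hxy⟩ := mem_iUnion₂.mp h3
    exact ⟨w y, Finset.mem_image_of_mem w hy, hxy⟩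

/-- A nearly optimal lattice-catching set does not contain most of a disc of fixed radius. -/
theorem disc {r : ℝ} (hr : 0 < r) : ∃ c : ℝ, 0 < c ∧ ∀ E : Set ℂ, MeasurableSet E → Catch E →
    volume (Metric.closedBall (0 : ℂ) r \ E) ≤ ENNReal.ofReal c →
      ENNReal.ofReal (1 + c) ≤ volume E := by
  set R : ℝ := 1 + 8 / r ^ 2 with hR
  have hR1 : 1 ≤ R := by rw [hR]; have : 0 < 8 / r ^ 2 := by positivity
                         linarith
  have hR2 : 8 / r ^ 2 < R := by rw [hR]; linarith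
  set κ : ℝ := 1 / (3 * 10 ^ 7 * R ^ 4) with hκ
  have hκ0 : 0 < κ := by rw [hκ]; positivity
  set a : ℝ := (κ * r / 4) ^ 2 with ha
  have ha0 : 0 < a := by rw [ha]; positivity
  have hsa : √a = κ * r / 4 := by rw [ha, Real.sqrt_sq (by positivity)]
  obtain ⟨M, hM0, hM⟩ := kk_le ha0
  obtain ⟨r', hr'0, hr'⟩ := exists_far ha0
  set R₁ : ℝ := max r' (r + 1) with hR₁
  obtain ⟨T, hT1, hT2⟩ := cover (R₁ := R₁) hr hR1 hR2
  set n : ℝ := (T.card : ℝ) with hn
  have hn0 : 0 ≤ n := by rw [hn]; positivity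
  refine ⟨κ / (16 * M + 12 * n + 4), by positivity, fun E hE hc hB => ?_⟩
  set c : ℝ := κ / (16 * M + 12 * n + 4) with hcdef
  have hc0 : 0 < c := by rw [hcdef]; positivity
  have hcm : c * (16 * M + 12 * n + 4) = κ := by rw [hcdef]; field_simp
  have hcκ : c ≤ κ := by nlinarith [mul_nonneg hc0.le hM0.le, mul_nonneg hc0.le hn0]
  by_contra hcon
  push Not at hcon
  rcases main hE hc hR1 with h | h
  · have h1 := h.trans_lt hcon
    rw [ENNReal.ofReal_lt_ofReal_iff (by positivity)] at h1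
    linarith
  · have hsub : Gg E R ⊆ (⋃ w ∈ T, E ∩ Metric.ball w r) ∪ Gg E R₁ := by
      rintro x ⟨h1, h2⟩
      by_cases h3 : ‖x‖ ≤ R₁
      · left
        obtain ⟨w, hw, hxw⟩ := hT2 x h2.le h3
        exact mem_iUnion₂.mpr ⟨w, hw, h1, hxw⟩
      · exact Or.inr ⟨h1, not_le.mp h3⟩
    have h4 : volume (⋃ w ∈ T, E ∩ Metric.ball w r) ≤ ENNReal.ofReal (n * (3 * c)) := by
      refine (measure_biUnion_finset_le _ _).trans ?_
      calc ∑ w ∈ T, volume (E ∩ Metric.ball w r) ≤ ∑ w ∈ T, ENNReal.ofReal (3 * c) := by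
            apply Finset.sum_le_sum
            intro w hw
            obtain ⟨m, hm, hwm⟩ := hT1 w hw
            exact near_circle hE hc hc0.le hcon.le hB hm hwm
        _ = T.card * ENNReal.ofReal (3 * c) := by rw [Finset.sum_const, nsmul_eq_mul]
        _ = ENNReal.ofReal (n * (3 * c)) := by
            rw [hn, ← ENNReal.ofReal_natCast, ← ENNReal.ofReal_mul (by positivity)]
    have h5 := far_small hE hc ha0 hr hM0 hM (R₁ := R₁) (by
      rw [hR₁]; exact lt_of_lt_of_le (by linarith) (le_max_right _ _)) (fun w hw =>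
        hr' w ((le_max_left _ _).trans hw)) hc0.le hcon.le hB
    have h6 : volume (Gg E R) ≤
        ENNReal.ofReal (n * (3 * c) + 2 * (2 * M * c + √a / (2 * r))) := by
      refine (measure_mono hsub).trans ((measure_union_le _ _).trans ?_)
      rw [ENNReal.ofReal_add (by positivity) (by positivity)]
      exact add_le_add h4 h5
    have h7 := h.trans h6
    rw [ENNReal.ofReal_le_ofReal_iff (by positivity)] at h7
    have e1 : √a / (2 * r) = κ / 8 := by rw [hsa]; field_simp; norm_num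
    rw [e1] at h7
    have e2 : n * (3 * c) + 2 * (2 * M * c + κ / 8) ≤ κ / 4 + κ / 4 := by
      have : 4 * (n * (3 * c) + 2 * (2 * M * c)) ≤ κ := by nlinarith
      linarith
    linarith

end Pool.Agent.LatLB
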