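import Pool.Agent.Lib_MP_02aa3f_lb.Gauss

/-!
# Equidistribution of rotated lattices through far points
-/

set_option autoImplicit false
open MeasureTheory Set Filter
open scoped ENNReal Real Topology

namespace Pool.Agent.LatLB

lemma norm_ex_neg_mul (θ : ℝ) (x : ℂ) : ‖ex θ * x‖ = ‖x‖ := by rw [norm_mul, norm_ex, one_mul]

lemma ex_eq_exp (θ : ℝ) : ex θ = Complex.exp (θ * Complex.I) := by
  rw [Complex.exp_mul_I]
  apply Complex.ext
  · simp [Complex.cos_ofReal_re, Complex.sin_ofReal_im]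
  · simp [Complex.cos_ofReal_im, Complex.sin_ofReal_re]

lemma ex_mul_ex_neg (θ : ℝ) : ex θ * ex (-θ) = 1 := by
  rw [ex_eq_exp, ex_eq_exp, ← Complex.exp_add]
  simp

lemma gs_rot (a : ℝ) (w : ℂ) (θ : ℝ) (m : ℤ × ℤ) :
    gs a (w + ex θ * zi m) = gs a (ex (-θ) * w + zi m) := by
  have h : w + ex θ * zi m = ex θ * (ex (-θ) * w + zi m) := by
    rw [mul_add, ← mul_assoc, ex_mul_ex_neg, one_mul]
  rw [h, gs, gs, norm_ex_neg_mul]

/-- the plane wave average -/
noncomputable def bs (r : ℝ) : ℂ := ∫ θ in Ii, Complex.exp (-(2 * π * (r * Real.cos θ)) * Complex.I)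

lemma setIntegral_shift (r β : ℝ) :
    ∫ θ in Ii, Complex.exp (-(2 * π * (r * Real.cos (β - θ))) * Complex.I) = bs r := by
  have hπ := Real.pi_pos
  set f : ℝ → ℂ := fun θ => Complex.exp (-(2 * π * (r * Real.cos θ)) * Complex.I) with hf
  have hper : Function.Periodic f (2 * π) := by
    intro θ
    simp only [hf, Real.cos_add_two_pi]
  have h1 : ∀ g : ℝ → ℂ, ∫ θ in Ii, g θ = ∫ θ in (0 : ℝ)..(2 * π), g θ := by
    intro g
    rw [Ii, integral_Ico_eq_integral_Ioc, intervalIntegral.integral_of_le (by positivity)]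
  rw [bs, h1, h1]
  change ∫ θ in (0 : ℝ)..(2 * π), f (β - θ) = ∫ θ in (0 : ℝ)..(2 * π), f θ
  rw [intervalIntegral.integral_comp_sub_left f β]
  have h2 := hper.intervalIntegral_add_eq (β - 2 * π) 0
  simp only [sub_add_cancel, zero_add] at h2
  rw [sub_zero]
  exact h2

lemma integral_ph (w : ℂ) (m : ℤ × ℤ) :
    ∫ θ in Ii, Complex.exp (-(2 * π * ph (ex (-θ) * w) m) * Complex.I) = bs (‖zi m‖ * ‖w‖) := by
  set c : ℂ := (starRingEnd ℂ) (zi m) * w with hc
  have hcn : ‖c‖ = ‖zi m‖ * ‖w‖ := by rw [hc, norm_mul, RCLike.norm_conj]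
  rw [← setIntegral_shift _ c.arg]
  apply integral_congr_ae
  filter_upwards with θ
  have h1 : ‖c‖ * Real.cos c.arg = c.re := Complex.norm_mul_cos_arg c
  have h2 : ‖c‖ * Real.sin c.arg = c.im := Complex.norm_mul_sin_arg c
  have h3 : ph (ex (-θ) * w) m = ‖zi m‖ * ‖w‖ * Real.cos (c.arg - θ) := by
    rw [Real.cos_sub, ← hcn]
    have h4 : ‖c‖ * (Real.cos c.arg * Real.cos θ + Real.sin c.arg * Real.sin θ) =
      (‖c‖ * Real.cos c.arg) * Real.cos θ + (‖c‖ * Real.sin c.arg) * Real.sin θ := by ring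
    rw [h4, h1, h2, ph, hc]
    simp only [Complex.mul_re, Complex.mul_im, ex_re, ex_im, Complex.conj_re, Complex.conj_im,
      Real.cos_neg, Real.sin_neg, zi_re, zi_im]
    ring
  rw [h3]
  push_cast
  rfl

lemma bs_zero : bs 0 = 2 * π := by
  rw [bs]
  simp [volume_Ii, Measure.real, Real.pi_pos.le]

/-- the integral over the rotations of the Gaussian sum -/
lemma integral_gs_eq {a : ℝ} (ha : 0 < a) (w : ℂ) :
    ((∫ θ in Ii, ∑' m : ℤ × ℤ, gs a (w + ex θ * zi m) : ℝ) : ℂ) =
      ∑' m : ℤ × ℤ, (cf a m : ℂ) * bs (‖zi m‖ * ‖w‖) := by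
  have hfin : IsFiniteMeasure (volume.restrict Ii) := by
    constructor
    rw [Measure.restrict_apply MeasurableSet.univ, univ_inter, volume_Ii]
    exact ENNReal.ofReal_lt_top
  rw [← integral_complex_ofReal]
  have h1 : ∀ θ : ℝ, ((∑' m : ℤ × ℤ, gs a (w + ex θ * zi m) : ℝ) : ℂ) =
      ∑' m : ℤ × ℤ, (cf a m : ℂ) * Complex.exp (-(2 * π * ph (ex (-θ) * w) m) * Complex.I) := by
    intro θ
    rw [← poisson2 ha]
    push_cast
    simp_rw [gs_rot]
  simp_rw [h1]
  have hcont : ∀ m : ℤ × ℤ, Continuous fun θ : ℝ =>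
      (cf a m : ℂ) * Complex.exp (-(2 * π * ph (ex (-θ) * w) m) * Complex.I) := by
    intro m
    have hc : Continuous fun θ : ℝ => ex (-θ) * w :=
      (continuous_ex.comp continuous_neg).mul continuous_const
    have hp : Continuous fun θ : ℝ => ph (ex (-θ) * w) m := by
      unfold ph
      exact ((Complex.continuous_re.comp hc).mul continuous_const).add
        ((Complex.continuous_im.comp hc).mul continuous_const)
    fun_prop
  have hnorm : ∀ (m : ℤ × ℤ) (θ : ℝ),
      ‖(cf a m : ℂ) * Complex.exp (-(2 * π * ph (ex (-θ) * w) m) * Complex.I)‖ = cf a m := by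
    intro m θ
    rw [norm_mul]
    have e1 : (-(2 * π * ph (ex (-θ) * w) m) * Complex.I : ℂ) =
        ((-(2 * π * ph (ex (-θ) * w) m) : ℝ) : ℂ) * Complex.I := by push_cast; ring
    rw [e1, Complex.norm_exp_ofReal_mul_I, mul_one, Complex.norm_real, Real.norm_eq_abs,
      abs_of_nonneg (by unfold cf; positivity)]
  rw [← integral_tsum_of_summable_integral_norm]
  · congr 1
    funext m
    rw [integral_const_mul, integral_ph]
  · intro m
    refine Integrable.mono' (integrable_const (cf a m)) (hcont m).aestronglyMeasurable ?_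
    filter_upwards with θ
    rw [hnorm]
  · simp_rw [hnorm]
    simp only [integral_const]
    exact (summable_cf ha).mul_left _

lemma norm_bs_le (r : ℝ) : ‖bs r‖ ≤ 2 * π := by
  rw [bs]
  refine (norm_integral_le_integral_norm _).trans ?_
  have : ∀ θ : ℝ, ‖Complex.exp (-(2 * π * (r * Real.cos θ)) * Complex.I)‖ = 1 := by
    intro θ
    have e1 : (-(2 * π * (r * Real.cos θ)) * Complex.I : ℂ) =
        ((-(2 * π * (r * Real.cos θ)) : ℝ) : ℂ) * Complex.I := by push_cast; ring
    rw [e1, Complex.norm_exp_ofReal_mul_I]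
  simp_rw [this]
  simp [volume_Ii, Measure.real, Real.pi_pos.le]

lemma tendsto_integral_gs {a : ℝ} (ha : 0 < a) :
    Tendsto (fun w : ℂ => ∫ θ in Ii, ∑' m : ℤ × ℤ, gs a (w + ex θ * zi m)) (cocompact ℂ)
      (𝓝 (2 * π)) := by
  have h1 : Tendsto (fun w : ℂ => ∑' m : ℤ × ℤ, (cf a m : ℂ) * bs (‖zi m‖ * ‖w‖)) (cocompact ℂ)
      (𝓝 (∑' m : ℤ × ℤ, if m = 0 then (2 * π : ℂ) else 0)) := by
    refine tendsto_tsum_of_dominated_convergence (bound := fun m => cf a m * (2 * π))
      ((summable_cf ha).mul_right _) ?_ ?_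
    · intro m
      by_cases hm : m = 0
      · rw [if_pos hm, hm]
        simp only [zi_zero, norm_zero, zero_mul, bs_zero]
        have : cf a 0 = 1 := by simp [cf]
        rw [this]
        simp
      · rw [if_neg hm]
        have hz : 0 < ‖zi m‖ := norm_pos_iff.mpr fun h => hm (zi_eq_zero.mp h)
        have h2 : Tendsto (fun w : ℂ => ‖zi m‖ * ‖w‖) (cocompact ℂ) atTop :=
          (tendsto_norm_cocompact_atTop).const_mul_atTop hz
        have h3 : Tendsto (fun w : ℂ => bs (‖zi m‖ * ‖w‖)) (cocompact ℂ) (𝓝 0) :=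
          (bessel_tendsto.comp (atTop_le_cocompact)).comp h2
        simpa using h3.const_mul (cf a m : ℂ)
    · filter_upwards with w m
      rw [norm_mul, Complex.norm_real, Real.norm_eq_abs, abs_of_nonneg (by unfold cf; positivity)]
      gcongr
      · unfold cf; positivity
      · exact norm_bs_le _
  rw [tsum_ite_eq] at h1
  have h2 : Tendsto (fun w : ℂ => ((∫ θ in Ii, ∑' m : ℤ × ℤ, gs a (w + ex θ * zi m) : ℝ) : ℂ))
      (cocompact ℂ) (𝓝 (2 * π : ℂ)) := by
    refine h1.congr fun w => ?_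
    rw [integral_gs_eq ha]
  have h3 := (Complex.continuous_re.tendsto _).comp h2
  have h4 : (2 * π : ℂ).re = 2 * π := by simp
  rw [h4] at h3
  exact h3.congr fun w => Complex.ofReal_re _

/-- far points see the whole circle of rotations equidistributed -/
lemma exists_far {a : ℝ} (ha : 0 < a) : ∃ r : ℝ, 0 < r ∧ ∀ w : ℂ, r ≤ ‖w‖ →
    ENNReal.ofReal π ≤ ∫⁻ θ in Ii, ∑' m : ℤ × ℤ, ENNReal.ofReal (gs a (w + ex θ * zi m)) := by
  have hπ := Real.pi_pos
  have h1 := (tendsto_integral_gs ha).eventually (lt_mem_nhds (show π < 2 * π by linarith))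
  rw [← Metric.cobounded_eq_cocompact, ← comap_norm_atTop, eventually_comap,
    eventually_atTop] at h1
  obtain ⟨r, hr⟩ := h1
  refine ⟨max r 1, lt_of_lt_of_le one_pos (le_max_right _ _), fun w hw => ?_⟩
  have h2 := hr ‖w‖ ((le_max_left _ _).trans hw) w rfl
  have hint : Integrable (fun θ => ∑' m : ℤ × ℤ, gs a (w + ex θ * zi m)) (volume.restrict Ii) := by
    by_contra hcon
    rw [integral_undef hcon] at h2
    linarith
  have h3 : ∀ θ : ℝ, ∑' m : ℤ × ℤ, ENNReal.ofReal (gs a (w + ex θ * zi m)) =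
      ENNReal.ofReal (∑' m : ℤ × ℤ, gs a (w + ex θ * zi m)) := by
    intro θ
    rw [ENNReal.ofReal_tsum_of_nonneg (fun m => gs_nonneg ha _)]
    simp_rw [gs_rot]
    exact summable_gs ha _
  simp_rw [h3]
  rw [← ofReal_integral_eq_lintegral_ofReal hint]
  · exact ENNReal.ofReal_le_ofReal h2.le
  · filter_upwards with θ
    exact tsum_nonneg fun m => gs_nonneg ha _

end Pool.Agent.LatLB
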