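import Pool.Agent.Lib_MP_02aa3f_lb.Gauss

/-!
# Mass and first moment of the Gaussian density
-/

set_option autoImplicit false
open MeasureTheory Set Filter
open scoped ENNReal Real Topology

namespace Pool.Agent.LatLB

lemma integral_gs {a : ℝ} (ha : 0 < a) : ∫ x : ℂ, gs a x = 1 := by
  have hπ := Real.pi_pos
  have h := Complex.integral_exp_neg_mul_rpow (p := 2) (b := π / a) (by norm_num) (by positivity)
  have h1 : ∀ x : ℂ, gs a x = 1 / a * Real.exp (-(π / a) * ‖x‖ ^ (2 : ℝ)) := by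
    intro x
    rw [gs]
    norm_num
  simp_rw [h1]
  rw [integral_const_mul, h]
  have e1 : (2 : ℝ) / 2 + 1 = 2 := by norm_num
  have e2 : (-2 : ℝ) / 2 = -1 := by norm_num
  rw [e1, e2, Real.Gamma_two, Real.rpow_neg_one]
  field_simp

lemma integral_norm_gs {a : ℝ} (ha : 0 < a) : ∫ x : ℂ, gs a x * ‖x‖ = √a / 2 := by
  have hπ := Real.pi_pos
  have h := Complex.integral_rpow_mul_exp_neg_mul_rpow (p := 2) (q := 1) (b := π / a)
    (by norm_num) (by norm_num) (by positivity)
  have h1 : ∀ x : ℂ, gs a x * ‖x‖ = 1 / a * (‖x‖ ^ (1 : ℝ) * Real.exp (-(π / a) * ‖x‖ ^ (2 : ℝ))) := by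
    intro x
    rw [gs]
    norm_num
    ring
  simp_rw [h1]
  rw [integral_const_mul, h]
  have e1 : ((1 : ℝ) + 2) / 2 = 1 / 2 + 1 := by norm_num
  have e2 : -((1 : ℝ) + 2) / 2 = -(1 + 1 / 2) := by norm_num
  rw [e1, e2, Real.Gamma_add_one (by norm_num), Real.Gamma_one_half_eq,
    Real.rpow_neg (by positivity), Real.rpow_add (by positivity), Real.rpow_one,
    ← Real.sqrt_eq_rpow, Real.sqrt_div' _ ha.le]
  have h2 : √π ≠ 0 := by positivity
  have h3 : √a ≠ 0 := by positivity
  have h4 : √a * √a = a := Real.mul_self_sqrt ha.le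
  have h5 : √π * √π = π := Real.mul_self_sqrt hπ.le
  field_simp

lemma lintegral_gs {a : ℝ} (ha : 0 < a) : ∫⁻ x : ℂ, ENNReal.ofReal (gs a x) = 1 := by
  have h := integral_gs ha
  have hint : Integrable (gs a) := by
    by_contra hcon
    rw [integral_undef hcon] at h
    norm_num at h
  rw [← ofReal_integral_eq_lintegral_ofReal hint (by filter_upwards with x using gs_nonneg ha x), h]
  simp

lemma lintegral_norm_gs {a P : ℝ} (ha : 0 < a) (hP : 0 ≤ P) :
    ∫⁻ x : ℂ, ENNReal.ofReal (gs a x) * ENNReal.ofReal (P * ‖x‖) = ENNReal.ofReal (P * (√a / 2)) := by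
  have h := integral_norm_gs ha
  have hint : Integrable (fun x : ℂ => gs a x * ‖x‖) := by
    by_contra hcon
    rw [integral_undef hcon] at h
    have : 0 < √a / 2 := by positivity
    linarith
  have h1 : ∀ x : ℂ, ENNReal.ofReal (gs a x) * ENNReal.ofReal (P * ‖x‖) =
      ENNReal.ofReal (P * (gs a x * ‖x‖)) := by
    intro x
    rw [← ENNReal.ofReal_mul (gs_nonneg ha x)]
    congr 1
    ring
  simp_rw [h1]
  rw [← ofReal_integral_eq_lintegral_ofReal (hint.const_mul P), integral_const_mul, h]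
  filter_upwards with x
  have := gs_nonneg ha x
  positivity

end Pool.Agent.LatLB
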