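import Pool.Agent.Lib_MP_02aa3f_lb.Equi
import Pool.Agent.Lib_MP_02aa3f_lb.GaussInt

/-!
# Two far parts of a nearly optimal lattice-catching set cannot both be large
-/

set_option autoImplicit false
open MeasureTheory Set Filter
open scoped ENNReal Real Topology

namespace Pool.Agent.LatLB

/-- number of points of `S` on the lattice with index `x`, rotated by `u` -/
noncomputable def Nn (S : Set ℂ) (u x : ℂ) : ℝ≥0∞ :=
  ∑' m : ℤ × ℤ, S.indicator (1 : ℂ → ℝ≥0∞) (u * (x + zi m))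

lemma measurable_Nn {S : Set ℂ} (hS : MeasurableSet S) (u : ℂ) : Measurable (Nn S u) :=
  Measurable.tsum fun m => (measurable_one.indicator hS).comp (by fun_prop)

lemma Nn_mono {S T : Set ℂ} (h : S ⊆ T) (u x : ℂ) : Nn S u x ≤ Nn T u x := by
  apply ENNReal.tsum_le_tsum
  intro m
  exact Set.indicator_le_indicator_of_subset h (fun _ => zero_le) _

lemma Nn_union_le (S T : Set ℂ) (u x : ℂ) : Nn (S ∪ T) u x ≤ Nn S u x + Nn T u x := by
  rw [Nn, Nn, Nn, ← ENNReal.tsum_add]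
  apply ENNReal.tsum_le_tsum
  intro m
  by_cases h1 : u * (x + zi m) ∈ S
  · rw [Set.indicator_of_mem (show u * (x + zi m) ∈ S ∪ T from Or.inl h1), Set.indicator_of_mem h1]
    exact le_self_add
  · by_cases h2 : u * (x + zi m) ∈ T
    · rw [Set.indicator_of_mem (show u * (x + zi m) ∈ S ∪ T from Or.inr h2), Set.indicator_of_mem h2]
      exact le_add_self
    · rw [Set.indicator_of_notMem (by simp [h1, h2])]
      exact zero_le

lemma Nn_add_le {S T E : Set ℂ} (hd : Disjoint S T) (hS : S ⊆ E) (hT : T ⊆ E) (u x : ℂ) :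
    Nn S u x + Nn T u x ≤ Nn E u x := by
  rw [Nn, Nn, Nn, ← ENNReal.tsum_add]
  apply ENNReal.tsum_le_tsum
  intro m
  by_cases h1 : u * (x + zi m) ∈ S
  · have h2 : u * (x + zi m) ∉ T := fun h => Set.disjoint_left.mp hd h1 h
    rw [Set.indicator_of_mem h1, Set.indicator_of_notMem h2, Set.indicator_of_mem (hS h1), add_zero]
  · rw [Set.indicator_of_notMem h1, zero_add]
    exact Set.indicator_le_indicator_of_subset hT (fun _ => zero_le) _

lemma one_le_Nn {S : Set ℂ} {u x : ℂ} {m : ℤ × ℤ} (h : u * (x + zi m) ∈ S) : 1 ≤ Nn S u x := by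
  refine le_trans ?_ (ENNReal.le_tsum m)
  rw [Set.indicator_of_mem h]
  rfl

lemma Nn_eq_zero_or {S : Set ℂ} (u x : ℂ) : Nn S u x = 0 ∨ 1 ≤ Nn S u x := by
  by_cases h : ∃ m, u * (x + zi m) ∈ S
  · obtain ⟨m, hm⟩ := h
    exact Or.inr (one_le_Nn hm)
  · left
    rw [Nn, ENNReal.tsum_eq_zero]
    intro m
    exact Set.indicator_of_notMem (fun hm => h ⟨m, hm⟩) _

lemma card_Icc_le (b : ℝ) : (Finset.Icc ⌈b - 1⌉ ⌊b + 1⌋).card ≤ 3 := by
  rw [Int.card_Icc]
  have h1 : (⌊b + 1⌋ : ℝ) ≤ b + 1 := Int.floor_le _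
  have h2 : b - 1 ≤ (⌈b - 1⌉ : ℝ) := Int.le_ceil _
  have h3 : ((⌊b + 1⌋ + 1 - ⌈b - 1⌉ : ℤ) : ℝ) ≤ 3 := by push_cast; linarith
  have h4 : ⌊b + 1⌋ + 1 - ⌈b - 1⌉ ≤ 3 := by exact_mod_cast h3
  omega

/-- a set in a disc of radius one contains at most nine points of a lattice -/
lemma Nn_le_nine {S : Set ℂ} {c : ℂ} (hS : ∀ x ∈ S, ‖x - c‖ ≤ 1) {u : ℂ} (hu : ‖u‖ = 1) (x : ℂ) :
    Nn S u x ≤ 9 := by
  have hu0 : u ≠ 0 := by rintro rfl; simp at hu
  set c' := u⁻¹ * c - x with hc'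
  set T : Finset (ℤ × ℤ) := Finset.Icc ⌈c'.re - 1⌉ ⌊c'.re + 1⌋ ×ˢ Finset.Icc ⌈c'.im - 1⌉ ⌊c'.im + 1⌋
    with hT
  have hmem : ∀ m, u * (x + zi m) ∈ S → m ∈ T := by
    intro m hm
    have h1 := hS _ hm
    have h2 : u * (x + zi m) - c = u * (zi m - c') := by
      rw [hc']; field_simp; ring
    rw [h2, norm_mul, hu, one_mul] at h1
    have h3 := (Complex.abs_re_le_norm _).trans h1
    have h4 := (Complex.abs_im_le_norm _).trans h1
    rw [Complex.sub_re, zi_re, abs_le] at h3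
    rw [Complex.sub_im, zi_im, abs_le] at h4
    rw [hT, Finset.mem_product, Finset.mem_Icc, Finset.mem_Icc]
    refine ⟨⟨Int.ceil_le.mpr (by linarith), Int.le_floor.mpr (by linarith)⟩,
      Int.ceil_le.mpr (by linarith), Int.le_floor.mpr (by linarith)⟩
  rw [Nn, tsum_eq_sum (s := T)]
  · calc ∑ m ∈ T, S.indicator (1 : ℂ → ℝ≥0∞) (u * (x + zi m)) ≤ ∑ m ∈ T, 1 := by
          apply Finset.sum_le_sum
          intro m _
          by_cases h : u * (x + zi m) ∈ S
          · rw [Set.indicator_of_mem h]; rfl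
          · rw [Set.indicator_of_notMem h]; exact zero_le
      _ = (T.card : ℝ≥0∞) := by simp
      _ ≤ 9 := by
          have h1 : T.card ≤ 9 := by
            rw [hT, Finset.card_product]
            calc _ ≤ 3 * 3 := Nat.mul_le_mul (card_Icc_le _) (card_Icc_le _)
              _ = 9 := by norm_num
          exact_mod_cast h1
  · intro m hm
    exact Set.indicator_of_notMem (fun h => hm (hmem m h)) _

lemma lintegral_Nn {S : Set ℂ} (hS : MeasurableSet S) {u : ℂ} (hu : ‖u‖ = 1) :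
    ∫⁻ x in Uq, Nn S u x = volume S := by
  unfold Nn
  rw [← lintegral_tile (fun y => S.indicator 1 (u * y))
    ((measurable_one.indicator hS).comp (by fun_prop))]
  have h1 := (mp_mul hu).lintegral_comp (f := S.indicator (1 : ℂ → ℝ≥0∞))
    (measurable_one.indicator hS)
  rw [h1, lintegral_indicator_one hS]

lemma Nn_periodic (S : Set ℂ) (u x : ℂ) (k : ℤ × ℤ) : Nn S u (x + zi k) = Nn S u x := by
  unfold Nn
  rw [← (Equiv.addLeft k).tsum_eq (fun m => S.indicator (1 : ℂ → ℝ≥0∞) (u * (x + zi m)))]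
  congr 1
  funext m
  rw [Equiv.coe_addLeft, zi_add, add_assoc]

/-- the integral of a product of two counting functions, unfolded -/
lemma lintegral_Nn_mul {S T : Set ℂ} (hS : MeasurableSet S) (hT : MeasurableSet T) {u : ℂ}
    (hu : ‖u‖ = 1) : ∫⁻ x in Uq, Nn S u x * Nn T u x =
      ∫⁻ z in T, ∑' m : ℤ × ℤ, S.indicator (1 : ℂ → ℝ≥0∞) (z + u * zi m) := by
  have hm : Measurable fun y : ℂ => T.indicator (1 : ℂ → ℝ≥0∞) (u * y) * Nn S u y :=
    ((measurable_one.indicator hT).comp (by fun_prop)).mul (measurable_Nn hS u)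
  have h1 : ∀ x : ℂ, Nn S u x * Nn T u x =
      ∑' m : ℤ × ℤ, (T.indicator (1 : ℂ → ℝ≥0∞) (u * (x + zi m)) * Nn S u (x + zi m)) := by
    intro x
    simp_rw [Nn_periodic]
    rw [ENNReal.tsum_mul_right, mul_comm]
    rfl
  simp_rw [h1]
  rw [← lintegral_tile _ hm]
  have hm2 : Measurable fun z : ℂ => T.indicator (1 : ℂ → ℝ≥0∞) z *
      ∑' m : ℤ × ℤ, S.indicator (1 : ℂ → ℝ≥0∞) (z + u * zi m) :=
    (measurable_one.indicator hT).mul
      (Measurable.tsum fun m => (measurable_one.indicator hS).comp (by fun_prop))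
  have h2 := (mp_mul hu).lintegral_comp hm2
  have h3 : ∀ y : ℂ, T.indicator (1 : ℂ → ℝ≥0∞) (u * y) * Nn S u y =
      T.indicator (1 : ℂ → ℝ≥0∞) (u * y) * ∑' m : ℤ × ℤ, S.indicator (1 : ℂ → ℝ≥0∞) (u * y + u * zi m) := by
    intro y
    rw [Nn]
    simp_rw [mul_add]
  simp_rw [h3]
  rw [h2, ← lintegral_indicator hT]
  congr 1
  funext z
  by_cases h : z ∈ T
  · rw [Set.indicator_of_mem h, Set.indicator_of_mem h]; simp
  · rw [Set.indicator_of_notMem h, Set.indicator_of_notMem h]; simp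

/-- the counting inequality for one rotation and one translation -/
lemma shift_le {E S1 S2 : Set ℂ} (hE : MeasurableSet E) (hc : Catch E) (hS1 : MeasurableSet S1)
    (h1 : S1 ⊆ E) (h2 : S2 ⊆ E) (hd : Disjoint S1 S2)
    (hb : ∀ x ∈ S1, ‖x‖ ≤ 1) {u : ℂ} (hu : ‖u‖ = 1) (s : ℂ) :
    (∫⁻ x in Uq, Nn ((fun y => y - s) ⁻¹' S1) u x * Nn S2 u x) + 18 ≤
      volume ((fun y => y - s) ⁻¹' S1 \ S1) + 18 * volume E := by
  set W := (fun y => y - s) ⁻¹' S1 \ S1 with hW
  have hS1s : MeasurableSet ((fun y : ℂ => y - s) ⁻¹' S1) := hS1.preimage (by fun_prop)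
  have hWm : MeasurableSet W := hS1s.diff hS1
  have h18 : (18 : ℝ≥0∞) = ∫⁻ _ in Uq, 18 := by
    rw [lintegral_const, Measure.restrict_apply MeasurableSet.univ, univ_inter, volume_Uq, mul_one]
  rw [← lintegral_Nn hWm hu, ← lintegral_Nn hE hu]
  conv_lhs => rw [h18]
  rw [← lintegral_add_right _ measurable_const, ← lintegral_const_mul _ (measurable_Nn hE u),
    ← lintegral_add_left (measurable_Nn hWm u)]
  apply lintegral_mono
  intro x
  simp only
  have hE1 : 1 ≤ Nn E u x := by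
    obtain ⟨m, hm⟩ := hc u hu (u * x)
    apply one_le_Nn (m := m)
    rw [mul_add]; exact hm
  -- the two estimates
  have a1 : Nn S1 u x * Nn S2 u x + 9 ≤ 9 * Nn E u x := by
    have hle := Nn_add_le hd h1 h2 u x
    have h9 := Nn_le_nine (S := S1) (c := 0) (by simpa using hb) hu x
    rcases Nn_eq_zero_or (S := S1) u x with h0 | h0
    · rw [h0, zero_mul, zero_add]
      calc (9 : ℝ≥0∞) = 9 * 1 := by norm_num
        _ ≤ 9 * Nn E u x := by gcongr
    · calc Nn S1 u x * Nn S2 u x + 9 ≤ 9 * Nn S2 u x + 9 * Nn S1 u x := by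
            refine add_le_add (by gcongr) ?_
            calc (9 : ℝ≥0∞) = 9 * 1 := by norm_num
              _ ≤ 9 * Nn S1 u x := by gcongr
        _ = 9 * (Nn S1 u x + Nn S2 u x) := by ring
        _ ≤ 9 * Nn E u x := by gcongr
  have a2 : Nn W u x * Nn S2 u x + 9 ≤ Nn W u x + 9 * Nn E u x := by
    have h9 : Nn W u x ≤ 9 := Nn_le_nine (c := s) (fun y hy => hb _ hy.1) hu x
    have hle : Nn S2 u x ≤ Nn E u x := Nn_mono h2 u x
    obtain ⟨k, hk⟩ := le_iff_exists_add.mp hE1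
    calc Nn W u x * Nn S2 u x + 9 ≤ Nn W u x * Nn E u x + 9 := by gcongr
      _ = Nn W u x + (Nn W u x * k + 9) := by rw [hk]; ring
      _ ≤ Nn W u x + (9 * k + 9) := by gcongr
      _ = Nn W u x + 9 * Nn E u x := by rw [hk]; ring
  have a3 : Nn ((fun y => y - s) ⁻¹' S1) u x ≤ Nn S1 u x + Nn W u x := by
    refine (Nn_mono ?_ u x).trans (Nn_union_le S1 W u x)
    intro y hy
    by_cases h : y ∈ S1
    · exact Or.inl h
    · exact Or.inr ⟨hy, h⟩
  calc Nn ((fun y => y - s) ⁻¹' S1) u x * Nn S2 u x + 18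
      ≤ (Nn S1 u x + Nn W u x) * Nn S2 u x + 18 := by gcongr
    _ = (Nn S1 u x * Nn S2 u x + 9) + (Nn W u x * Nn S2 u x + 9) := by ring
    _ ≤ 9 * Nn E u x + (Nn W u x + 9 * Nn E u x) := add_le_add a1 a2
    _ = Nn W u x + 18 * Nn E u x := by ring

/-- the number of points weighted with a Gaussian -/
noncomputable def kk (a θ : ℝ) (w : ℂ) : ℝ≥0∞ :=
  ∑' m : ℤ × ℤ, ENNReal.ofReal (gs a (w + ex θ * zi m))

lemma measurable_kk (a : ℝ) : Measurable fun p : ℝ × ℂ => kk a p.1 p.2 := by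
  unfold kk
  exact Measurable.tsum fun m => ENNReal.measurable_ofReal.comp (by fun_prop)

/-- unfolding the smoothed correlation for one rotation -/
lemma smooth_eq {S1 S2 : Set ℂ} (hS1 : MeasurableSet S1) (hS2 : MeasurableSet S2) (a θ : ℝ) :
    ∫⁻ s : ℂ, ENNReal.ofReal (gs a s) *
      ∫⁻ x in Uq, Nn ((fun y => y - s) ⁻¹' S1) (ex θ) x * Nn S2 (ex θ) x =
    ∫⁻ z in S2, ∫⁻ y in S1, kk a θ (z - y) := by
  have hS1s : ∀ s : ℂ, MeasurableSet ((fun y : ℂ => y - s) ⁻¹' S1) :=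
    fun s => hS1.preimage (by fun_prop)
  have h1 : ∀ s : ℂ, ENNReal.ofReal (gs a s) *
      ∫⁻ x in Uq, Nn ((fun y => y - s) ⁻¹' S1) (ex θ) x * Nn S2 (ex θ) x =
      ∫⁻ z in S2, ENNReal.ofReal (gs a s) * ∑' m : ℤ × ℤ,
        S1.indicator (1 : ℂ → ℝ≥0∞) (z + ex θ * zi m - s) := by
    intro s
    rw [lintegral_Nn_mul (hS1s s) hS2 (norm_ex θ), lintegral_const_mul]
    · rfl
    · exact Measurable.tsum fun m => (measurable_one.indicator hS1).comp (by fun_prop)
  simp_rw [h1]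
  rw [lintegral_lintegral_swap]
  · apply lintegral_congr
    intro z
    have h2 : ∀ s : ℂ, ENNReal.ofReal (gs a s) * ∑' m : ℤ × ℤ,
        S1.indicator (1 : ℂ → ℝ≥0∞) (z + ex θ * zi m - s) =
        ∑' m : ℤ × ℤ, ENNReal.ofReal (gs a s) * S1.indicator (1 : ℂ → ℝ≥0∞) (z + ex θ * zi m - s) :=
      fun s => (ENNReal.tsum_mul_left).symm
    simp_rw [h2]
    have hm1 : ∀ m : ℤ × ℤ, Measurable fun s : ℂ =>
        ENNReal.ofReal (gs a s) * S1.indicator (1 : ℂ → ℝ≥0∞) (z + ex θ * zi m - s) := by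
      intro m
      exact (ENNReal.measurable_ofReal.comp (measurable_gs a)).mul
        ((measurable_one.indicator hS1).comp (by fun_prop))
    rw [lintegral_tsum (fun m => (hm1 m).aemeasurable)]
    unfold kk
    rw [lintegral_tsum]
    · congr 1
      funext m
      have h3 := (Measure.measurePreserving_sub_left volume (z + ex θ * zi m)).lintegral_comp (hm1 m)
      rw [← h3, ← lintegral_indicator hS1]
      apply lintegral_congr
      intro y
      have e1 : z + ex θ * zi m - (z + ex θ * zi m - y) = y := by ring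
      have e2 : z + ex θ * zi m - y = z - y + ex θ * zi m := by ring
      rw [e1]
      by_cases hy : y ∈ S1
      · rw [Set.indicator_of_mem hy, Set.indicator_of_mem hy, Pi.one_apply, mul_one, e2]
      · rw [Set.indicator_of_notMem hy, Set.indicator_of_notMem hy, mul_zero]
    · intro m
      exact (ENNReal.measurable_ofReal.comp (by fun_prop)).aemeasurable
  · apply Measurable.aemeasurable
    unfold Function.uncurry
    exact (ENNReal.measurable_ofReal.comp ((measurable_gs a).comp measurable_fst)).mul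
      (Measurable.tsum fun m => (measurable_one.indicator hS1).comp (by fun_prop))

lemma kk_def (a θ : ℝ) (w : ℂ) :
    kk a θ w = ∑' m : ℤ × ℤ, ENNReal.ofReal (gs a (w + ex θ * zi m)) := rfl

attribute [irreducible] kk

/-- the smoothed correlation for one rotation is small -/
lemma one_rot {E S1 S2 : Set ℂ} (hE : MeasurableSet E) (hc : Catch E) (hS1 : MeasurableSet S1)
    (hS2 : MeasurableSet S2) (h1 : S1 ⊆ E) (h2 : S2 ⊆ E) (hd : Disjoint S1 S2)
    (hb : ∀ x ∈ S1, ‖x‖ ≤ 1) {a : ℝ} (ha : 0 < a) {P : ℝ} (hP0 : 0 ≤ P)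
    (hP : ∀ s : ℂ, volume ((fun y => y - s) ⁻¹' S1 \ S1) ≤ ENNReal.ofReal (P * ‖s‖)) (θ : ℝ) :
    (∫⁻ z in S2, ∫⁻ y in S1, kk a θ (z - y)) + 18 ≤
      ENNReal.ofReal (P * (√a / 2)) + 18 * volume E := by
  have hcont : Measurable fun s : ℂ => ENNReal.ofReal (gs a s) :=
    ENNReal.measurable_ofReal.comp (measurable_gs a)
  rw [← smooth_eq hS1 hS2]
  have e18 : ∫⁻ s : ℂ, ENNReal.ofReal (gs a s) * 18 = 18 := by
    rw [lintegral_mul_const _ hcont, lintegral_gs ha, one_mul]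
  have b1 : (∫⁻ s : ℂ, ENNReal.ofReal (gs a s) *
        ∫⁻ x in Uq, Nn ((fun y => y - s) ⁻¹' S1) (ex θ) x * Nn S2 (ex θ) x) + 18
      = ∫⁻ s : ℂ, (ENNReal.ofReal (gs a s) *
          (∫⁻ x in Uq, Nn ((fun y => y - s) ⁻¹' S1) (ex θ) x * Nn S2 (ex θ) x) +
          ENNReal.ofReal (gs a s) * 18) := by
    rw [lintegral_add_right _ (hcont.mul_const _), e18]
  have b2 : ∫⁻ s : ℂ, (ENNReal.ofReal (gs a s) * ENNReal.ofReal (P * ‖s‖) +
          ENNReal.ofReal (gs a s) * (18 * volume E)) =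
      ENNReal.ofReal (P * (√a / 2)) + 18 * volume E := by
    rw [lintegral_add_right _ (hcont.mul_const _), lintegral_norm_gs ha hP0,
      lintegral_mul_const _ hcont, lintegral_gs ha, one_mul]
  rw [b1, ← b2]
  apply lintegral_mono
  intro s
  have b3 := (shift_le hE hc hS1 h1 h2 hd hb (norm_ex θ) s).trans
    (add_le_add (hP s) (le_refl (18 * volume E)))
  have b4 := mul_le_mul' (le_refl (ENNReal.ofReal (gs a s))) b3
  rw [mul_add, mul_add] at b4
  exact b4

/-- the lower bound for the smoothed correlation of far parts -/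
lemma all_rot {S1 S2 : Set ℂ} (hS1 : MeasurableSet S1) (hS2 : MeasurableSet S2)
    (hb : ∀ x ∈ S1, ‖x‖ ≤ 1) {a r : ℝ}
    (hr : ∀ w : ℂ, r ≤ ‖w‖ →
      ENNReal.ofReal π ≤ ∫⁻ θ in Ii, ∑' m : ℤ × ℤ, ENNReal.ofReal (gs a (w + ex θ * zi m)))
    (hfar : ∀ z ∈ S2, r + 1 ≤ ‖z‖) :
    ENNReal.ofReal π * (volume S1 * volume S2) ≤
      ∫⁻ θ in Ii, ∫⁻ z in S2, ∫⁻ y in S1, kk a θ (z - y) := by
  have hm3 : Measurable fun p : (ℝ × ℂ) × ℂ => kk a p.1.1 (p.1.2 - p.2) :=
    (measurable_kk a).comp (by fun_prop : Measurable fun p : (ℝ × ℂ) × ℂ => (p.1.1, p.1.2 - p.2))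
  have hm2 : Measurable fun p : ℝ × ℂ => ∫⁻ y in S1, kk a p.1 (p.2 - y) :=
    hm3.lintegral_prod_right'
  rw [lintegral_lintegral_swap hm2.aemeasurable]
  have e1 : ENNReal.ofReal π * (volume S1 * volume S2) = ∫⁻ _ in S2, ENNReal.ofReal π * volume S1 := by
    rw [setLIntegral_const]; ring
  rw [e1]
  apply setLIntegral_mono' hS2
  intro z hz
  have hm4 : Measurable fun p : ℝ × ℂ => kk a p.1 (z - p.2) :=
    (measurable_kk a).comp (by fun_prop : Measurable fun p : ℝ × ℂ => (p.1, z - p.2))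
  rw [lintegral_lintegral_swap hm4.aemeasurable, ← setLIntegral_const]
  apply setLIntegral_mono' hS1
  intro y hy
  have b1 := hb y hy
  have b2 := hfar z hz
  have b3 := norm_sub_norm_le z y
  have b4 := hr (z - y) (by linarith)
  simp_rw [← kk_def] at b4
  exact b4

/-- Two far parts cannot both be large. -/
lemma far_le {E S1 S2 : Set ℂ} (hE : MeasurableSet E) (hc : Catch E) (hS1 : MeasurableSet S1)
    (hS2 : MeasurableSet S2) (h1 : S1 ⊆ E) (h2 : S2 ⊆ E) (hb : ∀ x ∈ S1, ‖x‖ ≤ 1)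
    {a r : ℝ} (ha : 0 < a) (hr0 : 0 < r)
    (hr : ∀ w : ℂ, r ≤ ‖w‖ →
      ENNReal.ofReal π ≤ ∫⁻ θ in Ii, ∑' m : ℤ × ℤ, ENNReal.ofReal (gs a (w + ex θ * zi m)))
    (hfar : ∀ z ∈ S2, r + 1 ≤ ‖z‖) {P : ℝ} (hP0 : 0 ≤ P)
    (hP : ∀ s : ℂ, volume ((fun y => y - s) ⁻¹' S1 \ S1) ≤ ENNReal.ofReal (P * ‖s‖)) :
    ENNReal.ofReal π * (volume S1 * volume S2) + 18 * ENNReal.ofReal (2 * π) ≤
      (ENNReal.ofReal (P * (√a / 2)) + 18 * volume E) * ENNReal.ofReal (2 * π) := by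
  have hd : Disjoint S1 S2 := by
    rw [Set.disjoint_left]
    intro x hx1 hx2
    have b1 := hb x hx1
    have b2 := hfar x hx2
    linarith
  have hint : ∫⁻ θ in Ii, ((∫⁻ z in S2, ∫⁻ y in S1, kk a θ (z - y)) + 18) ≤
      (ENNReal.ofReal (P * (√a / 2)) + 18 * volume E) * ENNReal.ofReal (2 * π) := by
    refine (lintegral_mono (one_rot hE hc hS1 hS2 h1 h2 hd hb ha hP0 hP)).trans ?_
    rw [lintegral_const, Measure.restrict_apply MeasurableSet.univ, univ_inter, volume_Ii]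
  refine le_trans ?_ hint
  rw [lintegral_add_right _ measurable_const, lintegral_const,
    Measure.restrict_apply MeasurableSet.univ, univ_inter, volume_Ii]
  exact add_le_add (all_rot hS1 hS2 hb hr hfar) le_rfl

end Pool.Agent.LatLB
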