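import Pool.Agent.Lib_MP_02aa3f_lb.Integrate

/-!
# Lower bounds for lattice-catching sets: conclusion in the complex plane
-/

set_option autoImplicit false
open MeasureTheory Set Filter
open scoped ENNReal Real Topology symmDiff

namespace Pool.Agent.LatLB

/-- The integrated inequality for real numbers. -/
lemma real_ineq {E B : Set ℂ} (hE : MeasurableSet E) (hB : MeasurableSet B) (hBE : B ⊆ E)
    (hc : Catch E) {R : ℝ} {h : ℂ} {K : ℕ}
    (hK1 : 1 ≤ K) (hK : 2 * R + ‖h‖ ≤ K) {δ γ α : ℝ} (hδ : 0 ≤ δ) (hγ : 0 ≤ γ) (hα : 0 ≤ α)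
    (hd : ∀ u : ℂ, ‖u‖ = 1 → volume (Dd E u) ≤ ENNReal.ofReal δ)
    (hg : volume (Gx B R h ∪ E \ B) ≤ ENNReal.ofReal γ)
    (hg' : volume (Gx B R (-h) ∪ E \ B) ≤ ENNReal.ofReal γ)
    (hA : volume (Aa B R h) = ENNReal.ofReal α) :
    3 / 4 * α ≤ 4 * δ + 2 * γ + 262 * K ^ 4 * α ^ 2 := by
  have hπ := Real.pi_pos
  have hπ2 : 9.8 ≤ π ^ 2 := by nlinarith [Real.pi_gt_d2]
  obtain ⟨M, hM⟩ : ∃ M : ℝ, M = ((M0 K).card : ℝ) := ⟨_, rfl⟩
  have hMe : M = 4 * K * (K + 1) := by rw [hM, card_M0]; push_cast; ring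
  have hKr : (1 : ℝ) ≤ K := by exact_mod_cast hK1
  have hMpos : 0 < M := by rw [hMe]; positivity
  have hM8 : M ≤ 8 * K ^ 2 := by rw [hMe]; nlinarith
  obtain ⟨s, hs⟩ : ∃ s : ℝ, s = 1 / (10 * M) := ⟨_, rfl⟩
  have hspos : 0 < s := by rw [hs]; positivity
  have hint := integrated hE hB hBE hc hK hd hg hg' hspos
  rw [hA] at hint
  have hdg : (4 * ENNReal.ofReal δ + 2 * ENNReal.ofReal γ) = ENNReal.ofReal (4 * δ + 2 * γ) := by
    rw [ENNReal.ofReal_add (by positivity) (by positivity), ENNReal.ofReal_mul (by norm_num),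
      ENNReal.ofReal_mul (by norm_num)]
    simp
  have hcard : ((M0 K).card : ℝ≥0∞) = ENNReal.ofReal M := by rw [hM]; simp
  have hsum : ∑ m ∈ M0 K, ∑ n ∈ M0 K, ENNReal.ofReal α *
        (2 * ENNReal.ofReal α / ENNReal.ofReal (s * (‖zi m‖ * ‖zi n‖))) =
      ENNReal.ofReal (2 * α ^ 2 / s * (∑ m ∈ M0 K, (‖zi m‖)⁻¹) ^ 2) := by
    have h1 : ∀ m ∈ M0 K, ∀ n ∈ M0 K, ENNReal.ofReal α *
        (2 * ENNReal.ofReal α / ENNReal.ofReal (s * (‖zi m‖ * ‖zi n‖))) =
        ENNReal.ofReal (2 * α ^ 2 / s * ((‖zi m‖)⁻¹ * (‖zi n‖)⁻¹)) := by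
      intro m hm n hn
      have a1 : 0 < ‖zi m‖ := norm_pos_iff.mpr (fun h0 => ne_zero_of_mem_M0 hm (zi_eq_zero.mp h0))
      have a2 : 0 < ‖zi n‖ := norm_pos_iff.mpr (fun h0 => ne_zero_of_mem_M0 hn (zi_eq_zero.mp h0))
      have e1 : (2 : ℝ≥0∞) * ENNReal.ofReal α = ENNReal.ofReal (2 * α) := by
        rw [ENNReal.ofReal_mul (by norm_num)]; simp
      rw [e1, ← ENNReal.ofReal_div_of_pos (by positivity), ← ENNReal.ofReal_mul hα]
      congr 1
      field_simp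
    rw [Finset.sum_congr rfl (fun m hm => Finset.sum_congr rfl (h1 m hm))]
    rw [sq (∑ m ∈ M0 K, (‖zi m‖)⁻¹), Finset.sum_mul_sum, Finset.mul_sum]
    rw [ENNReal.ofReal_sum_of_nonneg]
    · apply Finset.sum_congr rfl
      intro m _
      rw [Finset.mul_sum, ENNReal.ofReal_sum_of_nonneg]
      intro n _
      positivity
    · intro m _
      have : 0 ≤ ∑ j ∈ M0 K, (‖zi m‖)⁻¹ * (‖zi j‖)⁻¹ :=
        Finset.sum_nonneg (fun _ _ => by positivity)
      positivity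
  rw [hdg, hcard, hsum] at hint
  rw [← ENNReal.ofReal_mul (by positivity), ← ENNReal.ofReal_mul (by positivity),
    ← ENNReal.ofReal_mul (by positivity), ← ENNReal.ofReal_mul (by positivity),
    ← ENNReal.ofReal_mul (by positivity), ← ENNReal.ofReal_add (by positivity) (by positivity),
    ← ENNReal.ofReal_mul (by positivity),
    ← ENNReal.ofReal_add (by positivity) (by positivity)] at hint
  rw [ENNReal.ofReal_le_ofReal_iff (by positivity)] at hint
  have hS0 : 0 ≤ ∑ m ∈ M0 K, (‖zi m‖)⁻¹ := Finset.sum_nonneg (fun _ _ => by positivity)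
  have hS1 : (∑ m ∈ M0 K, (‖zi m‖)⁻¹) ^ 2 ≤ 64 * K ^ 2 := by
    have := sum_inv_M0 K
    nlinarith
  have h3 : 2 * α ^ 2 / s * (∑ m ∈ M0 K, (‖zi m‖)⁻¹) ^ 2 ≤ 10240 * α ^ 2 * K ^ 4 := by
    calc 2 * α ^ 2 / s * (∑ m ∈ M0 K, (‖zi m‖)⁻¹) ^ 2
        ≤ 2 * α ^ 2 / s * (64 * K ^ 2) := by gcongr
      _ = 1280 * α ^ 2 * K ^ 2 * M := by
          rw [hs]; field_simp; ring
      _ ≤ 1280 * α ^ 2 * K ^ 2 * (8 * K ^ 2) := by gcongr
      _ = 10240 * α ^ 2 * K ^ 4 := by ring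
  have h4 : α * (M * (5 * π * s)) = α * π / 2 := by
    rw [hs]; field_simp; ring
  rw [h4] at hint
  have h5 : 4 * π ^ 2 * α ≤ 4 * π ^ 2 * (4 * δ + 2 * γ) + π ^ 2 * α + 10240 * α ^ 2 * K ^ 4 := by
    nlinarith
  have h6 : 10240 * α ^ 2 * (K : ℝ) ^ 4 ≤ 4 * π ^ 2 * (262 * K ^ 4 * α ^ 2) := by
    have : 0 ≤ α ^ 2 * (K : ℝ) ^ 4 := by positivity
    nlinarith
  have h7 : 4 * π ^ 2 * (3 / 4 * α) ≤ 4 * π ^ 2 * (4 * δ + 2 * γ + 262 * K ^ 4 * α ^ 2) := by
    nlinarith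
  exact le_of_mul_le_mul_left h7 (by positivity)

/-- The area of `Aa E R t` depends continuously on `t`. -/
lemma continuous_Aa {E : Set ℂ} (hE : MeasurableSet E) (hfin : volume E ≠ ∞) (R : ℝ) :
    Continuous fun t : ℝ => volume.real (Aa E R (t : ℂ)) := by
  rw [continuous_iff_continuousAt]
  intro t₀
  set f : ℝ → C(ℂ, ℂ) := fun t => ⟨fun x => x + (t : ℂ), by fun_prop⟩ with hf
  have hfc : Continuous f := by
    apply ContinuousMap.continuous_of_continuous_uncurry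
    have : (Function.uncurry fun x y => (f x) y) = fun p : ℝ × ℂ => p.2 + (p.1 : ℂ) := rfl
    rw [this]
    fun_prop
  have hmp : ∀ t, MeasurePreserving (f t) volume volume := fun t => measurePreserving_add_right _ _
  have h1 : Tendsto (fun t => volume ((f t ⁻¹' E) ∆ (f t₀ ⁻¹' E))) (𝓝 t₀) (𝓝 0) :=
    tendsto_measure_symmDiff_preimage_nhds_zero (hfc.tendsto t₀)
      (Eventually.of_forall hmp) (hmp t₀) hE.nullMeasurableSet hfin
  have h2 : Tendsto (fun t => volume.real ((f t ⁻¹' E) ∆ (f t₀ ⁻¹' E))) (𝓝 t₀) (𝓝 0) := by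
    have h3 := (ENNReal.tendsto_toReal ENNReal.zero_ne_top).comp h1
    rw [ENNReal.toReal_zero] at h3
    exact h3
  rw [ContinuousAt, tendsto_iff_dist_tendsto_zero]
  refine squeeze_zero (fun _ => dist_nonneg) (fun t => ?_) h2
  have hAfin : ∀ t : ℝ, volume (Aa E R (t : ℂ)) ≠ ∞ := fun t =>
    ne_top_of_le_ne_top hfin (measure_mono fun x hx => hx.1)
  have hpf : ∀ t, volume (f t ⁻¹' E) ≠ ∞ := fun t => by
    rw [(hmp t).measure_preimage hE.nullMeasurableSet]; exact hfin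
  rw [Real.dist_eq]
  refine (abs_measureReal_sub_le_measureReal_symmDiff' (measurableSet_Aa hE R _).nullMeasurableSet
    (measurableSet_Aa hE R _).nullMeasurableSet (hAfin _) (hAfin _)).trans ?_
  apply measureReal_mono
  · intro x hx
    rw [Set.mem_symmDiff] at hx ⊢
    simp only [Aa, mem_ofPred_eq, mem_preimage] at hx ⊢
    change (x + (t : ℂ) ∈ E ∧ ¬ (x + (t₀ : ℂ) ∈ E)) ∨ (x + (t₀ : ℂ) ∈ E ∧ ¬ (x + (t : ℂ) ∈ E))
    tauto
  · exact (lt_of_le_of_lt (measure_mono symmDiff_subset_union) ((measure_union_le _ _).trans_lt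
      (ENNReal.add_lt_top.mpr ⟨(hpf _).lt_top, (hpf _).lt_top⟩))).ne

/-- The dichotomy in the complex plane. -/
theorem main {E : Set ℂ} (hE : MeasurableSet E) (hc : Catch E) {R : ℝ} (hR : 1 ≤ R) :
    ENNReal.ofReal (1 + 1 / (3 * 10 ^ 7 * R ^ 4)) ≤ volume E ∨
      ENNReal.ofReal (1 / (3 * 10 ^ 7 * R ^ 4)) ≤ volume (Gg E R) := by
  by_contra hcon
  push Not at hcon
  obtain ⟨h1, h2⟩ := hcon
  have hR0 : 0 < R := by linarith
  set η : ℝ := 1 / (3 * 10 ^ 7 * R ^ 4) with hη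
  have hηpos : 0 < η := by positivity
  have hR4 : 1 ≤ R ^ 4 := one_le_pow₀ hR
  have hη1 : η ≤ 1 / (3 * 10 ^ 7) := by
    rw [hη]
    apply one_div_le_one_div_of_le (by positivity)
    nlinarith
  have hfin : volume E ≠ ∞ := (h1.trans ENNReal.ofReal_lt_top).ne
  set a : ℝ := volume.real E with ha
  have hEa : volume E = ENNReal.ofReal a := by rw [ha, measureReal_def, ENNReal.ofReal_toReal hfin]
  have ha0 : 0 ≤ a := measureReal_nonneg
  have hau : a < 1 + η := by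
    rw [hEa, ENNReal.ofReal_lt_ofReal_iff (by positivity)] at h1
    exact h1
  have htwo : ∀ u : ℂ, ‖u‖ = 1 → volume (Dd E u) + 2 ≤ 2 * volume E :=
    fun u hu => two_le_of_catch hE hu (hc u hu)
  have hal : 1 ≤ a := by
    have := (le_add_self).trans (htwo 1 (by simp))
    rw [hEa] at this
    have h3 : (2 : ℝ≥0∞) = ENNReal.ofReal 2 := by simp
    rw [h3, ← ENNReal.ofReal_mul (by norm_num), ENNReal.ofReal_le_ofReal_iff (by positivity)] at this
    linarith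
  have hd : ∀ u : ℂ, ‖u‖ = 1 → volume (Dd E u) ≤ ENNReal.ofReal (2 * η) := by
    intro u hu
    have h3 := htwo u hu
    have h4 : (2 : ℝ≥0∞) = ENNReal.ofReal 2 := by simp
    have h5 : volume (Dd E u) ≤ 2 * volume E - 2 := ENNReal.le_sub_of_add_le_right (by simp) h3
    refine h5.trans ?_
    rw [hEa, h4, ← ENNReal.ofReal_mul (by norm_num), ← ENNReal.ofReal_sub _ (by norm_num)]
    apply ENNReal.ofReal_le_ofReal
    linarith
  -- the tail
  have hEGfin : volume (Gg E R) ≠ ∞ := (h2.trans ENNReal.ofReal_lt_top).ne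
  -- intermediate value
  set F : ℝ → ℝ := fun t => volume.real (Aa E R (t : ℂ)) with hF
  have hFc : Continuous F := continuous_Aa hE hfin R
  have hF0 : F 0 = 0 := by
    have : Aa E R ((0 : ℝ) : ℂ) = ∅ := by
      ext x
      simp only [Aa, mem_ofPred_eq, Complex.ofReal_zero, add_zero, mem_empty_iff_false, iff_false]
      tauto
    rw [hF]
    simp only
    rw [this]
    simp
  have hAfin : ∀ t : ℝ, volume (Aa E R (t : ℂ)) ≠ ∞ := fun t =>
    ne_top_of_le_ne_top hfin (measure_mono fun x hx => hx.1)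
  have hF1 : 1 / 2 ≤ F (2 * R + 1) := by
    have hsub : E ⊆ Aa E R ((2 * R + 1 : ℝ) : ℂ) ∪ (Gg E R ∪ (fun x => x + ((2 * R + 1 : ℝ) : ℂ)) ⁻¹' Gg E R) := by
      intro x hx
      by_cases hxR : ‖x‖ ≤ R
      · by_cases hxt : x + ((2 * R + 1 : ℝ) : ℂ) ∈ E
        · right; right
          refine ⟨hxt, ?_⟩
          have e1 : ‖((2 * R + 1 : ℝ) : ℂ)‖ = 2 * R + 1 := by
            rw [Complex.norm_real, Real.norm_eq_abs, abs_of_nonneg (by positivity)]
          have e2 : ((2 * R + 1 : ℝ) : ℂ) = (x + ((2 * R + 1 : ℝ) : ℂ)) - x := by ring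
          have e3 := norm_sub_le (x + ((2 * R + 1 : ℝ) : ℂ)) x
          rw [← e2, e1] at e3
          linarith
        · left; exact ⟨hx, hxR, hxt⟩
      · right; left; exact ⟨hx, not_le.mp hxR⟩
    have hle := (measure_mono (μ := (volume : Measure ℂ)) hsub).trans ((measure_union_le _ _).trans
      (add_le_add le_rfl (measure_union_le _ _)))
    rw [(measurePreserving_add_right volume ((2 * R + 1 : ℝ) : ℂ)).measure_preimage
      (measurableSet_Gg hE R).nullMeasurableSet] at hle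
    have hgr : volume.real (Gg E R) ≤ η := by
      rw [measureReal_def]
      exact (ENNReal.toReal_lt_of_lt_ofReal h2).le
    have hle2 : a ≤ F (2 * R + 1) + (volume.real (Gg E R) + volume.real (Gg E R)) := by
      have h3 := ENNReal.toReal_mono (ENNReal.add_ne_top.mpr ⟨hAfin (2 * R + 1),
        ENNReal.add_ne_top.mpr ⟨hEGfin, hEGfin⟩⟩) hle
      rw [ENNReal.toReal_add (hAfin _) (ENNReal.add_ne_top.mpr ⟨hEGfin, hEGfin⟩),
        ENNReal.toReal_add hEGfin hEGfin] at h3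
      exact h3
    have : η ≤ 1 / 4 := hη1.trans (by norm_num)
    linarith
  have hmem : 20 * η ∈ Icc (F 0) (F (2 * R + 1)) := by
    rw [hF0]
    refine ⟨by positivity, le_trans ?_ hF1⟩
    have : 20 * η ≤ 20 * (1 / (3 * 10 ^ 7)) := by gcongr
    refine this.trans (by norm_num)
  obtain ⟨t, ht, hFt⟩ := intermediate_value_Icc (by positivity : (0 : ℝ) ≤ 2 * R + 1)
    hFc.continuousOn hmem
  -- the inequality
  set K : ℕ := ⌈4 * R + 1⌉₊ with hKdef
  have hK1 : 4 * R + 1 ≤ K := Nat.le_ceil _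
  have hK2 : (K : ℝ) < 4 * R + 1 + 1 := Nat.ceil_lt_add_one (by positivity)
  have hK6 : (K : ℝ) ≤ 6 * R := by linarith
  have hK3 : 1 ≤ K := by
    have : (1 : ℝ) ≤ K := by linarith
    exact_mod_cast this
  have hnorm : ‖(t : ℂ)‖ = t := by
    rw [Complex.norm_real, Real.norm_eq_abs, abs_of_nonneg ht.1]
  have hKK : 2 * R + ‖(t : ℂ)‖ ≤ K := by
    rw [hnorm]; linarith [ht.2]
  have hAt : volume (Aa E R (t : ℂ)) = ENNReal.ofReal (20 * η) := by
    rw [← hFt, hF]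
    simp only
    rw [measureReal_def, ENNReal.ofReal_toReal (hAfin t)]
  have hGE : ∀ h : ℂ, volume (Gx E R h ∪ E \ E) ≤ ENNReal.ofReal η := by
    intro h
    rw [diff_self, union_empty]
    exact (measure_mono (Gx_subset E R _)).trans h2.le
  have hfinal := real_ineq hE hE subset_rfl hc hK3 hKK (δ := 2 * η) (γ := η) (α := 20 * η)
    (by positivity) hηpos.le (by positivity) hd (hGE _) (hGE _) hAt
  have hK4 : (K : ℝ) ^ 4 ≤ 1296 * R ^ 4 := by
    calc (K : ℝ) ^ 4 ≤ (6 * R) ^ 4 := by gcongr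
      _ = 1296 * R ^ 4 := by ring
  have hηR : η * R ^ 4 = 1 / (3 * 10 ^ 7) := by
    rw [hη]; field_simp
  have h8 : 262 * (K : ℝ) ^ 4 * (20 * η) ^ 2 ≤ 262 * (1296 * R ^ 4) * (20 * η) ^ 2 := by gcongr
  have h9 : 262 * (1296 * R ^ 4) * (20 * η) ^ 2 = 262 * 1296 * 400 * (1 / (3 * 10 ^ 7)) * η := by
    rw [← hηR]; ring
  nlinarith

end Pool.Agent.LatLB
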