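import Pool.Agent.Lib_MP_02aa3f_lb.Bessel

/-!
# Gaussian sums over rotated lattices through far points
-/

set_option autoImplicit false
open MeasureTheory Set Filter
open scoped ENNReal Real Topology

namespace Pool.Agent.LatLB

/-- the Gaussian density -/
noncomputable def gs (a : ℝ) (x : ℂ) : ℝ := 1 / a * Real.exp (-(π / a) * ‖x‖ ^ 2)

lemma gs_nonneg {a : ℝ} (ha : 0 < a) (x : ℂ) : 0 ≤ gs a x := by unfold gs; positivity

lemma continuous_gs (a : ℝ) : Continuous (gs a) := by unfold gs; fun_prop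

@[fun_prop] lemma measurable_gs (a : ℝ) : Measurable (gs a) := (continuous_gs a).measurable

lemma summable_gauss (s : ℝ) {t : ℝ} (ht : 0 < t) :
    Summable fun n : ℤ => Real.exp (-π * (n + s) ^ 2 * t) := by
  have := HurwitzKernelBounds.summable_f_int 0 s ht
  refine this.congr fun n => ?_
  simp [HurwitzKernelBounds.f_int]

/-- the one dimensional Poisson formula -/
lemma poisson1 {a : ℝ} (ha : 0 < a) (s : ℝ) :
    ∑' n : ℤ, Complex.exp (-π / a * (n + s) ^ 2) =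
      (a : ℂ) ^ (1 / 2 : ℂ) * ∑' n : ℤ, Complex.exp (-π * a * n ^ 2 + 2 * π * (-(Complex.I * s)) * n) := by
  have hne : (a : ℂ) ≠ 0 := by exact_mod_cast ha.ne'
  have h := Complex.tsum_exp_neg_quadratic (a := (a : ℂ)) (by simpa using ha) (-(Complex.I * s))
  rw [h, ← mul_assoc, mul_one_div, div_self, one_mul]
  · congr 1
    funext n
    congr 2
    have : (n : ℂ) + s = n + Complex.I * -(Complex.I * s) := by
      have h2 := Complex.I_mul_I
      linear_combination (s : ℂ) * h2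
    rw [this]
  · rw [Complex.cpow_def_of_ne_zero hne]
    exact Complex.exp_ne_zero _

/-- the Fourier coefficients -/
noncomputable def cf (a : ℝ) (m : ℤ × ℤ) : ℝ := Real.exp (-π * m.1 ^ 2 * a) * Real.exp (-π * m.2 ^ 2 * a)

lemma summable_cf {a : ℝ} (ha : 0 < a) : Summable (cf a) := by
  have h1 : Summable fun n : ℤ => Real.exp (-π * (n : ℝ) ^ 2 * a) := by
    have := summable_gauss 0 ha
    simpa using this
  have h2 : Summable fun n : ℤ => ‖Real.exp (-π * (n : ℝ) ^ 2 * a)‖ := by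
    simpa using h1
  exact summable_mul_of_summable_norm h2 h2

/-- the phase -/
noncomputable def ph (v : ℂ) (m : ℤ × ℤ) : ℝ := v.re * m.1 + v.im * m.2

/-- the two dimensional Poisson formula -/
lemma poisson2 {a : ℝ} (ha : 0 < a) (v : ℂ) :
    ∑' m : ℤ × ℤ, (gs a (v + zi m) : ℂ) =
      ∑' m : ℤ × ℤ, (cf a m : ℂ) * Complex.exp (-(2 * π * ph v m) * Complex.I) := by
  have hne : (a : ℂ) ≠ 0 := by exact_mod_cast ha.ne'
  have hπ := Real.pi_pos
  have hsum1 : ∀ s : ℝ, Summable fun n : ℤ => ‖Complex.exp (-π / a * (n + s) ^ 2)‖ := by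
    intro s
    have := summable_gauss s (one_div_pos.mpr ha)
    refine this.congr fun n => ?_
    have e1 : (-π / a * (n + s) ^ 2 : ℂ) = ((-π / a * (n + s) ^ 2 : ℝ) : ℂ) := by push_cast; ring
    rw [e1, Complex.norm_exp_ofReal]
    congr 1
    ring
  have hsum2 : ∀ s : ℝ, Summable fun n : ℤ =>
      ‖Complex.exp (-π * a * n ^ 2 + 2 * π * (-(Complex.I * s)) * n)‖ := by
    intro s
    have := summable_gauss 0 ha
    refine this.congr fun n => ?_
    rw [Complex.norm_exp]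
    congr 1
    simp
    have e1 : ((n : ℂ) ^ 2).re = (n : ℝ) ^ 2 := by
      have : ((n : ℂ) ^ 2) = (((n : ℝ) ^ 2 : ℝ) : ℂ) := by push_cast; ring
      rw [this, Complex.ofReal_re]
    rw [e1]
    ring
  have hL : ∑' m : ℤ × ℤ, (gs a (v + zi m) : ℂ) = 1 / a *
      ((∑' n : ℤ, Complex.exp (-π / a * (n + v.re) ^ 2)) *
        ∑' n : ℤ, Complex.exp (-π / a * (n + v.im) ^ 2)) := by
    rw [tsum_mul_tsum_of_summable_norm (hsum1 _) (hsum1 _), ← tsum_mul_left]
    congr 1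
    funext m
    rw [← Complex.exp_add, gs]
    push_cast
    congr 2
    have e1 : ‖v + zi m‖ ^ 2 = (m.1 + v.re) ^ 2 + (m.2 + v.im) ^ 2 := by
      rw [Complex.sq_norm, Complex.normSq_apply]
      simp
      ring
    have e2 : ((‖v + zi m‖ : ℝ) : ℂ) ^ 2 = (m.1 + v.re) ^ 2 + (m.2 + v.im) ^ 2 := by
      rw [← Complex.ofReal_pow, e1]; push_cast; ring
    rw [e2]
    ring
  have hR : ∑' m : ℤ × ℤ, (cf a m : ℂ) * Complex.exp (-(2 * π * ph v m) * Complex.I) =
      (∑' n : ℤ, Complex.exp (-π * a * n ^ 2 + 2 * π * (-(Complex.I * v.re)) * n)) *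
        ∑' n : ℤ, Complex.exp (-π * a * n ^ 2 + 2 * π * (-(Complex.I * v.im)) * n) := by
    rw [tsum_mul_tsum_of_summable_norm (hsum2 _) (hsum2 _)]
    congr 1
    funext m
    rw [← Complex.exp_add, cf, ph]
    push_cast
    rw [← Complex.exp_add, ← Complex.exp_add]
    congr 1
    ring
  rw [hL, hR, poisson1 ha, poisson1 ha]
  have hcp : (a : ℂ) ^ (1 / 2 : ℂ) * (a : ℂ) ^ (1 / 2 : ℂ) = a := by
    rw [← Complex.cpow_add _ _ hne]
    norm_num
  set S1 := ∑' n : ℤ, Complex.exp (-π * a * n ^ 2 + 2 * π * (-(Complex.I * v.re)) * n)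
  set S2 := ∑' n : ℤ, Complex.exp (-π * a * n ^ 2 + 2 * π * (-(Complex.I * v.im)) * n)
  calc 1 / (a : ℂ) * ((a : ℂ) ^ (1 / 2 : ℂ) * S1 * ((a : ℂ) ^ (1 / 2 : ℂ) * S2))
      = 1 / (a : ℂ) * ((a : ℂ) ^ (1 / 2 : ℂ) * (a : ℂ) ^ (1 / 2 : ℂ)) * (S1 * S2) := by ring
    _ = S1 * S2 := by
      rw [hcp]; field_simp

lemma summable_gs {a : ℝ} (ha : 0 < a) (v : ℂ) : Summable fun m : ℤ × ℤ => gs a (v + zi m) := by
  have h1 : ∀ s : ℝ, Summable fun n : ℤ => ‖Real.exp (-π * (n + s) ^ 2 * (1 / a))‖ := by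
    intro s
    simpa using summable_gauss s (one_div_pos.mpr ha)
  have h2 := (summable_mul_of_summable_norm (h1 v.re) (h1 v.im)).mul_left (1 / a)
  refine h2.congr fun m => ?_
  rw [← Real.exp_add, gs]
  congr 2
  have e1 : ‖v + zi m‖ ^ 2 = (m.1 + v.re) ^ 2 + (m.2 + v.im) ^ 2 := by
    rw [Complex.sq_norm, Complex.normSq_apply]
    simp
    ring
  rw [e1]
  ring

end Pool.Agent.LatLB
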