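import Pool.Agent.Lib_MP_02aa3f_lb.Step
import Pool.Agent.Lib_MP_02aa3f_lb.Circle

/-!
# Lower bounds for lattice-catching sets: integration over the rotations
-/

set_option autoImplicit false
open MeasureTheory Set
open scoped ENNReal Real

namespace Pool.Agent.LatLB

/-- the circle of angles -/
def Ii : Set ℝ := Ico 0 (2 * π)

lemma volume_Ii : volume Ii = ENNReal.ofReal (2 * π) := by
  rw [Ii, Real.volume_Ico, sub_zero]

/-- nearly parallel rotated vectors -/
def Par (s : ℝ) (a b : ℂ) (θ φ : ℝ) : Prop := |cr (ex θ * a) (ex φ * b)| < s * (‖a‖ * ‖b‖)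

lemma continuous_cr (a b : ℂ) : Continuous fun t : ℝ × ℝ => cr (ex t.1 * a) (ex t.2 * b) := by
  have hcont1 : Continuous fun t : ℝ × ℝ => ex t.1 * a :=
    (continuous_ex.comp continuous_fst).mul continuous_const
  have hcont2 : Continuous fun t : ℝ × ℝ => ex t.2 * b :=
    (continuous_ex.comp continuous_snd).mul continuous_const
  unfold cr
  exact ((Complex.continuous_re.comp hcont2).mul (Complex.continuous_im.comp hcont1)).sub
      ((Complex.continuous_re.comp hcont1).mul (Complex.continuous_im.comp hcont2))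

lemma measurableSet_par (s : ℝ) (a b : ℂ) : MeasurableSet {t : ℝ × ℝ | Par s a b t.1 t.2} :=
  measurableSet_lt (continuous_cr a b).abs.measurable measurable_const

lemma measurableSet_par' (s : ℝ) (a b : ℂ) (θ : ℝ) : MeasurableSet {φ : ℝ | Par s a b θ φ} := by
  have h := (continuous_cr a b).comp (Continuous.prodMk_right θ)
  exact measurableSet_lt h.abs.measurable measurable_const

lemma volume_par_le {s : ℝ} (hs : 0 < s) (a b : ℂ) (θ : ℝ) :
    volume ({φ : ℝ | Par s a b θ φ} ∩ Ii) ≤ ENNReal.ofReal (5 * π * s) := by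
  refine le_trans (measure_mono ?_) (par_le (w := ex θ * a) (b := b) hs)
  rintro φ ⟨h1, h2⟩
  refine ⟨h2, ?_⟩
  have : ‖ex θ * a‖ = ‖a‖ := by rw [norm_mul, norm_ex, one_mul]
  rw [this]
  exact h1

/-- the set in the product of angles and points -/
def Tt (A : Set ℂ) (s : ℝ) (a b : ℂ) : Set ((ℝ × ℝ) × ℂ) :=
  {p | p.2 ∈ A ∧ ¬ Par s a b p.1.1 p.1.2 ∧ p.2 + ex p.1.1 * a - ex p.1.2 * b ∈ A}

lemma measurableSet_Tt {A : Set ℂ} (hA : MeasurableSet A) (s : ℝ) (a b : ℂ) :
    MeasurableSet (Tt A s a b) := by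
  have : Tt A s a b = (Prod.snd ⁻¹' A) ∩ ((Prod.fst ⁻¹' {t : ℝ × ℝ | Par s a b t.1 t.2})ᶜ ∩
      (fun p : (ℝ × ℝ) × ℂ => p.2 + ex p.1.1 * a - ex p.1.2 * b) ⁻¹' A) := by
    ext p
    simp only [Tt, mem_ofPred_eq, mem_inter_iff, mem_compl_iff, mem_preimage]
  rw [this]
  refine (hA.preimage measurable_snd).inter
    (((measurableSet_par s a b).preimage measurable_fst).compl.inter (hA.preimage ?_))
  fun_prop

/-- the measure of the points `x` of `A` which the two step motion maps into `A` -/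
noncomputable def Vv (A : Set ℂ) (s : ℝ) (a b : ℂ) (t : ℝ × ℝ) : ℝ≥0∞ :=
  volume {x | x ∈ A ∧ ¬ Par s a b t.1 t.2 ∧ x + ex t.1 * a - ex t.2 * b ∈ A}

lemma measurable_Vv {A : Set ℂ} (hA : MeasurableSet A) (s : ℝ) (a b : ℂ) :
    Measurable (Vv A s a b) :=
  measurable_measure_prodMk_left (measurableSet_Tt hA s a b)

lemma lintegral_Vv_le {A : Set ℂ} (hA : MeasurableSet A) {s : ℝ} (hs : 0 < s) {a b : ℂ}
    (ha : a ≠ 0) (hb : b ≠ 0) :
    ∫⁻ θ in Ii, ∫⁻ φ in Ii, Vv A s a b (θ, φ) ≤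
      volume A * (2 * volume A / ENNReal.ofReal (s * (‖a‖ * ‖b‖))) := by
  have hκ : 0 < s * (‖a‖ * ‖b‖) := by
    have := norm_pos_iff.mpr ha
    have := norm_pos_iff.mpr hb
    positivity
  rw [← lintegral_prod (Vv A s a b) (measurable_Vv hA s a b).aemeasurable, Measure.prod_restrict]
  have h1 : ∫⁻ t in Ii ×ˢ Ii, Vv A s a b t ∂(volume.prod volume) =
      ((volume.restrict (Ii ×ˢ Ii)).prod volume) (Tt A s a b) := by
    rw [Measure.prod_apply (measurableSet_Tt hA s a b)]
    rfl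
  rw [h1, Measure.prod_apply_symm (measurableSet_Tt hA s a b)]
  have h2 : ∀ x : ℂ, (volume.restrict (Ii ×ˢ Ii)) ((fun t => (t, x)) ⁻¹' (Tt A s a b)) ≤
      A.indicator (fun _ => 2 * volume A / ENNReal.ofReal (s * (‖a‖ * ‖b‖))) x := by
    intro x
    by_cases hx : x ∈ A
    · rw [Set.indicator_of_mem hx]
      rw [ENNReal.le_div_iff_mul_le (Or.inl (by simpa using hκ)) (Or.inl ENNReal.ofReal_ne_top)]
      rw [mul_comm]
      have h3 := circle_le ha hb hκ (S := (fun w => x + w) ⁻¹' A) (hA.preimage (by fun_prop))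
      rw [(measurePreserving_add_left volume x).measure_preimage hA.nullMeasurableSet] at h3
      refine le_trans (mul_le_mul' le_rfl ?_) h3
      have hm : MeasurableSet ((fun t => (t, x)) ⁻¹' (Tt A s a b)) :=
        (measurableSet_Tt hA s a b).preimage measurable_prodMk_right
      rw [Measure.restrict_apply hm]
      apply measure_mono
      rintro t ⟨⟨_, h4, h5⟩, h6⟩
      refine ⟨h6, not_lt.mp h4, ?_⟩
      rw [mem_preimage]
      convert h5 using 1
      simp only
      ring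
    · rw [Set.indicator_of_notMem hx]
      have : (fun t => (t, x)) ⁻¹' (Tt A s a b) = ∅ := by
        ext t
        simp only [mem_preimage, Tt, mem_ofPred_eq, mem_empty_iff_false, iff_false]
        exact fun h => hx h.1
      rw [this, measure_empty]
  refine (lintegral_mono h2).trans ?_
  rw [lintegral_indicator_const hA]
  rw [mul_comm]

/-- The integrated inequality, in `ℝ≥0∞`. -/
lemma integrated {E B : Set ℂ} (hE : MeasurableSet E) (hB : MeasurableSet B) (hBE : B ⊆ E)
    (hc : Catch E) {R : ℝ} {h : ℂ} {K : ℕ}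
    (hK : 2 * R + ‖h‖ ≤ K) {d g : ℝ≥0∞} (hd : ∀ u : ℂ, ‖u‖ = 1 → volume (Dd E u) ≤ d)
    (hg : volume (Gx B R h ∪ E \ B) ≤ g) (hg' : volume (Gx B R (-h) ∪ E \ B) ≤ g) {s : ℝ}
    (hs : 0 < s) :
    ENNReal.ofReal (2 * π) * (ENNReal.ofReal (2 * π) * volume (Aa B R h)) ≤
      ENNReal.ofReal (2 * π) * (ENNReal.ofReal (2 * π) * (4 * d + 2 * g) +
        volume (Aa B R h) * ((M0 K).card * ENNReal.ofReal (5 * π * s))) +
      ∑ m ∈ M0 K, ∑ n ∈ M0 K, volume (Aa B R h) *
        (2 * volume (Aa B R h) / ENNReal.ofReal (s * (‖zi m‖ * ‖zi n‖))) := by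
  set A := Aa B R h with hAdef
  have hA : MeasurableSet A := measurableSet_Aa hB R h
  have hstep : ∀ θ φ : ℝ, volume A ≤ (4 * d + 2 * g) +
      (∑ m ∈ M0 K, ∑ n ∈ M0 K, ({φ : ℝ | Par s (zi m) (zi n) θ φ}).indicator
        (fun _ => volume (AA E B R h (ex θ) m)) φ +
      ∑ m ∈ M0 K, ∑ n ∈ M0 K, Vv A s (zi m) (zi n) (θ, φ)) := by
    intro θ φ
    refine (step_le hE hB hBE hc hK hd hg hg' (norm_ex θ) (norm_ex φ)).trans ?_
    gcongr
    rw [← Finset.sum_add_distrib]
    apply Finset.sum_le_sum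
    intro m _
    rw [← Finset.sum_add_distrib]
    have hsub : {x | x ∈ AA E B R h (ex θ) m ∧ ∃ m' ∈ M0 K, x + ex θ * zi m - ex φ * zi m' ∈ Aa B R h} ⊆
        ⋃ n ∈ M0 K, {x | x ∈ AA E B R h (ex θ) m ∧ x + ex θ * zi m - ex φ * zi n ∈ Aa B R h} := by
      rintro x ⟨h1, n, hn, h2⟩
      rw [mem_iUnion₂]
      exact ⟨n, hn, h1, h2⟩
    refine (measure_mono hsub).trans ((measure_biUnion_finset_le _ _).trans ?_)
    apply Finset.sum_le_sum
    intro n _
    by_cases hp : Par s (zi m) (zi n) θ φ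
    · have : φ ∈ {φ : ℝ | Par s (zi m) (zi n) θ φ} := hp
      rw [Set.indicator_of_mem this]
      refine le_trans (measure_mono ?_) le_self_add
      exact fun x hx => hx.1
    · refine le_trans ?_ le_add_self
      rw [Vv]
      apply measure_mono
      rintro x ⟨h1, h2⟩
      exact ⟨AA_subset E B R h (ex θ) m h1, hp, h2⟩
  have hVm : Measurable fun t : ℝ × ℝ => ∑ m ∈ M0 K, ∑ n ∈ M0 K, Vv A s (zi m) (zi n) t :=
    Finset.measurable_fun_sum _ fun m _ => Finset.measurable_fun_sum _ fun n _ =>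
      measurable_Vv hA s _ _
  -- integrate over `φ`
  have hφ : ∀ θ : ℝ, ENNReal.ofReal (2 * π) * volume A ≤
      (ENNReal.ofReal (2 * π) * (4 * d + 2 * g) +
        volume A * ((M0 K).card * ENNReal.ofReal (5 * π * s))) +
      ∫⁻ φ in Ii, ∑ m ∈ M0 K, ∑ n ∈ M0 K, Vv A s (zi m) (zi n) (θ, φ) := by
    intro θ
    have hPm : Measurable fun φ : ℝ => ∑ m ∈ M0 K, ∑ n ∈ M0 K,
        ({φ : ℝ | Par s (zi m) (zi n) θ φ}).indicator (fun _ => volume (AA E B R h (ex θ) m)) φ :=
      Finset.measurable_fun_sum _ fun m _ => Finset.measurable_fun_sum _ fun n _ =>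
        measurable_const.indicator (measurableSet_par' s _ _ θ)
    have h1 : ∫⁻ _ in Ii, volume A = ENNReal.ofReal (2 * π) * volume A := by
      rw [lintegral_const, Measure.restrict_apply MeasurableSet.univ, univ_inter, volume_Ii, mul_comm]
    rw [← h1]
    refine (lintegral_mono (hstep θ)).trans ?_
    rw [lintegral_add_left measurable_const, lintegral_add_left hPm]
    rw [lintegral_const, Measure.restrict_apply MeasurableSet.univ, univ_inter, volume_Ii]
    rw [mul_comm (4 * d + 2 * g), add_assoc]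
    gcongr
    rw [lintegral_finsetSum _ (fun m _ => Finset.measurable_fun_sum _ fun n _ =>
        measurable_const.indicator (measurableSet_par' s _ _ θ))]
    calc ∑ m ∈ M0 K, ∫⁻ φ in Ii, ∑ n ∈ M0 K,
          ({φ : ℝ | Par s (zi m) (zi n) θ φ}).indicator (fun _ => volume (AA E B R h (ex θ) m)) φ
        ≤ ∑ m ∈ M0 K, volume (AA E B R h (ex θ) m) * ((M0 K).card * ENNReal.ofReal (5 * π * s)) := by
          apply Finset.sum_le_sum
          intro m _
          rw [lintegral_finsetSum _ (fun n _ =>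
            measurable_const.indicator (measurableSet_par' s _ _ θ))]
          calc ∑ n ∈ M0 K, ∫⁻ φ in Ii, ({φ : ℝ | Par s (zi m) (zi n) θ φ}).indicator
                (fun _ => volume (AA E B R h (ex θ) m)) φ
              ≤ ∑ n ∈ M0 K, volume (AA E B R h (ex θ) m) * ENNReal.ofReal (5 * π * s) := by
                apply Finset.sum_le_sum
                intro n _
                rw [lintegral_indicator_const (measurableSet_par' s _ _ θ),
                  Measure.restrict_apply (measurableSet_par' s _ _ θ)]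
                gcongr
                exact volume_par_le hs _ _ θ
            _ = _ := by
                rw [Finset.sum_const, nsmul_eq_mul]
                ring
      _ = (∑ m ∈ M0 K, volume (AA E B R h (ex θ) m)) * ((M0 K).card * ENNReal.ofReal (5 * π * s)) := by
          rw [Finset.sum_mul]
      _ ≤ _ := by
          gcongr
          exact sum_AA_le hE hB R h (ex θ) _
  -- integrate over `θ`
  have hθ : ENNReal.ofReal (2 * π) * (ENNReal.ofReal (2 * π) * volume A) ≤
      ENNReal.ofReal (2 * π) * (ENNReal.ofReal (2 * π) * (4 * d + 2 * g) +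
        volume A * ((M0 K).card * ENNReal.ofReal (5 * π * s))) +
      ∫⁻ θ in Ii, ∫⁻ φ in Ii, ∑ m ∈ M0 K, ∑ n ∈ M0 K, Vv A s (zi m) (zi n) (θ, φ) := by
    have h1 : ∫⁻ _ in Ii, ENNReal.ofReal (2 * π) * volume A =
        ENNReal.ofReal (2 * π) * (ENNReal.ofReal (2 * π) * volume A) := by
      rw [lintegral_const, Measure.restrict_apply MeasurableSet.univ, univ_inter, volume_Ii]
      ring
    rw [← h1]
    refine (lintegral_mono hφ).trans ?_
    rw [lintegral_add_left measurable_const]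
    rw [lintegral_const, Measure.restrict_apply MeasurableSet.univ, univ_inter, volume_Ii]
    rw [mul_comm (ENNReal.ofReal (2 * π) * (4 * d + 2 * g) + _)]
  refine hθ.trans ?_
  gcongr
  have hV1 : ∀ (θ : ℝ) (m n : ℤ × ℤ), Measurable fun φ : ℝ => Vv A s (zi m) (zi n) (θ, φ) :=
    fun θ m n => (measurable_Vv hA s _ _).comp measurable_prodMk_left
  have e1 : ∀ θ : ℝ, ∫⁻ φ in Ii, ∑ m ∈ M0 K, ∑ n ∈ M0 K, Vv A s (zi m) (zi n) (θ, φ) =
      ∑ m ∈ M0 K, ∑ n ∈ M0 K, ∫⁻ φ in Ii, Vv A s (zi m) (zi n) (θ, φ) := by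
    intro θ
    rw [lintegral_finsetSum _ (fun m _ => Finset.measurable_fun_sum _ fun n _ => hV1 θ m n)]
    apply Finset.sum_congr rfl
    intro m _
    rw [lintegral_finsetSum _ (fun n _ => hV1 θ m n)]
  simp_rw [e1]
  have hin : ∀ m n : ℤ × ℤ, Measurable fun θ : ℝ => ∫⁻ φ in Ii, Vv A s (zi m) (zi n) (θ, φ) := by
    intro m n
    exact (measurable_Vv hA s (zi m) (zi n)).lintegral_prod_right'
  rw [lintegral_finsetSum _ (fun m _ => Finset.measurable_fun_sum _ fun n _ => hin m n)]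
  apply Finset.sum_le_sum
  intro m hm
  rw [lintegral_finsetSum _ (fun n _ => hin m n)]
  apply Finset.sum_le_sum
  intro n hn
  exact lintegral_Vv_le hA hs (fun h0 => ne_zero_of_mem_M0 hm (zi_eq_zero.mp h0))
    (fun h0 => ne_zero_of_mem_M0 hn (zi_eq_zero.mp h0))

end Pool.Agent.LatLB
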