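import Pool.Agent.Lib_MP_02aa3f_lb.Count

/-!
# Lower bounds for lattice-catching sets: the two step inequality for fixed rotations
-/

set_option autoImplicit false
open MeasureTheory Set
open scoped ENNReal

namespace Pool.Agent.LatLB

/-- every rotated and translated copy of the lattice meets `E` -/
def Catch (E : Set ℂ) : Prop := ∀ u : ℂ, ‖u‖ = 1 → ∀ v : ℂ, ∃ m : ℤ × ℤ, v + u * zi m ∈ E

/-- the points of `E` in the disc of radius `R` which the translation by `h` moves out of `E` -/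
def Aa (E : Set ℂ) (R : ℝ) (h : ℂ) : Set ℂ := {x | x ∈ E ∧ ‖x‖ ≤ R ∧ x + h ∉ E}

/-- the part of `E` outside the disc of radius `R` -/
def Gg (E : Set ℂ) (R : ℝ) : Set ℂ := {x | x ∈ E ∧ R < ‖x‖}

/-- the points of `E` outside the disc of radius `R` which the translation by `h` moves out of
`E` -/
def Gx (E : Set ℂ) (R : ℝ) (h : ℂ) : Set ℂ := {x | x ∈ E ∧ R < ‖x‖ ∧ x + h ∉ E}

/-- the points `x` of `Aa B R h` for which the lattice through `x + h` has exactly one point in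
`E`, and this point is the one with index `m` -/
def AA (E B : Set ℂ) (R : ℝ) (h u : ℂ) (m : ℤ × ℤ) : Set ℂ :=
  {x | x ∈ Aa B R h ∧ (∀ k : ℤ × ℤ, x + h + u * zi k ∉ Dd E u) ∧ x + h + u * zi m ∈ E}

lemma measurableSet_Aa {E : Set ℂ} (hE : MeasurableSet E) (R : ℝ) (h : ℂ) :
    MeasurableSet (Aa E R h) := by
  have : Aa E R h = E ∩ ({x | ‖x‖ ≤ R} ∩ ((fun x => x + h) ⁻¹' E)ᶜ) := by
    ext x
    simp only [Aa, mem_ofPred_eq, mem_inter_iff, mem_compl_iff, mem_preimage]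
  rw [this]
  exact hE.inter ((measurableSet_le measurable_norm measurable_const).inter
    (hE.preimage (by fun_prop)).compl)

lemma measurableSet_Gg {E : Set ℂ} (hE : MeasurableSet E) (R : ℝ) : MeasurableSet (Gg E R) := by
  have : Gg E R = E ∩ {x | R < ‖x‖} := by
    ext x; simp [Gg]
  rw [this]
  exact hE.inter (measurableSet_lt measurable_const measurable_norm)

lemma measurableSet_Gx {E : Set ℂ} (hE : MeasurableSet E) (R : ℝ) (h : ℂ) :
    MeasurableSet (Gx E R h) := by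
  have : Gx E R h = E ∩ ({x | R < ‖x‖} ∩ ((fun x => x + h) ⁻¹' E)ᶜ) := by
    ext x
    simp only [Gx, mem_ofPred_eq, mem_inter_iff, mem_compl_iff, mem_preimage]
  rw [this]
  exact hE.inter ((measurableSet_lt measurable_const measurable_norm).inter
    (hE.preimage (by fun_prop)).compl)

lemma Gx_subset (E : Set ℂ) (R : ℝ) (h : ℂ) : Gx E R h ⊆ Gg E R := fun _ hx => ⟨hx.1, hx.2.1⟩

lemma measurableSet_AA {E B : Set ℂ} (hE : MeasurableSet E) (hB : MeasurableSet B) (R : ℝ)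
    (h u : ℂ) (m : ℤ × ℤ) : MeasurableSet (AA E B R h u m) := by
  have : AA E B R h u m = Aa B R h ∩ ((⋂ k : ℤ × ℤ, ((fun x => x + h + u * zi k) ⁻¹' (Dd E u))ᶜ) ∩
      ((fun x => x + h + u * zi m) ⁻¹' E)) := by
    ext x
    simp only [AA, mem_ofPred_eq, mem_inter_iff, mem_iInter, mem_compl_iff, mem_preimage]
  rw [this]
  refine (measurableSet_Aa hB R h).inter ((MeasurableSet.iInter fun k => ?_).inter
    (hE.preimage (by fun_prop)))
  exact ((measurableSet_Dd hE u).preimage (by fun_prop)).compl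

lemma AA_subset (E B : Set ℂ) (R : ℝ) (h u : ℂ) (m : ℤ × ℤ) : AA E B R h u m ⊆ Aa B R h :=
  fun _ hx => hx.1

lemma AA_disjoint (E B : Set ℂ) (R : ℝ) (h u : ℂ) {m n : ℤ × ℤ} (hmn : m ≠ n) :
    Disjoint (AA E B R h u m) (AA E B R h u n) := by
  rw [Set.disjoint_left]
  rintro x ⟨_, h1, h2⟩ ⟨_, _, h3⟩
  apply h1 m
  refine ⟨h2, n - m, sub_ne_zero.mpr hmn.symm, ?_⟩
  have : x + h + u * zi m + u * zi (n - m) = x + h + u * zi n := by rw [zi_sub]; ring
  rw [this]
  exact h3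

lemma sum_AA_le {E B : Set ℂ} (hE : MeasurableSet E) (hB : MeasurableSet B) (R : ℝ) (h u : ℂ)
    (s : Finset (ℤ × ℤ)) : ∑ m ∈ s, volume (AA E B R h u m) ≤ volume (Aa B R h) := by
  rw [← measure_biUnion_finset (fun m _ n _ hmn => AA_disjoint E B R h u hmn)
    (fun m _ => measurableSet_AA hE hB R h u m)]
  apply measure_mono
  exact iUnion₂_subset fun m _ => AA_subset E B R h u m

/-- the two step inequality -/
lemma step_le {E B : Set ℂ} (hE : MeasurableSet E) (hB : MeasurableSet B) (hBE : B ⊆ E)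
    (hc : Catch E) {R : ℝ} {h : ℂ} {K : ℕ} (hK : 2 * R + ‖h‖ ≤ K) {d g : ℝ≥0∞}
    (hd : ∀ u : ℂ, ‖u‖ = 1 → volume (Dd E u) ≤ d)
    (hg : volume (Gx B R h ∪ E \ B) ≤ g) (hg' : volume (Gx B R (-h) ∪ E \ B) ≤ g)
    {u u' : ℂ} (hu : ‖u‖ = 1) (hu' : ‖u'‖ = 1) :
    volume (Aa B R h) ≤ 4 * d + 2 * g + ∑ m ∈ M0 K, volume {x | x ∈ AA E B R h u m ∧
      ∃ m' ∈ M0 K, x + u * zi m - u' * zi m' ∈ Aa B R h} := by
  set X : Set ℂ → Set ℂ := fun S => {x | x ∈ E ∧ x ∉ Dd E u ∧ ∃ m : ℤ × ℤ, x + h + u * zi m ∈ S}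
    with hX
  set G1 : Set ℂ := Gx B R h ∪ E \ B with hG1
  set G2 : Set ℂ := Gx B R (-h) ∪ E \ B with hG2
  have hG1m : MeasurableSet G1 := (measurableSet_Gx hB R h).union (hE.diff hB)
  have hG2m : MeasurableSet G2 := (measurableSet_Gx hB R (-h)).union (hE.diff hB)
  set G' : Set ℂ := {y | y ∈ E ∧ ∃ m : ℤ × ℤ, y + -h + u' * zi m ∈ G1} with hG'
  have hDm := measurableSet_Dd hE u
  have hDm' := measurableSet_Dd hE u'
  have hG'm : MeasurableSet G' := by
    have : G' = E ∩ ⋃ m : ℤ × ℤ, (fun y => y + -h + u' * zi m) ⁻¹' G1 := by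
      ext y
      simp only [hG', mem_ofPred_eq, mem_inter_iff, mem_iUnion, mem_preimage]
    rw [this]
    exact hE.inter (MeasurableSet.iUnion fun m => hG1m.preimage (by fun_prop))
  have hG'v : volume G' ≤ d + g := by
    have hsub : G' ⊆ Dd E u' ∪ {y | y ∈ E ∧ y ∉ Dd E u' ∧ ∃ m : ℤ × ℤ, y + -h + u' * zi m ∈ G1} := by
      rintro y ⟨h1, h2⟩
      by_cases hy : y ∈ Dd E u'
      · exact Or.inl hy
      · exact Or.inr ⟨h1, hy, h2⟩
    exact (measure_mono hsub).trans ((measure_union_le _ _).trans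
      (add_le_add (hd u' hu') ((inj_le hE hG1m u' (-h)).trans hg)))
  have hsub : Aa B R h ⊆ Dd E u ∪ (X G2 ∪ (X (Dd E u) ∪ (X (Dd E u') ∪ (X G' ∪
      ⋃ m ∈ M0 K, {x | x ∈ AA E B R h u m ∧ ∃ m' ∈ M0 K, x + u * zi m - u' * zi m' ∈ Aa B R h})))) := by
    intro x hx
    by_cases c1 : x ∈ Dd E u
    · exact Or.inl c1
    refine Or.inr ?_
    by_cases c2 : x ∈ X G2
    · exact Or.inl c2
    refine Or.inr ?_
    by_cases c3 : x ∈ X (Dd E u)
    · exact Or.inl c3
    refine Or.inr ?_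
    by_cases c4 : x ∈ X (Dd E u')
    · exact Or.inl c4
    refine Or.inr ?_
    by_cases c5 : x ∈ X G'
    · exact Or.inl c5
    refine Or.inr ?_
    obtain ⟨hxB, hxR, hxh⟩ := hx
    have hxE : x ∈ E := hBE hxB
    obtain ⟨m, hm⟩ := hc u hu (x + h)
    have hyB : x + h + u * zi m ∈ B := by
      by_contra hcon
      exact c2 ⟨hxE, c1, m, Or.inr ⟨hm, hcon⟩⟩
    have hm0 : m ≠ 0 := by
      rintro rfl
      apply hxh
      simpa using hyB
    have hz : x + u * zi m ∉ E := fun hz => c1 ⟨hxE, m, hm0, hz⟩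
    have hy1 : ‖x + h + u * zi m‖ ≤ R := by
      by_contra hlt
      refine c2 ⟨hxE, c1, m, Or.inl ⟨hyB, not_le.mp hlt, ?_⟩⟩
      have e1 : x + h + u * zi m + -h = x + u * zi m := by ring
      rw [e1]
      exact fun hcon => hz (hBE hcon)
    have hmK : m ∈ M0 K := by
      apply mem_M0_of_norm hm0
      have e1 : ‖zi m‖ = ‖u * zi m‖ := by rw [norm_mul, hu, one_mul]
      have e2 : u * zi m = (x + h + u * zi m) - x - h := by ring
      rw [e1, e2]
      calc ‖(x + h + u * zi m) - x - h‖ ≤ ‖(x + h + u * zi m) - x‖ + ‖h‖ := norm_sub_le _ _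
        _ ≤ ‖x + h + u * zi m‖ + ‖x‖ + ‖h‖ := by gcongr; exact norm_sub_le _ _
        _ ≤ R + R + ‖h‖ := by gcongr
        _ ≤ K := by linarith
    have hAA : x ∈ AA E B R h u m :=
      ⟨⟨hxB, hxR, hxh⟩, fun k hk => c3 ⟨hxE, c1, k, hk⟩, hm⟩
    obtain ⟨n, hn⟩ := hc u' hu' (x + u * zi m)
    have hn0 : n ≠ 0 := by
      rintro rfl
      apply hz
      simpa using hn
    have e0 : x + h + u * zi m + -h + u' * zi n = x + u * zi m + u' * zi n := by ring
    have hx1B : x + u * zi m + u' * zi n ∈ B := by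
      by_contra hcon
      apply c5
      refine ⟨hxE, c1, m, hm, n, ?_⟩
      rw [e0]
      exact Or.inr ⟨hn, hcon⟩
    have hx1h : x + u * zi m + u' * zi n + h ∉ B := by
      intro hcon
      apply c4
      refine ⟨hxE, c1, m, hm, n, hn0, ?_⟩
      have := hBE hcon
      convert this using 1
      ring
    have hx1R : ‖x + u * zi m + u' * zi n‖ ≤ R := by
      by_contra hlt
      apply c5
      refine ⟨hxE, c1, m, hm, n, ?_⟩
      rw [e0]
      exact Or.inl ⟨hx1B, not_le.mp hlt, hx1h⟩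
    have hnK : n ∈ M0 K := by
      apply mem_M0_of_norm hn0
      have e1 : ‖zi n‖ = ‖u' * zi n‖ := by rw [norm_mul, hu', one_mul]
      have e2 : u' * zi n = (x + u * zi m + u' * zi n) - (x + h + u * zi m) + h := by ring
      rw [e1, e2]
      calc ‖(x + u * zi m + u' * zi n) - (x + h + u * zi m) + h‖
          ≤ ‖(x + u * zi m + u' * zi n) - (x + h + u * zi m)‖ + ‖h‖ := norm_add_le _ _
        _ ≤ ‖x + u * zi m + u' * zi n‖ + ‖x + h + u * zi m‖ + ‖h‖ := by gcongr; exact norm_sub_le _ _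
        _ ≤ R + R + ‖h‖ := by gcongr
        _ ≤ K := by linarith
    rw [mem_iUnion₂]
    refine ⟨m, hmK, hAA, -n, neg_mem_M0 hnK, ?_⟩
    have e1 : x + u * zi m - u' * zi (-n) = x + u * zi m + u' * zi n := by rw [zi_neg]; ring
    rw [e1]
    exact ⟨hx1B, hx1R, hx1h⟩
  refine (measure_mono hsub).trans ?_
  refine (measure_union_le _ _).trans ?_
  have b1 := hd u hu
  have b2 : volume (X G2) ≤ g := (inj_le hE hG2m u h).trans hg'
  have b3 : volume (X (Dd E u)) ≤ d := (inj_le hE hDm u h).trans b1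
  have b4 : volume (X (Dd E u')) ≤ d := (inj_le hE hDm' u h).trans (hd u' hu')
  have b5 : volume (X G') ≤ d + g := (inj_le hE hG'm u h).trans hG'v
  have hfin : volume (⋃ m ∈ M0 K, {x | x ∈ AA E B R h u m ∧
      ∃ m' ∈ M0 K, x + u * zi m - u' * zi m' ∈ Aa B R h}) ≤ ∑ m ∈ M0 K, volume {x | x ∈ AA E B R h u m ∧
      ∃ m' ∈ M0 K, x + u * zi m - u' * zi m' ∈ Aa B R h} := measure_biUnion_finset_le _ _
  have c5 := (measure_union_le (X G') _).trans (add_le_add b5 hfin)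
  have c4 := (measure_union_le (X (Dd E u')) _).trans (add_le_add b4 c5)
  have c3 := (measure_union_le (X (Dd E u)) _).trans (add_le_add b3 c4)
  have c2 := (measure_union_le (X G2) _).trans (add_le_add b2 c3)
  refine (add_le_add b1 c2).trans (le_of_eq ?_)
  ring

end Pool.Agent.LatLB
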