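import Pool.Agent.Lib_MP_02aa3f_lb.Far
import Pool.Agent.Lib_MP_02aa3f_lb.Final

/-!
# Concentration and tightness of nearly optimal sets of bounded perimeter
-/

set_option autoImplicit false
open MeasureTheory Set Filter
open scoped ENNReal Real Topology

namespace Pool.Agent.LatLB

/-- the points of `B` which the translation by `h` moves out of `B` -/
def Ot (B : Set ℂ) (h : ℂ) : Set ℂ := {x | x ∈ B ∧ x + h ∉ B}

lemma measurableSet_Ot {B : Set ℂ} (hB : MeasurableSet B) (h : ℂ) : MeasurableSet (Ot B h) := by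
  have : Ot B h = B ∩ ((fun x => x + h) ⁻¹' B)ᶜ := by
    ext x
    simp only [Ot, mem_ofPred_eq, mem_inter_iff, mem_compl_iff, mem_preimage]
  rw [this]
  exact hB.inter (hB.preimage (by fun_prop)).compl

/-- `E` is a catching set, `B` a subset of perimeter at most `P` with almost the same area, and a
definite part of `B` lies in the unit disc -/
structure Dat (P c₀ c : ℝ) (E B : Set ℂ) : Prop where
  hE : MeasurableSet E
  hB : MeasurableSet B
  hBE : B ⊆ E
  hc : Catch E
  hP : ∀ h : ℂ, volume (Ot B h) ≤ ENNReal.ofReal (P * ‖h‖)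
  hv : volume E < ENNReal.ofReal (1 + c)
  hη : volume (E \ B) < ENNReal.ofReal c
  hcon : ENNReal.ofReal c₀ ≤ volume (B ∩ Metric.closedBall 0 1)

lemma vol_cb (x : ℂ) {r : ℝ} (hr : 0 ≤ r) :
    volume (Metric.closedBall x r) = ENNReal.ofReal (π * r ^ 2) := by
  rw [Complex.volume_closedBall, ENNReal.ofReal_mul Real.pi_pos.le, ENNReal.ofReal_pow hr, mul_comm]
  congr 1
  rw [← NNReal.coe_real_pi, ENNReal.ofReal_coe_nnreal]

lemma disc_shift (s : ℂ) :
    volume (Ot (Metric.closedBall (0 : ℂ) 1) s) ≤ ENNReal.ofReal (2 * π * ‖s‖) := by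
  have hπ := Real.pi_pos
  by_cases hs : ‖s‖ ≤ 1
  · have hsub : Ot (Metric.closedBall (0 : ℂ) 1) s ⊆
        Metric.closedBall (0 : ℂ) 1 \ Metric.closedBall (0 : ℂ) (1 - ‖s‖) := by
      rintro x ⟨h1, h2⟩
      refine ⟨h1, fun h3 => h2 ?_⟩
      rw [mem_closedBall_zero_iff] at h3 ⊢
      exact (norm_add_le x s).trans (by linarith)
    refine (measure_mono hsub).trans ?_
    have hsub2 : Metric.closedBall (0 : ℂ) (1 - ‖s‖) ⊆ Metric.closedBall (0 : ℂ) 1 :=
      Metric.closedBall_subset_closedBall (by linarith [norm_nonneg s])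
    rw [measure_sdiff hsub2 Metric.isClosed_closedBall.measurableSet.nullMeasurableSet
      (isCompact_closedBall _ _).measure_lt_top.ne]
    rw [vol_cb _ zero_le_one, vol_cb _ (by linarith), ← ENNReal.ofReal_sub _ (by positivity)]
    apply ENNReal.ofReal_le_ofReal
    nlinarith [norm_nonneg s, mul_nonneg hπ.le (sq_nonneg ‖s‖)]
  · have hsub : Ot (Metric.closedBall (0 : ℂ) 1) s ⊆ Metric.closedBall (0 : ℂ) 1 := fun x hx => hx.1
    refine (measure_mono hsub).trans ?_
    rw [vol_cb _ zero_le_one]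
    apply ENNReal.ofReal_le_ofReal
    push Not at hs
    nlinarith

/-- the perimeter of the part in the unit disc -/
lemma part_shift {B : Set ℂ} (hB : MeasurableSet B) {P : ℝ} (hP0 : 0 ≤ P)
    (hP : ∀ h : ℂ, volume (Ot B h) ≤ ENNReal.ofReal (P * ‖h‖)) (s : ℂ) :
    volume ((fun y => y - s) ⁻¹' (B ∩ Metric.closedBall 0 1) \ (B ∩ Metric.closedBall 0 1)) ≤
      ENNReal.ofReal ((P + 2 * π) * ‖s‖) := by
  have hπ := Real.pi_pos
  have hsub : (fun y => y - s) ⁻¹' (B ∩ Metric.closedBall 0 1) \ (B ∩ Metric.closedBall 0 1) ⊆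
      (fun y => y - s) ⁻¹' (Ot B s ∪ Ot (Metric.closedBall (0 : ℂ) 1) s) := by
    rintro y ⟨⟨h1, h2⟩, h3⟩
    by_cases hy : y ∈ B
    · right
      refine ⟨h2, fun h4 => h3 ⟨hy, ?_⟩⟩
      simpa using h4
    · left
      refine ⟨h1, fun h4 => hy ?_⟩
      simpa using h4
  refine (measure_mono hsub).trans ?_
  rw [(measurePreserving_sub_right volume s).measure_preimage ((measurableSet_Ot hB s).union
    (measurableSet_Ot Metric.isClosed_closedBall.measurableSet s)).nullMeasurableSet]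
  refine (measure_union_le _ _).trans ?_
  rw [add_mul, ENNReal.ofReal_add (by positivity) (by positivity)]
  exact add_le_add (hP s) (disc_shift s)

/-- Tightness. -/
lemma tight (P c₀ κ : ℝ) (hP0 : 0 ≤ P) (hc₀ : 0 < c₀) (hκ : 0 < κ) :
    ∃ r c : ℝ, 0 < r ∧ 0 < c ∧ ∀ E B : Set ℂ, Dat P c₀ c E B →
      volume {z | z ∈ E ∧ r ≤ ‖z‖} ≤ ENNReal.ofReal κ := by
  have hπ := Real.pi_pos
  -- choice of `a`
  set a : ℝ := (κ * c₀ / (2 * (P + 2 * π))) ^ 2 with ha
  have hP1 : 0 < P + 2 * π := by positivity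
  have ha0 : 0 < a := by rw [ha]; positivity
  have hsa : √a = κ * c₀ / (2 * (P + 2 * π)) := by
    rw [ha, Real.sqrt_sq (by positivity)]
  obtain ⟨r, hr0, hr⟩ := exists_far ha0
  refine ⟨r + 1, κ * c₀ / 72, by linarith, by positivity, fun E B hD => ?_⟩
  obtain ⟨hE, hB, hBE, hc, hP, hv, hη, hcon⟩ := hD
  set S1 := B ∩ Metric.closedBall (0 : ℂ) 1 with hS1
  set S2 := {z | z ∈ E ∧ r + 1 ≤ ‖z‖} with hS2
  have hS1m : MeasurableSet S1 := hB.inter Metric.isClosed_closedBall.measurableSet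
  have hS2m : MeasurableSet S2 := by
    have : S2 = E ∩ {z | r + 1 ≤ ‖z‖} := rfl
    rw [this]
    exact hE.inter (measurableSet_le measurable_const measurable_norm)
  have h := far_le hE hc hS1m hS2m (inter_subset_left.trans hBE) (fun z hz => hz.1)
    (fun x hx => by simpa using hx.2) ha0 hr0 hr (fun z hz => hz.2) hP1.le
    (part_shift hB hP0 hP)
  have hfin : volume E ≠ ∞ := (hv.trans ENNReal.ofReal_lt_top).ne
  have hf1 : volume S1 ≠ ∞ := ne_top_of_le_ne_top hfin (measure_mono (inter_subset_left.trans hBE))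
  have hf2 : volume S2 ≠ ∞ := ne_top_of_le_ne_top hfin (measure_mono fun z hz => hz.1)
  set v1 := (volume S1).toReal with hv1
  set v2 := (volume S2).toReal with hv2
  set e := (volume E).toReal with he
  have e1 : volume S1 = ENNReal.ofReal v1 := (ENNReal.ofReal_toReal hf1).symm
  have e2 : volume S2 = ENNReal.ofReal v2 := (ENNReal.ofReal_toReal hf2).symm
  have e3 : volume E = ENNReal.ofReal e := (ENNReal.ofReal_toReal hfin).symm
  have p1 : 0 ≤ v1 := ENNReal.toReal_nonneg
  have p2 : 0 ≤ v2 := ENNReal.toReal_nonneg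
  have p3 : 0 ≤ e := ENNReal.toReal_nonneg
  have h18 : (18 : ℝ≥0∞) = ENNReal.ofReal 18 := by simp
  rw [e1, e2, e3, h18, ← ENNReal.ofReal_mul (by positivity), ← ENNReal.ofReal_mul (by positivity),
    ← ENNReal.ofReal_mul (by positivity), ← ENNReal.ofReal_mul (by positivity),
    ← ENNReal.ofReal_add (by positivity) (by positivity),
    ← ENNReal.ofReal_add (by positivity) (by positivity), ← ENNReal.ofReal_mul (by positivity),
    ENNReal.ofReal_le_ofReal_iff (by positivity)] at h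
  rw [e3, ENNReal.ofReal_lt_ofReal_iff (by positivity)] at hv
  rw [e1, ENNReal.ofReal_le_ofReal_iff (by positivity)] at hcon
  rw [e2]
  apply ENNReal.ofReal_le_ofReal
  have h1 : (P + 2 * π) * (√a / 2) = κ * c₀ / 4 := by
    rw [hsa]; field_simp; ring
  rw [h1] at h
  have h2 : π * (v1 * v2) ≤ π * (κ * c₀) := by nlinarith
  have h3 : v1 * v2 ≤ κ * c₀ := le_of_mul_le_mul_left h2 hπ
  have h4 : c₀ * v2 ≤ c₀ * κ := by nlinarith
  exact le_of_mul_le_mul_left h4 hc₀

end Pool.Agent.LatLB
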