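import Mathlib

/-!
# Lower bounds for lattice-catching sets: the torus

The plane is `ℂ`, the lattice is `ℤ[i]`, a rotation is multiplication by `u` with `‖u‖ = 1`.
-/

set_option autoImplicit false
open MeasureTheory Set
open scoped ENNReal

namespace Pool.Agent.LatLB

/-- the lattice point with coordinates `m` -/
noncomputable def zi (m : ℤ × ℤ) : ℂ := ⟨m.1, m.2⟩

@[simp] lemma zi_re (m : ℤ × ℤ) : (zi m).re = m.1 := rfl
@[simp] lemma zi_im (m : ℤ × ℤ) : (zi m).im = m.2 := rfl

lemma zi_add (m n : ℤ × ℤ) : zi (m + n) = zi m + zi n := by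
  apply Complex.ext <;> simp

lemma zi_sub (m n : ℤ × ℤ) : zi (m - n) = zi m - zi n := by
  apply Complex.ext <;> simp

lemma zi_neg (m : ℤ × ℤ) : zi (-m) = - zi m := by
  apply Complex.ext <;> simp

@[simp] lemma zi_zero : zi 0 = 0 := by
  apply Complex.ext <;> simp

lemma zi_eq_zero {m : ℤ × ℤ} : zi m = 0 ↔ m = 0 := by
  constructor
  · intro h
    have h1 := congrArg Complex.re h
    have h2 := congrArg Complex.im h
    simp only [zi_re, zi_im, Complex.zero_re, Complex.zero_im, Int.cast_eq_zero] at h1 h2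
    exact Prod.ext h1 h2
  · rintro rfl; simp

/-- the points of `E` whose lattice (rotated by `u`) contains another point of `E` -/
def Dd (E : Set ℂ) (u : ℂ) : Set ℂ := {x | x ∈ E ∧ ∃ m : ℤ × ℤ, m ≠ 0 ∧ x + u * zi m ∈ E}

lemma Dd_subset (E : Set ℂ) (u : ℂ) : Dd E u ⊆ E := fun _ h => h.1

lemma measurableSet_Dd {E : Set ℂ} (hE : MeasurableSet E) (u : ℂ) : MeasurableSet (Dd E u) := by
  have : Dd E u = E ∩ ⋃ m : ℤ × ℤ, ⋃ _ : m ≠ 0, (fun x => x + u * zi m) ⁻¹' E := by
    ext x
    simp [Dd]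
  rw [this]
  refine hE.inter (MeasurableSet.iUnion fun m => MeasurableSet.iUnion fun _ => ?_)
  exact hE.preimage (by fun_prop)

/-- the unit square -/
def Uq : Set ℂ := {x | x.re ∈ Ico (0 : ℝ) 1 ∧ x.im ∈ Ico (0 : ℝ) 1}

lemma measurableSet_Uq : MeasurableSet Uq := by
  have h1 : Uq = Complex.re ⁻¹' (Ico (0 : ℝ) 1) ∩ Complex.im ⁻¹' (Ico (0 : ℝ) 1) := rfl
  rw [h1]
  exact (measurableSet_Ico.preimage Complex.measurable_re).inter
    (measurableSet_Ico.preimage Complex.measurable_im)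

lemma volume_Uq : volume Uq = 1 := by
  have h1 : Uq = Complex.measurableEquivRealProd ⁻¹' (Ico (0 : ℝ) 1 ×ˢ Ico (0 : ℝ) 1) := by
    ext x; simp [Uq, Complex.measurableEquivRealProd_apply]
  rw [h1, Complex.volume_preserving_equiv_real_prod.measure_preimage_equiv]
  rw [Measure.volume_eq_prod, Measure.prod_prod]
  simp

lemma lintegral_tile (f : ℂ → ℝ≥0∞) (hf : Measurable f) :
    ∫⁻ x, f x = ∫⁻ x in Uq, ∑' m : ℤ × ℤ, f (x + zi m) := by
  have hsum : ∫⁻ x in Uq, ∑' m : ℤ × ℤ, f (x + zi m) =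
      ∑' m : ℤ × ℤ, ∫⁻ x in Uq, f (x + zi m) :=
    lintegral_tsum (f := fun (m : ℤ × ℤ) x => f (x + zi m))
      (fun m => (hf.comp (by fun_prop)).aemeasurable)
  rw [hsum]
  have hT : ∀ m : ℤ × ℤ, ∫⁻ x in Uq, f (x + zi m) = ∫⁻ x in (fun x => x - zi m) ⁻¹' Uq, f x := by
    intro m
    have hmp : MeasurePreserving (fun x : ℂ => x - zi m) volume volume := measurePreserving_sub_right _ _
    have := hmp.setLIntegral_comp_preimage (s := Uq) measurableSet_Uq
      (f := fun x => f (x + zi m)) (hf.comp (by fun_prop))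
    rw [← this]
    simp
  simp_rw [hT]
  rw [← lintegral_iUnion]
  · have hU : (⋃ m : ℤ × ℤ, (fun x => x - zi m) ⁻¹' Uq) = univ := by
      ext x
      simp only [mem_iUnion, mem_preimage, mem_univ, iff_true]
      refine ⟨(⌊x.re⌋, ⌊x.im⌋), ?_⟩
      simp only [Uq, mem_ofPred_eq, Complex.sub_re, Complex.sub_im, zi_re, zi_im, mem_Ico]
      exact ⟨⟨by linarith [Int.floor_le x.re], by linarith [Int.lt_floor_add_one x.re]⟩,
        ⟨by linarith [Int.floor_le x.im], by linarith [Int.lt_floor_add_one x.im]⟩⟩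
    rw [hU, Measure.restrict_univ]
  · intro m
    exact measurableSet_Uq.preimage (by fun_prop)
  · intro m n hmn
    rw [Function.onFun, Set.disjoint_left]
    intro x hx hy
    apply hmn
    simp only [Uq, mem_preimage, mem_ofPred_eq, Complex.sub_re, Complex.sub_im, zi_re, zi_im,
      mem_Ico] at hx hy
    obtain ⟨⟨a1, a2⟩, b1, b2⟩ := hx
    obtain ⟨⟨c1, c2⟩, d1, d2⟩ := hy
    have e1 : m.1 = ⌊x.re⌋ := by
      symm; rw [Int.floor_eq_iff]; constructor <;> linarith
    have e2 : n.1 = ⌊x.re⌋ := by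
      symm; rw [Int.floor_eq_iff]; constructor <;> linarith
    have e3 : m.2 = ⌊x.im⌋ := by
      symm; rw [Int.floor_eq_iff]; constructor <;> linarith
    have e4 : n.2 = ⌊x.im⌋ := by
      symm; rw [Int.floor_eq_iff]; constructor <;> linarith
    exact Prod.ext (e1.trans e2.symm) (e3.trans e4.symm)

/-- multiplication by a unit preserves the area -/
lemma mp_mul {u : ℂ} (hu : ‖u‖ = 1) : MeasurePreserving (fun x : ℂ => u * x) volume volume := by
  have h : u ∈ Submonoid.unitSphere ℂ := by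
    rw [Submonoid.unitSphere, ← SetLike.mem_coe]; simpa using hu
  exact (rotation (⟨u, h⟩ : Circle)).measurePreserving

/-- The number of points of `E`, resp. of `D`, on a lattice. -/
lemma two_le_of_catch {E : Set ℂ} (hE : MeasurableSet E) {u : ℂ} (hu : ‖u‖ = 1)
    (hc : ∀ v : ℂ, ∃ m : ℤ × ℤ, v + u * zi m ∈ E) :
    volume (Dd E u) + 2 ≤ 2 * volume E := by
  classical
  have key : ∀ S : Set ℂ, MeasurableSet S →
      volume S = ∫⁻ x in Uq, ∑' m : ℤ × ℤ, S.indicator 1 (u * (x + zi m)) := by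
    intro S hS
    rw [← lintegral_tile (fun y => S.indicator 1 (u * y))
      ((measurable_one.indicator hS).comp (by fun_prop))]
    have h1 := (mp_mul hu).lintegral_comp (f := S.indicator (1 : ℂ → ℝ≥0∞))
      (measurable_one.indicator hS)
    rw [h1, lintegral_indicator_one hS]
  have hD := measurableSet_Dd hE u
  rw [key E hE, key _ hD]
  have h2 : (2 : ℝ≥0∞) = ∫⁻ _ in Uq, 2 := by
    rw [lintegral_const, Measure.restrict_apply MeasurableSet.univ, univ_inter, volume_Uq, mul_one]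
  conv_lhs => rw [h2]
  have hm1 : Measurable fun x : ℂ => ∑' m : ℤ × ℤ, (Dd E u).indicator (1 : ℂ → ℝ≥0∞) (u * (x + zi m)) :=
    Measurable.tsum fun m => (measurable_one.indicator hD).comp (by fun_prop)
  have hm2 : Measurable fun x : ℂ => ∑' m : ℤ × ℤ, E.indicator (1 : ℂ → ℝ≥0∞) (u * (x + zi m)) :=
    Measurable.tsum fun m => (measurable_one.indicator hE).comp (by fun_prop)
  rw [← lintegral_add_left hm1, ← lintegral_const_mul _ hm2]
  apply lintegral_mono
  intro x
  simp only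
  have hind : ∀ (S : Set ℂ) (m : ℤ × ℤ), S.indicator (1 : ℂ → ℝ≥0∞) (u * (x + zi m)) =
      if u * x + u * zi m ∈ S then 1 else 0 := by
    intro S m
    rw [← mul_add]
    by_cases h : u * (x + zi m) ∈ S
    · rw [Set.indicator_of_mem h, if_pos h]; rfl
    · rw [Set.indicator_of_notMem h, if_neg h]
  simp_rw [hind]
  obtain ⟨m₀, hm₀⟩ := hc (u * x)
  have hone : ∀ (S : Set ℂ), ∀ m, u * x + u * zi m ∈ S →
      (1 : ℝ≥0∞) ≤ ∑' m : ℤ × ℤ, if u * x + u * zi m ∈ S then (1 : ℝ≥0∞) else 0 := by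
    intro S m hm
    refine le_trans ?_ (ENNReal.le_tsum m)
    rw [if_pos hm]
  by_cases hex : ∃ m, u * x + u * zi m ∈ Dd E u
  · obtain ⟨m₁, hm₁⟩ := hex
    obtain ⟨hE1, k, hk, hE2⟩ := hm₁
    have hle : (∑' m : ℤ × ℤ, if u * x + u * zi m ∈ Dd E u then (1 : ℝ≥0∞) else 0) ≤
        ∑' m : ℤ × ℤ, if u * x + u * zi m ∈ E then (1 : ℝ≥0∞) else 0 := by
      apply ENNReal.tsum_le_tsum
      intro m
      by_cases h : u * x + u * zi m ∈ Dd E u
      · rw [if_pos h, if_pos h.1]
      · rw [if_neg h]; exact zero_le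
    have htwo : (2 : ℝ≥0∞) ≤ ∑' m : ℤ × ℤ, if u * x + u * zi m ∈ E then (1 : ℝ≥0∞) else 0 := by
      have hne : m₁ ≠ m₁ + k := by
        intro h; apply hk; simpa using h.symm
      refine le_trans ?_ (ENNReal.sum_le_tsum {m₁, m₁ + k})
      rw [Finset.sum_pair hne, if_pos hE1, if_pos]
      · norm_num
      · rw [zi_add, mul_add, ← add_assoc]; exact hE2
    rw [two_mul]
    exact add_le_add hle htwo
  · have h0 : (∑' m : ℤ × ℤ, if u * x + u * zi m ∈ Dd E u then (1 : ℝ≥0∞) else 0) = 0 := by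
      rw [ENNReal.tsum_eq_zero]
      intro m
      rw [if_neg]
      exact fun h => hex ⟨m, h⟩
    rw [h0, zero_add]
    calc (2 : ℝ≥0∞) = 2 * 1 := by norm_num
      _ ≤ _ := by gcongr; exact hone E m₀ hm₀

/-- The injection lemma: a set `G` has at least the area of the set of the points `x` of
`E \ Dd E u` such that `G` meets the lattice through `x + h`. -/
lemma inj_le {E : Set ℂ} (hE : MeasurableSet E) {G : Set ℂ} (hG : MeasurableSet G) (u h : ℂ) :
    volume {x | x ∈ E ∧ x ∉ Dd E u ∧ ∃ m : ℤ × ℤ, x + h + u * zi m ∈ G} ≤ volume G := by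
  set X : ℤ × ℤ → Set ℂ := fun m => {x | x ∈ E ∧ x ∉ Dd E u ∧ x + h + u * zi m ∈ G} with hX
  have hXm : ∀ m, MeasurableSet (X m) := by
    intro m
    have : X m = E ∩ (Dd E u)ᶜ ∩ (fun x => x + h + u * zi m) ⁻¹' G := by
      ext x
      simp only [hX, mem_ofPred_eq, mem_inter_iff, mem_compl_iff, mem_preimage]
      tauto
    rw [this]
    exact (hE.inter (measurableSet_Dd hE u).compl).inter (hG.preimage (by fun_prop))
  have h1 : {x | x ∈ E ∧ x ∉ Dd E u ∧ ∃ m : ℤ × ℤ, x + h + u * zi m ∈ G} = ⋃ m, X m := by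
    ext x
    simp only [mem_ofPred_eq, hX, mem_iUnion]
    tauto
  rw [h1]
  set Y : ℤ × ℤ → Set ℂ := fun m => (fun y => y - (h + u * zi m)) ⁻¹' (X m) with hY
  have hYm : ∀ m, MeasurableSet (Y m) := fun m => (hXm m).preimage (by fun_prop)
  have hvol : ∀ m, volume (X m) = volume (Y m) := by
    intro m
    have hmp : MeasurePreserving (fun y : ℂ => y - (h + u * zi m)) volume volume :=
      measurePreserving_sub_right _ _
    exact (hmp.measure_preimage (hXm m).nullMeasurableSet).symm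
  calc volume (⋃ m, X m) ≤ ∑' m, volume (X m) := measure_iUnion_le _
    _ = ∑' m, volume (Y m) := by simp_rw [hvol]
    _ = volume (⋃ m, Y m) := by
      rw [measure_iUnion _ hYm]
      intro m n hmn
      rw [Function.onFun, Set.disjoint_left]
      intro y hy1 hy2
      simp only [hY, hX, mem_preimage, mem_ofPred_eq] at hy1 hy2
      apply hy1.2.1
      refine ⟨hy1.1, m - n, sub_ne_zero.mpr hmn, ?_⟩
      have : y - (h + u * zi m) + u * zi (m - n) = y - (h + u * zi n) := by
        rw [zi_sub]; ring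
      rw [this]
      exact hy2.1
    _ ≤ volume G := by
      apply measure_mono
      intro y hy
      obtain ⟨m, hm⟩ := mem_iUnion.mp hy
      simp only [hY, hX, mem_preimage, mem_ofPred_eq] at hm
      have := hm.2.2
      convert this using 1
      ring

end Pool.Agent.LatLB
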