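import Pool.Agent.Lib_MP_02aa3f_lb.Union

/-!
# From the complex plane to the Euclidean plane
-/

set_option autoImplicit false
open MeasureTheory Set Filter
open scoped ENNReal Real Topology

namespace Pool.Agent.LatLB

/-- the identification of the complex plane with the Euclidean plane -/
noncomputable def phi : ℂ ≃ₗᵢ[ℝ] EuclideanSpace ℝ (Fin 2) := Complex.orthonormalBasisOneI.repr

lemma phi_apply (z : ℂ) (i : Fin 2) : phi z i = ![z.re, z.im] i := by
  rw [phi, Complex.orthonormalBasisOneI_repr_apply]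

lemma phi_zi (z : EuclideanSpace ℝ (Fin 2)) {m n : ℤ} (h0 : z 0 = m) (h1 : z 1 = n) :
    z = phi (zi (m, n)) := by
  ext i
  rw [phi_apply]
  fin_cases i
  · simpa using h0
  · simpa using h1

lemma mp_phi : MeasurePreserving phi volume volume :=
  Complex.orthonormalBasisOneI.measurePreserving_repr

/-- the recentred copy of `E` in the complex plane -/
def pull (x : EuclideanSpace ℝ (Fin 2)) (E : Set (EuclideanSpace ℝ (Fin 2))) : Set ℂ :=
  {z | phi z + x ∈ E}

lemma mp_pull (x : EuclideanSpace ℝ (Fin 2)) :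
    MeasurePreserving (fun z : ℂ => phi z + x) volume volume :=
  (measurePreserving_add_right volume x).comp mp_phi

lemma measurableSet_pull (x : EuclideanSpace ℝ (Fin 2)) {E : Set (EuclideanSpace ℝ (Fin 2))}
    (hE : MeasurableSet E) : MeasurableSet (pull x E) :=
  hE.preimage (mp_pull x).measurable

lemma volume_pull (x : EuclideanSpace ℝ (Fin 2)) {E : Set (EuclideanSpace ℝ (Fin 2))}
    (hE : MeasurableSet E) : volume (pull x E) = volume E :=
  (mp_pull x).measure_preimage hE.nullMeasurableSet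

lemma catch_pull (x : EuclideanSpace ℝ (Fin 2)) {E : Set (EuclideanSpace ℝ (Fin 2))}
    (h : ∀ ρ : EuclideanSpace ℝ (Fin 2) ≃ᵢ EuclideanSpace ℝ (Fin 2),
      ∃ z ∈ ρ '' E, ∃ m n : ℤ, z 0 = m ∧ z 1 = n) : Catch (pull x E) := by
  intro u hu v
  have hu0 : u ≠ 0 := by
    rintro rfl
    simp at hu
  have hu' : u⁻¹ ∈ Submonoid.unitSphere ℂ := by
    change u⁻¹ ∈ Metric.sphere (0 : ℂ) 1
    rw [mem_sphere_zero_iff_norm, norm_inv, hu, inv_one]
  obtain ⟨z, ⟨y, hy, hyz⟩, m, n, h0, h1⟩ := h
    ((((IsometryEquiv.subRight x).trans phi.symm.toIsometryEquiv).trans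
      ((IsometryEquiv.subRight v).trans (rotation ⟨u⁻¹, hu'⟩).toIsometryEquiv)).trans
      phi.toIsometryEquiv)
  have h2 := phi_zi z h0 h1
  have h3 : phi (u⁻¹ * (phi.symm (y - x) - v)) = z := hyz
  rw [h2] at h3
  have h4 := phi.injective h3
  refine ⟨(m, n), ?_⟩
  have h5 : v + u * zi (m, n) = phi.symm (y - x) := by
    rw [← h4, mul_inv_cancel_left₀ hu0]
    ring
  change phi (v + u * zi (m, n)) + x ∈ E
  rw [h5, LinearIsometryEquiv.apply_symm_apply, sub_add_cancel]
  exact hy

end Pool.Agent.LatLB
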